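import Pool.Agent.H26.EW.Targets

/-!
# Finite worlds of lines: averages
-/

set_option autoImplicit false

open Finset

namespace Pool.Agent.H26.EW

variable {ι : Type} [Fintype ι] [DecidableEq ι] {p : ι → ℕ} {G : Type} [AddCommGroup G]

lemma ave_tr (W : WD ι p G) (hW : W.Ok) (i : ι) (γ : G) (hγ : γ ∈ W.Γ i) (F : G → ℝ) :
    avT W (fun g => F (g + γ)) = avT W F := by
  unfold avT
  congr 1
  refine Finset.sum_nbij' (fun g => g + γ) (fun g => g - γ) ?_ ?_ ?_ ?_ ?_
  · intro g hg
    exact hW.Tadd i γ hγ g hg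
  · intro g hg
    have h := hW.Tadd i (-γ) ((W.Γ i).neg_mem hγ) g hg
    rwa [← sub_eq_add_neg] at h
  · intro g _
    simp
  · intro g _
    simp
  · intro g _
    rfl

lemma ave_sum (W : WD ι p G) {β : Type} (s : Finset β) (F : β → G → ℝ) :
    avT W (fun g => ∑ b ∈ s, F b g) = ∑ b ∈ s, avT W (F b) := by
  unfold avT
  rw [Finset.sum_comm, Finset.mul_sum]

lemma ave_smul (W : WD ι p G) (c : ℝ) (F : G → ℝ) :
    avT W (fun g => c * F g) = c * avT W F := by
  unfold avT
  rw [← Finset.mul_sum]
  ring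

lemma L_pos (W : WD ι p G) (hW : W.Ok) (i : ι) : (0 : ℝ) < (W.L i).card := by
  have : 0 < (W.L i).card := Finset.card_pos.2 ⟨0, hW.L0 i⟩
  exact_mod_cast this

lemma ave_lbH (W : WD ι p G) (hW : W.Ok) (i : ι) (r : Fin (p i)) (F H : G → ℝ)
    (hH : ∀ g, ∀ κ ∈ W.K i r, H (g + κ) = H g) :
    avT W (fun g => H g * Lb W i r F g) = W.N i * avT W (fun g => H g * F g) := by
  have h0 := L_pos W hW i
  have h1 : avT W (fun g => H g * Lb W i r F g) =
      ((W.L i).card : ℝ)⁻¹ * ∑ κ ∈ W.K i r, avT W (fun g => H g * F (g + κ)) := by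
    rw [← ave_sum, ← ave_smul]
    congr 1
    funext g
    unfold Lb
    rw [← Finset.mul_sum]
    ring
  rw [h1]
  have h2 : ∀ κ ∈ W.K i r, avT W (fun g => H g * F (g + κ)) = avT W (fun g => H g * F g) := by
    intro κ hκ
    rw [← ave_tr W hW i κ (hW.KΓ i r κ hκ) (fun g => H g * F g)]
    congr 1
    funext g
    rw [hH g κ hκ]
  rw [Finset.sum_congr rfl h2, Finset.sum_const, nsmul_eq_mul, hW.card i r]
  field_simp

lemma ave_lb (W : WD ι p G) (hW : W.Ok) (i : ι) (r : Fin (p i)) (F : G → ℝ) :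
    avT W (Lb W i r F) = W.N i * avT W F := by
  have h := ave_lbH W hW i r F (fun _ => 1) (fun _ _ _ => rfl)
  simpa using h

lemma ave_sl (W : WD ι p G) (hW : W.Ok) (l : List ι) (x : Pos p) (F : G → ℝ) :
    avT W (SL W l x F) = Nl W l * avT W F := by
  induction l with
  | nil => simp [SL, Nl]
  | cons i l ih =>
    have e : SL W (i :: l) x F = Lb W i (x i) (SL W l x F) := rfl
    rw [e, ave_lb W hW, ih]
    unfold Nl
    rw [List.map_cons, List.prod_cons]
    ring

lemma pos_card (W : WD ι p G) (hW : W.Ok) : (0 : ℝ) < (Fintype.card (Pos p) : ℝ) := by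
  have : Nonempty (Pos p) := ⟨fun i => ⟨0, hW.hp i⟩⟩
  exact_mod_cast Fintype.card_pos

/-- the average over one residue -/
lemma ave_upd (W : WD ι p G) (hW : W.Ok) (i : ι) (F : Pos p → ℝ) :
    avP F = avP fun x => ((p i : ℝ)⁻¹ * ∑ r, F (Function.update x i r)) := by
  have hp : (0 : ℝ) < p i := by exact_mod_cast hW.hp i
  unfold avP
  congr 1
  rw [← Finset.mul_sum]
  have h1 : ∑ x : Pos p, ∑ r : Fin (p i), F (Function.update x i r) =
      ∑ x : Pos p, ∑ _r : Fin (p i), F x := by
    rw [← Finset.sum_product', ← Finset.sum_product', Finset.univ_product_univ]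
    let e : (Pos p × Fin (p i)) ≃ (Pos p × Fin (p i)) :=
      { toFun := fun a => (Function.update a.1 i a.2, a.1 i)
        invFun := fun a => (Function.update a.1 i a.2, a.1 i)
        left_inv := by
          intro a
          ext1
          · simp
          · simp
        right_inv := by
          intro a
          ext1
          · simp
          · simp }
    exact Fintype.sum_equiv e (fun a => F (Function.update a.1 i a.2)) (fun a => F a.1)
      (fun a => rfl)
  rw [h1]
  have h2 : ∀ x : Pos p, ∑ _r : Fin (p i), F x = (p i : ℝ) * F x := by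
    intro x
    rw [Finset.sum_const, Finset.card_univ, Fintype.card_fin, nsmul_eq_mul]
  rw [Finset.sum_congr rfl (fun x _ => h2 x), ← Finset.mul_sum, ← mul_assoc,
    inv_mul_cancel₀ hp.ne', one_mul]

omit [Fintype ι] in
lemma mx_mx (l : List ι) (x s : Pos p) : mx l (mx l x s) (mx l s x) = x := by
  funext i
  unfold mx
  by_cases h : i ∈ l
  · simp [h]
  · simp [h]

lemma ave_swap (l : List ι) (F : Pos p → Pos p → ℝ)
    (hF : ∀ z t t', (∀ i ∈ l, t i = t' i) → F z t = F z t') :
    (avP fun x => avP fun s => F (mx l x s) x) = avP fun z => avP fun t => F z t := by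
  unfold avP
  congr 1
  rw [← Finset.mul_sum, ← Finset.mul_sum]
  congr 1
  rw [← Finset.sum_product', ← Finset.sum_product', Finset.univ_product_univ]
  let e : (Pos p × Pos p) ≃ (Pos p × Pos p) :=
    { toFun := fun a => (mx l a.1 a.2, mx l a.2 a.1)
      invFun := fun a => (mx l a.1 a.2, mx l a.2 a.1)
      left_inv := by
        intro a
        ext1
        · exact mx_mx l a.1 a.2
        · exact mx_mx l a.2 a.1
      right_inv := by
        intro a
        ext1
        · exact mx_mx l a.1 a.2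
        · exact mx_mx l a.2 a.1 }
  refine Fintype.sum_equiv e _ (fun a => F a.1 a.2) (fun a => ?_)
  refine hF _ _ _ (fun i hi => ?_)
  change a.1 i = mx l a.2 a.1 i
  unfold mx
  simp [hi]

theorem pf_AVE : T_AVE := by
  intro ι _ _ p G _ W hW
  exact ⟨fun i γ hγ F => ave_tr W hW i γ hγ F, fun i r F => ave_lb W hW i r F,
    fun l x F => ave_sl W hW l x F, fun i r F H hH => ave_lbH W hW i r F H hH,
    fun i F => ave_upd W hW i F, fun l F hF => ave_swap l F hF⟩

end Pool.Agent.H26.EW
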