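import Pool.Agent.H26.EWR.WKB

/-!
# Finite worlds of lines: every grid has at most one label
-/

set_option autoImplicit false
set_option linter.unusedSectionVars false

open Finset

namespace Pool.Agent.H26.EW

variable {ι : Type} [Fintype ι] [DecidableEq ι] {p : ι → ℕ} {G : Type} [AddCommGroup G]

lemma lb_gd {W : WD ι p G} (hW : W.Ok) (i : ι) (x : Pos p) (g : G) :
    Lb W i (x i) (ind (W.Gd i x)) g ≤ 1 := by
  classical
  have h0 := L_pos W hW i
  unfold Lb
  have h1 : ∑ κ ∈ W.K i (x i), ind (W.Gd i x) (g + κ) =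
      (((W.K i (x i)).filter fun κ => g + κ ∈ W.Gd i x).card : ℝ) := by
    rw [Finset.card_filter, Nat.cast_sum]
    refine Finset.sum_congr rfl (fun κ _ => ?_)
    by_cases h : g + κ ∈ W.Gd i x
    · rw [ind_pos h, if_pos h, Nat.cast_one]
    · rw [ind_neg h, if_neg h, Nat.cast_zero]
  rw [h1]
  have h2 : ((W.K i (x i)).filter fun κ => g + κ ∈ W.Gd i x).card ≤ (W.L i).card := by
    rcases Finset.eq_empty_or_nonempty ((W.K i (x i)).filter fun κ => g + κ ∈ W.Gd i x) with h | h
    · rw [h, Finset.card_empty]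
      exact Nat.zero_le _
    · obtain ⟨κ0, hκ0⟩ := h
      rw [Finset.mem_filter] at hκ0
      refine Finset.card_le_card_of_injOn (fun κ => κ - κ0) ?_ ?_
      · intro κ hκ
        rw [Finset.mem_coe, Finset.mem_filter] at hκ
        have h3 : κ - κ0 ∈ W.K i (x i) := by
          rw [sub_eq_add_neg]
          exact hW.Ka i _ κ hκ.1 _ (hW.Kn i _ κ0 hκ0.1)
        have h4 : (g + κ0) + (κ - κ0) ∈ W.Gd i x := by
          have e : (g + κ0) + (κ - κ0) = g + κ := by abel
          rw [e]
          exact hκ.2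
        exact hW.uniq i x (g + κ0) hκ0.2 (κ - κ0) h3 h4
      · intro a _ b _ h
        exact sub_left_injective h
  rw [inv_mul_le_iff₀ h0, mul_one]
  exact_mod_cast h2

lemma lb_gd_V {W : WD ι p G} (hW : W.Ok) (i : ι) (x : Pos p) (g : G) :
    Lb W i (x i) (ind (W.Gd i x)) g ≤ ind (W.V x) g := by
  by_cases h : g ∈ W.V x
  · rw [ind_pos h]
    exact lb_gd hW i x g
  · rw [ind_neg h]
    unfold Lb
    have h1 : ∀ κ ∈ W.K i (x i), ind (W.Gd i x) (g + κ) = 0 := by
      intro κ hκ
      exact ind_neg (fun h2 => h ((V_iff hW x i hκ g).1 (hW.GdV i x h2)))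
    rw [Finset.sum_eq_zero h1, mul_zero]

lemma wk_cons (W : WD ι p G) (i : ι) (l : List ι) (x t : Pos p) :
    wk W (i :: l) x t = fun g => ind (W.Gd i x) g * (ind (W.Gd i (Function.update x i (t i))) g *
      wk W l (Function.update x i (t i)) t g) := by
  funext g
  unfold wk
  rw [← ind_inter, ← ind_inter]
  exact ind_congr (Iff.rfl)

lemma sl_wk_cons {W : WD ι p G} (hW : W.Ok) (i : ι) (l : List ι) (hl : (i :: l).Nodup)
    (x t : Pos p) :
    SL W l x (wk W (i :: l) x t) = fun g => ind (W.Gd i x) g *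
      (ind (W.Gd i (Function.update x i (t i))) g *
      SL W l (Function.update x i (t i)) (wk W l (Function.update x i (t i)) t) g) := by
  have hl' := List.nodup_cons.1 hl
  have hne : ∀ j ∈ l, i ≠ j := fun j hj h => hl'.1 (h ▸ hj)
  have hxj : ∀ j ∈ l, (Function.update x i (t i)) j = x j := fun j hj => by
    rw [Function.update_of_ne (hne j hj).symm]
  rw [wk_cons, sl_mulH W l x _ _ (fun j hj κ hκ g => ind_congr (Gd_iff hW x (hne j hj) hκ g)),
    sl_mulH W l x _ _ (fun j hj κ hκ g => ind_congr (Gd_iff hW _ (hne j hj)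
      (by rw [hxj j hj]; exact hκ) g)),
    sl_congr W l x (Function.update x i (t i)) _ (fun j hj => (hxj j hj).symm)]

lemma sl_wk {W : WD ι p G} (hW : W.Ok) (l : List ι) : ∀ (x t : Pos p) (g : G), l.Nodup →
    0 ≤ SL W l x (wk W l x t) g ∧ SL W l x (wk W l x t) g ≤ ind (W.V x) g := by
  induction l with
  | nil =>
    intro x t g _
    exact ⟨ind_nonneg _ _, le_refl _⟩
  | cons i l ih =>
    intro x t g hl
    have hl' := List.nodup_cons.1 hl
    refine ⟨?_, ?_⟩
    · exact sl_nonneg W (i :: l) x _ (fun g => ind_nonneg _ g) g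
    · rw [slc, sl_wk_cons hW i l hl]
      refine le_trans (lb_mono W i (x i) _ (ind (W.Gd i x)) (fun g => ?_) g) (lb_gd_V hW i x g)
      have h1 := ih (Function.update x i (t i)) t g hl'.2
      have h2 := h1.2.trans (ind_le_one _ g)
      have h3 := ind_nonneg (W.Gd i x) g
      have h4 := ind_nonneg (W.Gd i (Function.update x i (t i))) g
      have h5 := ind_le_one (W.Gd i (Function.update x i (t i))) g
      calc ind (W.Gd i x) g * (ind (W.Gd i (Function.update x i (t i))) g *
          SL W l (Function.update x i (t i)) (wk W l (Function.update x i (t i)) t) g) ≤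
          ind (W.Gd i x) g * (1 * 1) := by
            refine mul_le_mul_of_nonneg_left ?_ h3
            exact mul_le_mul h5 h2 h1.1 zero_le_one
        _ = ind (W.Gd i x) g := by ring

lemma kl_for {W : WD ι p G} (hW : W.Ok) (i : ι) (x : Pos p) (g : G) :
    ((W.L i).card : ℝ)⁻¹ * (∑ κ ∈ KL W i (x i), ind (W.Gd i x) (g + κ)) ≤
      ind (For W i x) g := by
  classical
  by_cases h : g ∈ For W i x
  · rw [ind_pos h]
    refine le_trans ?_ (lb_gd hW i x g)
    unfold Lb
    refine mul_le_mul_of_nonneg_left ?_ (by positivity)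
    exact Finset.sum_le_sum_of_subset_of_nonneg (Finset.filter_subset _ _)
      (fun κ _ _ => ind_nonneg _ _)
  · rw [ind_neg h]
    have h1 : ∀ κ ∈ KL W i (x i), ind (W.Gd i x) (g + κ) = 0 := by
      intro κ hκ
      unfold KL at hκ
      rw [Finset.mem_filter] at hκ
      exact ind_neg (fun h2 => h ⟨κ, hκ.1, hκ.2, h2⟩)
    rw [Finset.sum_eq_zero h1, mul_zero]

theorem pf_DRP : T_DRP := by
  intro ι _ _ p G _ W hW
  exact ⟨fun i x g => lb_gd hW i x g, fun l hl x t g => sl_wk hW l x t g hl,
    fun i x g => kl_for hW i x g⟩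

end Pool.Agent.H26.EW
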