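import Pool.Agent.H26.EWR.PWA
import Pool.Agent.H53.EW.SEN

/-!
# The ladders on the torus: a list of primes with many pairs of walks in the same grid
-/

set_option autoImplicit false
set_option linter.unusedSectionVars false

open Finset MeasureTheory

namespace Pool.Agent.H26.EW

open Pool.Agent.H24.CL Pool.Agent.H24.LV Pool.Agent.H26.ES

/-- integrable with the integral `v` -/
def HI {k : ℕ} (f : X k → ℝ) (v : ℝ) : Prop := Integrable f volume ∧ ∫ b, f b = v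

lemma HI.cmul {k : ℕ} {f : X k → ℝ} {v : ℝ} (c : ℝ) (h : HI f v) :
    HI (fun b => c * f b) (c * v) :=
  ⟨h.1.const_mul c, by rw [integral_const_mul, h.2]⟩

lemma HI.add {k : ℕ} {f g : X k → ℝ} {v w : ℝ} (h : HI f v) (h' : HI g w) :
    HI (fun b => f b + g b) (v + w) :=
  ⟨h.1.add h'.1, by rw [integral_add h.1 h'.1, h.2, h'.2]⟩

lemma HI.sub {k : ℕ} {f g : X k → ℝ} {v w : ℝ} (h : HI f v) (h' : HI g w) :
    HI (fun b => f b - g b) (v - w) :=
  ⟨h.1.sub h'.1, by rw [integral_sub h.1 h'.1, h.2, h'.2]⟩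

lemma HI.sum {k : ℕ} {β : Type} (s : Finset β) {f : β → X k → ℝ} {v : β → ℝ}
    (h : ∀ i ∈ s, HI (f i) (v i)) : HI (fun b => ∑ i ∈ s, f i b) (∑ i ∈ s, v i) := by
  classical
  induction s using Finset.induction_on with
  | empty =>
    simp only [Finset.sum_empty]
    exact ⟨integrable_zero _ _ _, by simp⟩
  | insert a s ha ih =>
    simp only [Finset.sum_insert ha]
    exact (h a (Finset.mem_insert_self _ _)).add
      (ih (fun i hi => h i (Finset.mem_insert_of_mem hi)))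

lemma HI.avP {k : ℕ} {ι : Type} [Fintype ι] [DecidableEq ι] {p : ι → ℕ}
    {f : Pos p → X k → ℝ} {v : Pos p → ℝ} (h : ∀ x, HI (f x) (v x)) :
    HI (fun b => EW.avP fun x => f x b) (EW.avP v) := by
  unfold EW.avP
  exact (HI.sum Finset.univ (fun x _ => h x)).cmul _

lemma HI.mono {k : ℕ} {f g : X k → ℝ} {v w : ℝ} (h : HI f v) (h' : HI g w)
    (hfg : ∀ b, f b ≤ g b) : v ≤ w := by
  rw [← h.2, ← h'.2]
  exact integral_mono h.1 h'.1 hfg

variable {k : ℕ} {Q : Finset ℕ} {V : Set (X k)} {Ge : ℕ → Set (X k)} {Gd : ℕ → ℕ → Set (X k)}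
  {m : ℝ}

lemma hi_ind (hINT : T_INT) (hQ : ∀ p ∈ Q, 1 ≤ p) (A : Set (X k)) (hA : MeasurableSet A) :
    HI (fun b₀ => avT (WT Q V Ge Gd m b₀) (ind A)) (volume.real A) := by
  have h1 := Pool.Agent.H53.EW.ind_int hA
  have hm : Measurable (ind A : X k → ℝ) := by
    rw [Pool.Agent.H53.EW.ind_eq]
    exact measurable_const.indicator hA
  have hb : ∀ a, |ind A a| ≤ 1 := fun a => by
    rw [abs_of_nonneg (ind_nonneg A a)]
    exact ind_le_one A a
  have h2 := hINT k Q V Ge Gd m hQ (ind A) 1 hm hb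
  refine ⟨?_, ?_⟩
  · refine Integrable.of_bound h2.1.aestronglyMeasurable 1 (Filter.Eventually.of_forall fun b => ?_)
    have h3 : 0 ≤ avT (WT Q V Ge Gd m b) (ind A) := ave_nonneg _ _ (fun g => ind_nonneg A g)
    rw [Real.norm_eq_abs, abs_of_nonneg h3]
    unfold avT
    rcases Nat.eq_zero_or_pos (WT Q V Ge Gd m b).T.card with h0 | h0
    · rw [h0]
      simp
    · have h0' : (0 : ℝ) < (WT Q V Ge Gd m b).T.card := by exact_mod_cast h0
      rw [inv_mul_le_iff₀ h0', mul_one]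
      calc ∑ g ∈ (WT Q V Ge Gd m b).T, ind A g ≤ ∑ _g ∈ (WT Q V Ge Gd m b).T, (1 : ℝ) :=
            Finset.sum_le_sum (fun g _ => ind_le_one A g)
        _ = _ := by rw [Finset.sum_const, nsmul_eq_mul, mul_one]
  · rw [h2.2, h1.2]

lemma wk_b (b₀ : X k) (l : List (Id Q)) : ∀ (x t : Pos (pp Q)) (g : X k),
    Wk (WT Q V Ge Gd m b₀) l x t g ↔ Wk (WT Q V Ge Gd m 0) l x t g := by
  induction l with
  | nil => exact fun x t g => Iff.rfl
  | cons i l ih =>
    intro x t g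
    exact and_congr Iff.rfl (and_congr Iff.rfl (ih _ t g))

lemma wk_b' (b₀ : X k) (l : List (Id Q)) (x t : Pos (pp Q)) :
    wk (WT Q V Ge Gd m b₀) l x t = ind {g | Wk (WT Q V Ge Gd m 0) l x t g} := by
  funext g
  exact ind_congr (wk_b b₀ l x t g)

lemma hi_MM (hINT : T_INT) (hMP : T_MP) (hQ : ∀ p ∈ Q, p.Prime) (hV : MeasurableSet V)
    (hG : ∀ p ∈ Q, ∀ y, MeasurableSet (Gd p y)) (l : List (Id Q)) :
    HI (fun b₀ => MM (WT Q V Ge Gd m b₀) l) (MT Q V Ge Gd m l) := by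
  have h1 : ∀ b₀ : X k, MM (WT Q V Ge Gd m b₀) l = Nl (WT Q V Ge Gd m 0) l *
      avP fun x => avP fun s => avT (WT Q V Ge Gd m b₀)
        (ind {g | Wk (WT Q V Ge Gd m 0) l x s g}) := by
    intro b₀
    unfold MM
    simp only [wk_b']
    rfl
  simp only [h1]
  unfold MT
  refine HI.cmul _ (HI.avP (fun x => HI.avP (fun s => ?_)))
  exact hi_ind hINT (fun p hp => (hQ p hp).one_le) _
    (Pool.Agent.H53.EW.Wk_meas hMP hQ hV hG l x s)

lemma hi_Co (hINT : T_INT) (hMP : T_MP) (hQ : ∀ p ∈ Q, p.Prime) (hV : MeasurableSet V)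
    (hG : ∀ p ∈ Q, ∀ y, MeasurableSet (Gd p y)) (l : List (Id Q)) :
    HI (fun b₀ => Co (WT Q V Ge Gd m b₀) l) (CT Q V Ge Gd m l) := by
  have h1 : ∀ b₀ : X k, Co (WT Q V Ge Gd m b₀) l = Nl (WT Q V Ge Gd m 0) l *
      avP fun x => avP fun s => avP fun r => avT (WT Q V Ge Gd m b₀)
        (ind {g | Wk (WT Q V Ge Gd m 0) l x s g ∧ Wk (WT Q V Ge Gd m 0) l x r g}) := by
    intro b₀
    have e : ∀ x s r, (fun g => wk (WT Q V Ge Gd m b₀) l x s g * wk (WT Q V Ge Gd m b₀) l x r g) =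
        ind {g | Wk (WT Q V Ge Gd m 0) l x s g ∧ Wk (WT Q V Ge Gd m 0) l x r g} := by
      intro x s r
      funext g
      rw [wk_b', wk_b', ← ind_inter]
      rfl
    unfold Co
    simp only [e]
    rfl
  simp only [h1]
  unfold CT
  refine HI.cmul _ (HI.avP (fun x => HI.avP (fun s => HI.avP (fun r => ?_))))
  exact hi_ind hINT (fun p hp => (hQ p hp).one_le) _
    ((Pool.Agent.H53.EW.Wk_meas hMP hQ hV hG l x s).inter
      (Pool.Agent.H53.EW.Wk_meas hMP hQ hV hG l x r))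

lemma vol_phi (hMP : T_MP) (D y : ℕ) (hD : 1 ≤ D) (A : Set (X k)) (hA : MeasurableSet A) :
    volume.real {b : X k | phi D y b ∈ A} = volume.real A := by
  have h := (hMP k D y hD).2.2.measure_preimage hA.nullMeasurableSet
  unfold Measure.real
  rw [← h]
  rfl

lemma pos_ok (hQ : ∀ p ∈ Q, p.Prime) : (0 : ℝ) < (Fintype.card (Pos (pp Q)) : ℝ) := by
  have : Nonempty (Pos (pp Q)) := ⟨fun i => ⟨0, (hQ i.1 i.2).pos⟩⟩
  exact_mod_cast Fintype.card_pos

lemma avP_c (hQ : ∀ p ∈ Q, p.Prime) (c : ℝ) : (avP fun _ : Pos (pp Q) => c) = c := by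
  have h := pos_ok hQ
  unfold avP
  rw [Finset.sum_const, Finset.card_univ, nsmul_eq_mul, ← mul_assoc, inv_mul_cancel₀ h.ne',
    one_mul]

lemma hi_vv (hINT : T_INT) (hMP : T_MP) (hQ : ∀ p ∈ Q, p.Prime) (hV : MeasurableSet V) :
    HI (fun b₀ => vv (WT Q V Ge Gd m b₀)) (volume.real V) := by
  have h1 : ∀ x : Pos (pp Q), HI (fun b₀ : X k => avT (WT Q V Ge Gd m b₀)
      (ind {b | phi (DS Q) (cr Q x) b ∈ V})) (volume.real V) := by
    intro x
    have h2 := hi_ind (Q := Q) (V := V) (Ge := Ge) (Gd := Gd) (m := m) hINT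
      (fun p hp => (hQ p hp).one_le) {b : X k | phi (DS Q) (cr Q x) b ∈ V}
      (Pool.Agent.H53.EW.V_meas (Ge := Ge) (Gd := Gd) (m := m) hMP hQ hV x)
    rw [vol_phi hMP _ _ (Pool.Agent.H53.EW.DS_pos hQ) V hV] at h2
    exact h2
  have h3 := HI.avP h1
  rw [avP_c hQ] at h3
  exact h3

lemma hi_ee (hINT : T_INT) (hMP : T_MP) (hQ : ∀ p ∈ Q, p.Prime)
    (hE : ∀ p ∈ Q, MeasurableSet (Ge p)) (i : Id Q) :
    HI (fun b₀ => ee (WT Q V Ge Gd m b₀) i)
      ((i.1 : ℝ) ^ (KN k - k) * volume.real (Ge i.1)) := by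
  have hD : 1 ≤ DS Q / i.1 := Nat.div_pos (Nat.le_of_dvd (Pool.Agent.H53.EW.DS_pos hQ)
    (Pool.Agent.H53.EW.dvd_DS i)) (hQ i.1 i.2).pos
  have h1 : ∀ x : Pos (pp Q), HI (fun b₀ : X k => avT (WT Q V Ge Gd m b₀)
      (ind {b | phi (DS Q / i.1) (cr Q x % (DS Q / i.1)) b ∈ Ge i.1}))
      (volume.real (Ge i.1)) := by
    intro x
    have h2 := hi_ind (Q := Q) (V := V) (Ge := Ge) (Gd := Gd) (m := m) hINT
      (fun p hp => (hQ p hp).one_le) {b : X k | phi (DS Q / i.1) (cr Q x % (DS Q / i.1)) b ∈ Ge i.1}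
      ((hMP k (DS Q / i.1) (cr Q x % (DS Q / i.1)) hD).1.measurable (hE i.1 i.2))
    rw [vol_phi hMP _ _ hD (Ge i.1) (hE i.1 i.2)] at h2
    exact h2
  have h3 := (HI.avP h1).cmul ((i.1 : ℝ) ^ (KN k - k))
  rw [avP_c hQ] at h3
  exact h3

lemma sum_ms {Ω : ℝ} (h : ∀ p ∈ Q, (p : ℝ) ^ (KN k - k) * volume.real (Ge p) ≤ Ω)
    (l : List (Id Q)) :
    (l.map (fun i : Id Q => (i.1 : ℝ) ^ (KN k - k) * volume.real (Ge i.1))).sum ≤
      l.length * Ω := by
  induction l with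
  | nil => simp
  | cons i l ih =>
    simp only [List.map_cons, List.sum_cons, List.length_cons, Nat.cast_add, Nat.cast_one]
    have := h i.1 i.2
    linarith

theorem pf_GLO (hMP : T_MP) (h1 : T_WOK) (h2 : T_INT) : T_GLO := by
  classical
  intro k hk Q V Ge Gd P m τ Ω ρ r n hdat hcnt hVΩ hΩ hρ hρ1 hMT hn hpool hnum
  have hQ : ∀ p ∈ Q, p.Prime := fun p hp => (hdat.pr p hp).1
  have hOk := h1 k Q V Ge Gd P m τ Ω hdat hcnt
  have hn1 : 1 ≤ n := by rw [hn]; exact Nat.one_le_two_pow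
  have hn1' : (1 : ℝ) ≤ n := by exact_mod_cast hn1
  have hP := hdat.hP
  have hP0 : 0 < P := lt_of_lt_of_le one_pos hP
  have hm := hdat.hm
  have hcardQ : Fintype.card (Id Q) = Q.card := by
    rw [Fintype.card_coe]
  have hρn : 0 < ρ ^ n := pow_pos hρ n
  have hQpos : 0 < Q.card := by
    by_contra h0
    have h0' : Q.card = 0 := by omega
    rw [h0', Nat.cast_zero, mul_zero] at hpool
    nlinarith
  have hI : 0 < Fintype.card (Id Q) := by rw [hcardQ]; exact hQpos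
  have hI' : (0 : ℝ) < Fintype.card (Id Q) := by exact_mod_cast hI
  have hVnn : 0 ≤ volume.real V := measureReal_nonneg
  -- step 1: the power inequality
  have hpw : (n : ℝ) * ρ ^ (n - 1) * ((Fintype.card (Id Q) : ℝ)⁻¹ *
      ∑ i : Id Q, MT Q V Ge Gd m [i]) - (n - 1) * ρ ^ n * volume.real V ≤
      ((Fintype.card (Id Q) : ℝ) ^ n)⁻¹ * (∑ s ∈ (univ : Finset (Fin n → Id Q)).filter
        (fun s => Function.Injective s), MT Q V Ge Gd m (List.ofFn s)) +
      (n : ℝ) ^ 2 / Fintype.card (Id Q) * volume.real V := by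
    have hMM := fun l => hi_MM (Ge := Ge) (m := m) h2 hMP hQ hdat.mV hdat.mG l
    have hvv := hi_vv (Ge := Ge) (Gd := Gd) (m := m) h2 hMP hQ hdat.mV
    have a1 := ((HI.sum (Finset.univ : Finset (Id Q)) (fun i _ => hMM [i])).cmul
      ((Fintype.card (Id Q) : ℝ)⁻¹)).cmul ((n : ℝ) * ρ ^ (n - 1))
    have a2 := hvv.cmul (((n : ℝ) - 1) * ρ ^ n)
    have a3 := (HI.sum ((univ : Finset (Fin n → Id Q)).filter
        (fun s => Function.Injective s)) (fun s _ => hMM (List.ofFn s))).cmul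
        (((Fintype.card (Id Q) : ℝ) ^ n)⁻¹)
    have a4 := hvv.cmul ((n : ℝ) ^ 2 / Fintype.card (Id Q))
    exact HI.mono (a1.sub a2) (a3.add a4) (fun b => pwr (hOk b) r n ρ hn hρ.le hI)
  have hlow : ρ ^ n * Ω ≤ (n : ℝ) * ρ ^ (n - 1) * ((Fintype.card (Id Q) : ℝ)⁻¹ *
      ∑ i : Id Q, MT Q V Ge Gd m [i]) - (n - 1) * ρ ^ n * volume.real V := by
    have b1 : (Fintype.card (Id Q) : ℝ) * (ρ * Ω) ≤ ∑ i : Id Q, MT Q V Ge Gd m [i] := by
      calc (Fintype.card (Id Q) : ℝ) * (ρ * Ω) = ∑ _i : Id Q, ρ * Ω := by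
            rw [Finset.sum_const, Finset.card_univ, nsmul_eq_mul]
        _ ≤ _ := Finset.sum_le_sum (fun i _ => hMT i)
    have b2 : ρ * Ω ≤ (Fintype.card (Id Q) : ℝ)⁻¹ * ∑ i : Id Q, MT Q V Ge Gd m [i] := by
      rw [le_inv_mul_iff₀ hI']
      exact b1
    have b3 : (n : ℝ) * ρ ^ (n - 1) * (ρ * Ω) ≤ (n : ℝ) * ρ ^ (n - 1) *
        ((Fintype.card (Id Q) : ℝ)⁻¹ * ∑ i : Id Q, MT Q V Ge Gd m [i]) :=
      mul_le_mul_of_nonneg_left b2 (by positivity)
    have b4 : ρ ^ (n - 1) * ρ = ρ ^ n := by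
      rw [← pow_succ]
      congr 1
      omega
    have b5 : ((n : ℝ) - 1) * ρ ^ n * volume.real V ≤ ((n : ℝ) - 1) * ρ ^ n * Ω :=
      mul_le_mul_of_nonneg_left hVΩ (mul_nonneg (by linarith) hρn.le)
    have b6 : (n : ℝ) * ρ ^ (n - 1) * (ρ * Ω) = (n : ℝ) * ρ ^ n * Ω := by
      rw [← b4]
      ring
    rw [b6] at b3
    nlinarith [b3, b5]
  have hsmall : (n : ℝ) ^ 2 / Fintype.card (Id Q) * volume.real V ≤ ρ ^ n * Ω / 2 := by
    have c1 : (n : ℝ) ^ 2 / Fintype.card (Id Q) ≤ ρ ^ n / 2 := by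
      rw [div_le_iff₀ hI', hcardQ]
      linarith
    calc (n : ℝ) ^ 2 / Fintype.card (Id Q) * volume.real V ≤ ρ ^ n / 2 * Ω :=
          mul_le_mul c1 hVΩ hVnn (by positivity)
      _ = ρ ^ n * Ω / 2 := by ring
  have hsum : ρ ^ n * Ω / 2 ≤ ((Fintype.card (Id Q) : ℝ) ^ n)⁻¹ *
      (∑ s ∈ (univ : Finset (Fin n → Id Q)).filter
        (fun s => Function.Injective s), MT Q V Ge Gd m (List.ofFn s)) := by
    linarith
  obtain ⟨s, hs, hsM⟩ : ∃ s : Fin n → Id Q, Function.Injective s ∧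
      ρ ^ n * Ω / 2 ≤ MT Q V Ge Gd m (List.ofFn s) := by
    by_contra hcon
    push Not at hcon
    set F := (univ : Finset (Fin n → Id Q)).filter (fun s => Function.Injective s) with hF
    have hIn : (0 : ℝ) < (Fintype.card (Id Q) : ℝ) ^ n := pow_pos hI' n
    have d0 : 0 < ρ ^ n * Ω / 2 := by positivity
    have d1 : (Fintype.card (Id Q) : ℝ) ^ n * (ρ ^ n * Ω / 2) ≤
        ∑ s ∈ F, MT Q V Ge Gd m (List.ofFn s) := by
      rw [le_inv_mul_iff₀ hIn] at hsum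
      exact hsum
    have d2 : F.Nonempty := by
      rw [Finset.nonempty_iff_ne_empty]
      intro h0
      rw [h0, Finset.sum_empty] at d1
      have := mul_pos hIn d0
      linarith
    have d3 : ∑ s ∈ F, MT Q V Ge Gd m (List.ofFn s) < ∑ _s ∈ F, ρ ^ n * Ω / 2 :=
      Finset.sum_lt_sum_of_nonempty d2 (fun s hs => hcon s (Finset.mem_filter.1 hs).2)
    have d4 : (F.card : ℝ) ≤ (Fintype.card (Id Q) : ℝ) ^ n := by
      have : F.card ≤ Fintype.card (Fin n → Id Q) := Finset.card_le_univ _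
      rw [Fintype.card_fun, Fintype.card_fin] at this
      exact_mod_cast this
    rw [Finset.sum_const, nsmul_eq_mul] at d3
    have d5 := mul_le_mul_of_nonneg_right d4 d0.le
    linarith
  refine ⟨List.ofFn s, List.nodup_ofFn.2 hs, List.length_ofFn, ?_⟩
  -- step 2: the pairs
  have hl : (List.ofFn s).Nodup := List.nodup_ofFn.2 hs
  have hlen : (List.ofFn s).length = n := List.length_ofFn
  generalize List.ofFn s = l at hsM hl hlen
  set M := MT Q V Ge Gd m l with hM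
  set v : ℝ := P ^ (-(1 / 2 : ℝ)) with hv
  have hv0 : 0 < v := Real.rpow_pos_of_pos hP0 _
  have hPv : P * v = P ^ (1 / 2 : ℝ) := by
    rw [hv]
    nth_rewrite 1 [← Real.rpow_one P]
    rw [← Real.rpow_add hP0]
    norm_num
  have hvP : v * P ^ (1 / 2 : ℝ) = 1 := by
    rw [hv, ← Real.rpow_add hP0]
    norm_num
  have hco : 2 * (M / Ω) * M - (M / Ω) ^ 2 * volume.real V -
      ((k : ℝ) * m / P + v + n * ((k : ℝ) * m / (P * v))) *
        ((l.map (fun i : Id Q => (i.1 : ℝ) ^ (KN k - k) * volume.real (Ge i.1))).sum) ≤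
      CT Q V Ge Gd m l := by
    have hMM := hi_MM (Ge := Ge) (m := m) h2 hMP hQ hdat.mV hdat.mG l
    have hvv := hi_vv (Ge := Ge) (Gd := Gd) (m := m) h2 hMP hQ hdat.mV
    have hCo := hi_Co (Ge := Ge) (m := m) h2 hMP hQ hdat.mV hdat.mG l
    have hee := fun i => hi_ee (V := V) (Gd := Gd) (m := m) h2 hMP hQ hdat.mE i
    have hes : ∀ l : List (Id Q), HI (fun b₀ => (l.map (ee (WT Q V Ge Gd m b₀))).sum)
        ((l.map (fun i : Id Q => (i.1 : ℝ) ^ (KN k - k) * volume.real (Ge i.1))).sum) := by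
      intro l
      induction l with
      | nil => exact ⟨integrable_zero _ _ _, by simp⟩
      | cons i l ih =>
        simp only [List.map_cons, List.sum_cons]
        exact (hee i).add ih
    have a1 := hMM.cmul (2 * (M / Ω))
    have a2 := hvv.cmul ((M / Ω) ^ 2)
    have a3 := (hes l).cmul ((k : ℝ) * m / P + v + n * ((k : ℝ) * m / (P * v)))
    refine HI.mono ((a1.sub a2).sub a3) hCo (fun b => ?_)
    have h3 := coh (hOk b) P v (M / Ω) hP0 hv0 (fun i => (hdat.pr i.1 i.2).2.2.1) l hl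
    rw [hlen] at h3
    exact h3
  have hee : (l.map (fun i : Id Q => (i.1 : ℝ) ^ (KN k - k) * volume.real (Ge i.1))).sum ≤
      n * Ω := by
    rw [← hlen]
    exact sum_ms hdat.ms l
  have hv1 : v ≤ 1 := by
    rw [hv]
    exact Real.rpow_le_one_of_one_le_of_nonpos hP (by norm_num)
  have hPv1 : 1 / P ≤ v := by
    rw [hv, one_div, ← Real.rpow_neg_one]
    exact Real.rpow_le_rpow_of_exponent_le hP (by norm_num)
  have hkm : (1 : ℝ) ≤ k * m := by
    have hk1 : (1 : ℝ) ≤ k := by exact_mod_cast le_trans (by norm_num) hk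
    nlinarith
  have hkm0 : (0 : ℝ) ≤ k * m := le_trans zero_le_one hkm
  have e1 : (k : ℝ) * m / P ≤ k * m * v := by
    rw [div_eq_mul_one_div]
    exact mul_le_mul_of_nonneg_left hPv1 hkm0
  have e2 : v ≤ k * m * v := by nlinarith
  have e3 : (k : ℝ) * m / (P * v) = k * m * v := by
    have hP12 : 0 < P ^ (1 / 2 : ℝ) := Real.rpow_pos_of_pos hP0 _
    rw [hPv, div_eq_iff hP12.ne', mul_assoc, hvP, mul_one]
  have e4 : (k : ℝ) * m / P + v + n * ((k : ℝ) * m / (P * v)) ≤ 3 * n * (k * m * v) := by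
    rw [e3]
    have : (k : ℝ) * m * v ≤ n * (k * m * v) := by
      have h0 : 0 ≤ (k : ℝ) * m * v := mul_nonneg hkm0 hv0.le
      nlinarith
    nlinarith
  have e5 : ((k : ℝ) * m / P + v + n * ((k : ℝ) * m / (P * v))) *
      ((l.map (fun i : Id Q => (i.1 : ℝ) ^ (KN k - k) * volume.real (Ge i.1))).sum) ≤
      3 * n * (k * m * v) * (n * Ω) := by
    have h0 : 0 ≤ (l.map (fun i : Id Q => (i.1 : ℝ) ^ (KN k - k) * volume.real (Ge i.1))).sum := by
      apply List.sum_nonneg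
      intro x hx
      obtain ⟨i, -, rfl⟩ := List.mem_map.1 hx
      positivity
    exact mul_le_mul e4 hee h0 (by positivity)
  have e6 : 24 * k * (n : ℝ) ^ 2 * m * v ≤ ρ ^ (2 * n) := by
    calc 24 * k * (n : ℝ) ^ 2 * m * v ≤ ρ ^ (2 * n) * P ^ (1 / 2 : ℝ) * v :=
          mul_le_mul_of_nonneg_right hnum hv0.le
      _ = ρ ^ (2 * n) * (v * P ^ (1 / 2 : ℝ)) := by ring
      _ = ρ ^ (2 * n) := by rw [hvP, mul_one]
  have e7 : 3 * n * (k * m * v) * (n * Ω) ≤ ρ ^ (2 * n) * Ω / 8 := by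
    have := mul_le_mul_of_nonneg_right e6 hΩ.le
    nlinarith
  have hM0 : 0 ≤ ρ ^ n * Ω / 2 := by positivity
  have e8 : ρ ^ (2 * n) * Ω / 4 ≤ 2 * (M / Ω) * M - (M / Ω) ^ 2 * volume.real V := by
    have f1 : (M / Ω) ^ 2 * volume.real V ≤ (M / Ω) ^ 2 * Ω :=
      mul_le_mul_of_nonneg_left hVΩ (sq_nonneg _)
    have f2 : (M / Ω) ^ 2 * Ω = M ^ 2 / Ω := by
      field_simp
    have f3 : 2 * (M / Ω) * M = 2 * (M ^ 2 / Ω) := by
      field_simp
    have f4 : ρ ^ (2 * n) * Ω / 4 ≤ M ^ 2 / Ω := by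
      rw [le_div_iff₀ hΩ]
      have f5 : (ρ ^ n * Ω / 2) ^ 2 ≤ M ^ 2 := pow_le_pow_left₀ hM0 hsM 2
      have f6 : (ρ ^ n * Ω / 2) ^ 2 = ρ ^ (2 * n) * Ω / 4 * Ω := by
        rw [mul_comm 2 n, pow_mul]
        ring
      rw [← f6]
      exact f5
    linarith
  linarith

end Pool.Agent.H26.EW
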