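import Pool.Agent.H26.EWR.TFR

/-!
# Finite worlds of lines: walks from two columns of a good line
-/

set_option autoImplicit false
set_option linter.unusedSectionVars false

open Finset

namespace Pool.Agent.H26.EW

variable {ι : Type} [Fintype ι] [DecidableEq ι] {p : ι → ℕ} {G : Type} [AddCommGroup G]

lemma avP_mono (F H : Pos p → ℝ) (h : ∀ x, F x ≤ H x) : avP F ≤ avP H := by
  unfold avP
  exact mul_le_mul_of_nonneg_left (Finset.sum_le_sum (fun x _ => h x)) (by positivity)

lemma avP_nonneg (F : Pos p → ℝ) (h : ∀ x, 0 ≤ F x) : 0 ≤ avP F := by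
  unfold avP
  exact mul_nonneg (by positivity) (Finset.sum_nonneg (fun x _ => h x))

lemma avP_add (F H : Pos p → ℝ) : avP (fun x => F x + H x) = avP F + avP H := by
  unfold avP
  rw [Finset.sum_add_distrib, mul_add]

lemma avP_smul (c : ℝ) (F : Pos p → ℝ) : avP (fun x => c * F x) = c * avP F := by
  unfold avP
  rw [← Finset.mul_sum]
  ring

lemma avP_comm (F : Pos p → Pos p → ℝ) : (avP fun x => avP fun y => F x y) =
    avP fun y => avP fun x => F x y := by
  unfold avP
  congr 1
  rw [← Finset.mul_sum, ← Finset.mul_sum, Finset.sum_comm]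

lemma avP_const (W : WD ι p G) (hW : W.Ok) (c : ℝ) : (avP fun _ : Pos p => c) = c := by
  have h := pos_card W hW
  unfold avP
  rw [Finset.sum_const, Finset.card_univ, nsmul_eq_mul, ← mul_assoc, inv_mul_cancel₀ h.ne',
    one_mul]

lemma avP_sum {β : Type} (s : Finset β) (F : β → Pos p → ℝ) :
    avP (fun x => ∑ b ∈ s, F b x) = ∑ b ∈ s, avP (F b) := by
  unfold avP
  rw [Finset.sum_comm, Finset.mul_sum]

lemma ave_add (W : WD ι p G) (F H : G → ℝ) :
    avT W (fun g => F g + H g) = avT W F + avT W H := by
  unfold avT
  rw [Finset.sum_add_distrib, mul_add]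

/-- `Nl` times an average is the average of the sum over the labels -/
lemma ave_slH {W : WD ι p G} (hW : W.Ok) (l : List ι) (x : Pos p) (F H : G → ℝ)
    (hH : ∀ i ∈ l, ∀ κ ∈ W.K i (x i), ∀ g, H (g + κ) = H g) :
    Nl W l * avT W (fun g => H g * F g) = avT W (fun g => H g * SL W l x F g) := by
  rw [← ave_sl W hW l x, sl_mulH W l x F H hH]

lemma nl_nonneg {W : WD ι p G} (hW : W.Ok) (l : List ι) : 0 ≤ Nl W l := by
  unfold Nl
  refine List.prod_nonneg (fun a ha => ?_)
  obtain ⟨i, _, e⟩ := List.mem_map.1 ha
  rw [← e]
  exact hW.hN i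

lemma nl_cons (W : WD ι p G) (i : ι) (l : List ι) : Nl W (i :: l) = W.N i * Nl W l := by
  unfold Nl
  rw [List.map_cons, List.prod_cons]

lemma ee_nonneg {W : WD ι p G} (hW : W.Ok) (i : ι) : 0 ≤ ee W i := by
  unfold ee
  exact mul_nonneg (hW.hN i) (avP_nonneg _ (fun x => ave_nonneg W _ (fun g => ind_nonneg _ g)))

lemma mx_upd_out {l : List ι} {q : ι} (hq : q ∉ l) (z t : Pos p) (y : Fin (p q)) :
    mx l (Function.update z q y) t = Function.update (mx l z t) q y := by
  funext i
  by_cases hi : i = q
  · subst hi
    unfold mx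
    simp [hq]
  · rw [Function.update_of_ne hi]
    unfold mx
    rw [Function.update_of_ne hi]

lemma mx_cons' {i : ι} {J : List ι} (hi : i ∉ J) (z t : Pos p) :
    mx (i :: J) z t = Function.update (mx J z t) i (t i) := by
  funext j
  by_cases hj : j = i
  · subst hj
    unfold mx
    simp
  · rw [Function.update_of_ne hj]
    unfold mx
    by_cases hjJ : j ∈ J
    · simp [hjJ]
    · simp [hjJ, hj]

lemma mx_out {J : List ι} {j : ι} (hj : j ∉ J) (z t : Pos p) : mx J z t j = z j := by
  unfold mx
  simp [hj]

lemma mx_in {J : List ι} {j : ι} (hj : j ∈ J) (z t : Pos p) : mx J z t j = t j := by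
  unfold mx
  simp [hj]

/-- the foreign lines of one step -/
lemma inc_fr {W : WD ι p G} (hW : W.Ok) (hTAB : T_TAB) (P : ℝ) (hP : 0 < P)
    (hPp : ∀ i, P ≤ p i) (q : ι) (i : ι) (J : List ι) (hiq : i ≠ q) (hiJ : i ∉ J) (hqJ : q ∉ J)
    (U : Pos p → Pos p → Fin (p q) → Set G)
    (hU : ∀ z t y, ∀ κ ∈ W.K i (z i), ∀ g ∈ U z t y, g + κ ∈ U z t y)
    (hS : ∀ z t y g, SL W J t (Lb W q (z q) (ind (U z t y))) g ≤ 1) :
    Nl W J * W.N q * (avP fun z => avP fun t => ((p q : ℝ)⁻¹ * ∑ y, avT W (fun g =>
      ind (U z t y) g * FR W i (mx J z t) (Function.update (mx J z t) q y) g))) ≤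
      W.kk * W.m / P * ee W i := by
  have hpi : (0 : ℝ) < p i := by exact_mod_cast hW.hp i
  have hpq : (0 : ℝ) < p q := by exact_mod_cast hW.hp q
  have hkm : 0 ≤ W.kk * W.m := mul_nonneg hW.hk (le_trans zero_le_one hW.hm)
  -- the labels of the history
  have e1 : ∀ z t y, Nl W J * avT W (fun g =>
      ind (U z t y) g * FR W i (mx J z t) (Function.update (mx J z t) q y) g) =
      avT W (fun g => SL W J t (ind (U z t y)) g *
        FR W i (mx J z t) (Function.update (mx J z t) q y) g) := by
    intro z t y
    have hFR : ∀ j ∈ J, ∀ κ ∈ W.K j (t j), ∀ g,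
        FR W i (mx J z t) (Function.update (mx J z t) q y) (g + κ) =
        FR W i (mx J z t) (Function.update (mx J z t) q y) g := by
      intro j hj κ hκ g
      have hij : i ≠ j := fun h => hiJ (h ▸ hj)
      have hqj : j ≠ q := fun h => hqJ (h ▸ hj)
      have k1 : κ ∈ W.K j (mx J z t j) := by rw [mx_in hj]; exact hκ
      have k2 : κ ∈ W.K j (Function.update (mx J z t) q y j) := by
        rw [Function.update_of_ne hqj]
        exact k1
      classical
      unfold FR
      congr 1
      refine Finset.sum_congr rfl (fun a _ => Finset.sum_congr rfl (fun b _ => ?_))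
      have f1 : g + κ + a = g + a + κ := by abel
      have f2 : g + κ + b = g + b + κ := by abel
      rw [f1, f2, ind_congr (Gd_iff hW _ hij k1 (g + a)), ind_congr (Gd_iff hW _ hij k2 (g + b))]
    have h1 := ave_slH hW J t (ind (U z t y))
      (FR W i (mx J z t) (Function.update (mx J z t) q y)) hFR
    have e2 : (fun g => ind (U z t y) g * FR W i (mx J z t) (Function.update (mx J z t) q y) g) =
        fun g => FR W i (mx J z t) (Function.update (mx J z t) q y) g * ind (U z t y) g := by
      funext g
      ring
    rw [e2, h1]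
    congr 1
    funext g
    ring
  -- one column
  have e3 : ∀ z t y, W.N q * ((p i : ℝ)⁻¹ * ∑ r : Fin (p i), avT W (fun g =>
      SL W J t (ind (U (Function.update z i r) t y)) g *
        FR W i (mx J (Function.update z i r) t)
          (Function.update (mx J (Function.update z i r) t) q y) g)) ≤
      W.kk * W.m / p i * (W.N i * avT W (ind (W.Ge i (mx J z t)))) := by
    intro z t y
    have h1 := tfr hW hTAB hiq (mx J z t) y
      (fun r g => SL W J t (ind (U (Function.update z i r) t y)) g)
      (fun r g => sl_nonneg W J t _ (fun g => ind_nonneg _ g) g) ?_ ?_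
    · refine le_trans (le_of_eq ?_) h1
      congr 2
      refine Finset.sum_congr rfl (fun r _ => ?_)
      rw [mx_upd_out hiJ z t r]
    · intro r g κ hκ
      refine sl_L W J t _ κ (fun g => ?_) g
      have hκ' : κ ∈ W.K i (Function.update z i r i) := by
        rw [Function.update_self]
        exact hκ
      exact ind_congr (mem_tr (hU _ t y κ hκ') (hU _ t y (-κ) (hW.Kn i _ κ hκ')) g)
    · intro r g
      have h2 := hS (Function.update z i r) t y g
      rw [sl_lb W J t q, Function.update_of_ne hiq.symm] at h2
      rw [mx_out hqJ]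
      exact h2
  -- summation
  have e4 : ∀ t y, W.N q * avP (fun z => avT W (fun g => SL W J t (ind (U z t y)) g *
        FR W i (mx J z t) (Function.update (mx J z t) q y) g)) ≤
      W.kk * W.m / p i * (W.N i * avP fun z => avT W (ind (W.Ge i (mx J z t)))) := by
    intro t y
    rw [ave_upd W hW i (fun z => avT W (fun g => SL W J t (ind (U z t y)) g *
        FR W i (mx J z t) (Function.update (mx J z t) q y) g)), ← avP_smul, ← avP_smul, ← avP_smul]
    exact avP_mono _ _ (fun z => e3 z t y)
  have e5 : (avP fun z => avP fun t => avT W (ind (W.Ge i (mx J z t)))) =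
      avP fun x => avT W (ind (W.Ge i x)) := by
    have h1 := ave_swap (p := p) J (fun z _ => avT W (ind (W.Ge i z))) (fun _ _ _ _ => rfl)
    rw [h1]
    congr 1
    funext z
    exact avP_const W hW _
  have e6 : Nl W J * W.N q * (avP fun z => avP fun t => ((p q : ℝ)⁻¹ * ∑ y, avT W (fun g =>
      ind (U z t y) g * FR W i (mx J z t) (Function.update (mx J z t) q y) g))) =
      avP fun t => (p q : ℝ)⁻¹ * ∑ y, (W.N q * avP (fun z => avT W (fun g =>
        SL W J t (ind (U z t y)) g *
        FR W i (mx J z t) (Function.update (mx J z t) q y) g))) := by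
    rw [avP_comm, ← avP_smul]
    congr 1
    funext t
    rw [← avP_smul]
    have h1 : (fun z => Nl W J * W.N q * ((p q : ℝ)⁻¹ * ∑ y, avT W (fun g =>
        ind (U z t y) g * FR W i (mx J z t) (Function.update (mx J z t) q y) g))) =
        fun z => ∑ y, ((p q : ℝ)⁻¹ * W.N q) * avT W (fun g => SL W J t (ind (U z t y)) g *
        FR W i (mx J z t) (Function.update (mx J z t) q y) g) := by
      funext z
      rw [Finset.mul_sum, Finset.mul_sum]
      refine Finset.sum_congr rfl (fun y _ => ?_)
      rw [← e1 z t y]
      ring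
    rw [h1, avP_sum, Finset.mul_sum]
    refine Finset.sum_congr rfl (fun y _ => ?_)
    rw [avP_smul]
    ring
  rw [e6]
  have hN := hW.hN i
  have hpos : 0 ≤ W.N i * avP fun x => avT W (ind (W.Ge i x)) := ee_nonneg hW i
  calc avP (fun t => (p q : ℝ)⁻¹ * ∑ y, (W.N q * avP (fun z => avT W (fun g =>
        SL W J t (ind (U z t y)) g *
        FR W i (mx J z t) (Function.update (mx J z t) q y) g)))) ≤
      avP fun t => (p q : ℝ)⁻¹ * ∑ _y : Fin (p q),
        (W.kk * W.m / p i * (W.N i * avP fun z => avT W (ind (W.Ge i (mx J z t))))) := by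
        refine avP_mono _ _ (fun t => mul_le_mul_of_nonneg_left
          (Finset.sum_le_sum (fun y _ => e4 t y)) (by positivity))
    _ = avP fun t => (W.kk * W.m / p i * W.N i) *
        avP fun z => avT W (ind (W.Ge i (mx J z t))) := by
        congr 1
        funext t
        rw [Finset.sum_const, Finset.card_univ, Fintype.card_fin, nsmul_eq_mul, ← mul_assoc,
          inv_mul_cancel₀ hpq.ne', one_mul]
        ring
    _ = W.kk * W.m / p i * (W.N i * avP fun x => avT W (ind (W.Ge i x))) := by
        rw [avP_smul, avP_comm, e5]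
        ring
    _ ≤ W.kk * W.m / P * (W.N i * avP fun x => avT W (ind (W.Ge i x))) := by
        refine mul_le_mul_of_nonneg_right ?_ hpos
        exact div_le_div_of_nonneg_left hkm hP (hPp i)
    _ = W.kk * W.m / P * ee W i := rfl

lemma lb_le_ind {W : WD ι p G} (hW : W.Ok) (i : ι) (x : Pos p) (F : G → ℝ)
    (hF : ∀ g, F g ≤ ind (W.Gd i x) g) (g : G) : Lb W i (x i) F g ≤ 1 :=
  (lb_mono W i (x i) F _ hF g).trans (lb_gd hW i x g)

theorem inc {W : WD ι p G} (hW : W.Ok) (hTAB : T_TAB) (P : ℝ) (hP : 0 < P)
    (hPp : ∀ i, P ≤ p i) (q : ι) (l : List ι) : ∀ J : List ι, (J ++ l).Nodup →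
    q ∉ J ++ l → ∀ U : Pos p → Pos p → Fin (p q) → Set G,
    (∀ z t y, ∀ j ∈ l, ∀ κ ∈ W.K j (z j), ∀ g ∈ U z t y, g + κ ∈ U z t y) →
    (∀ z t y g, SL W J t (Lb W q (z q) (ind (U z t y))) g ≤ 1) →
    Nl W J * W.N q * (avP fun z => avP fun t => ((p q : ℝ)⁻¹ * ∑ y, avT W (fun g =>
      ind (U z t y) g * OD W l z (wk W l (mx J z t) t)
        (wk W l (Function.update (mx J z t) q y) t) g))) ≤
      (l.map fun i => W.kk * W.m / P * ee W i).sum := by
  induction l with
  | nil =>
    intro J _ _ U _ _
    have h1 : ∀ z t y, avT W (fun g => ind (U z t y) g * OD W [] z (wk W [] (mx J z t) t)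
        (wk W [] (Function.update (mx J z t) q y) t) g) = 0 := by
      intro z t y
      unfold OD SL avT
      simp
    simp only [h1]
    unfold avP
    simp
  | cons i l ih =>
    intro J hJ hq U hU hS
    have hnd : (i :: l).Nodup := (List.nodup_append.1 hJ).2.1
    have hnd' := List.nodup_cons.1 hnd
    have hdis : ∀ j ∈ J, ∀ j' ∈ i :: l, j ≠ j' := (List.nodup_append.1 hJ).2.2
    have hiJ : i ∉ J := fun h => hdis i h i List.mem_cons_self rfl
    have hqJ : q ∉ J := fun h => hq (List.mem_append_left _ h)
    have hqi : q ≠ i := fun h => hq (List.mem_append_right _ (h ▸ List.mem_cons_self))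
    have hql : q ∉ l := fun h => hq (List.mem_append_right _ (List.mem_cons_of_mem _ h))
    have hlJ : ∀ j ∈ l, j ∉ J := fun j hj h => hdis j h j (List.mem_cons_of_mem _ hj) rfl
    have hfr := inc_fr hW hTAB P hP hPp q i J hqi.symm hiJ hqJ U
      (fun z t y κ hκ g hg => hU z t y i List.mem_cons_self κ hκ g hg) hS
    -- the next history
    let U' : Pos p → Pos p → Fin (p q) → Set G := fun z t y =>
      ((U z t y ∩ W.Gd i (mx (i :: J) z t)) ∩ W.Gd i (mx J z t)) ∩
        (W.Gd i (Function.update (mx J z t) q y) ∩
          W.Gd i (Function.update (mx (i :: J) z t) q y))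
    have hJ' : ((i :: J) ++ l).Nodup := by
      rw [List.cons_append]
      refine List.nodup_cons.2 ⟨?_, ?_⟩
      · intro h
        rcases List.mem_append.1 h with h | h
        · exact hiJ h
        · exact hnd'.1 h
      · exact List.Nodup.append (List.nodup_append.1 hJ).1 hnd'.2
          (fun j hj hjl => hlJ j hjl hj)
    have hq' : q ∉ (i :: J) ++ l := by
      rw [List.cons_append]
      intro h
      rcases List.mem_cons.1 h with h | h
      · exact hqi h
      · rcases List.mem_append.1 h with h | h
        · exact hqJ h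
        · exact hql h
    have hmem : ∀ j ∈ l, j ∉ i :: J := fun j hj h => by
      rcases List.mem_cons.1 h with h | h
      · exact hnd'.1 (h ▸ hj)
      · exact hlJ j hj h
    have hU' : ∀ z t y, ∀ j ∈ l, ∀ κ ∈ W.K j (z j), ∀ g ∈ U' z t y, g + κ ∈ U' z t y := by
      intro z t y j hj κ hκ g hg
      have hij : i ≠ j := fun h => hnd'.1 (h ▸ hj)
      have hjq : j ≠ q := fun h => hql (h ▸ hj)
      have k1 : κ ∈ W.K j (mx J z t j) := by rw [mx_out (hlJ j hj)]; exact hκ
      have k2 : κ ∈ W.K j (mx (i :: J) z t j) := by rw [mx_out (hmem j hj)]; exact hκ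
      have k3 : κ ∈ W.K j (Function.update (mx J z t) q y j) := by
        rw [Function.update_of_ne hjq]; exact k1
      have k4 : κ ∈ W.K j (Function.update (mx (i :: J) z t) q y j) := by
        rw [Function.update_of_ne hjq]; exact k2
      obtain ⟨⟨⟨g1, g2⟩, g3⟩, g4, g5⟩ := hg
      exact ⟨⟨⟨hU z t y j (List.mem_cons_of_mem _ hj) κ hκ g g1, (Gd_iff hW _ hij k2 g).2 g2⟩,
        (Gd_iff hW _ hij k1 g).2 g3⟩, (Gd_iff hW _ hij k3 g).2 g4, (Gd_iff hW _ hij k4 g).2 g5⟩
    have hS' : ∀ z t y g, SL W (i :: J) t (Lb W q (z q) (ind (U' z t y))) g ≤ 1 := by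
      intro z t y g
      rw [slc]
      have k0 : t i = mx (i :: J) z t i := by rw [mx_in List.mem_cons_self]
      rw [k0]
      refine lb_le_ind hW i (mx (i :: J) z t) _ (fun g => ?_) g
      have h1 : ∀ g, ind (U' z t y) g ≤ ind (W.Gd i (mx (i :: J) z t)) g * ind (U z t y) g := by
        intro g
        rw [← ind_inter]
        exact ind_mono (fun h => ⟨h.1.1.2, h.1.1.1⟩)
      have h2 : ∀ g, Lb W q (z q) (ind (U' z t y)) g ≤
          ind (W.Gd i (mx (i :: J) z t)) g * Lb W q (z q) (ind (U z t y)) g := by
        intro g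
        refine (lb_mono W q (z q) _ _ h1 g).trans (le_of_eq ?_)
        refine lb_mulH W q (z q) _ _ (fun κ hκ g => ?_) g
        have k1 : κ ∈ W.K q (mx (i :: J) z t q) := by
          rw [mx_out (fun h => by
            rcases List.mem_cons.1 h with h | h
            · exact hqi h
            · exact hqJ h)]
          exact hκ
        exact ind_congr (Gd_iff hW _ hqi.symm k1 g)
      have h3 : SL W J t (Lb W q (z q) (ind (U' z t y))) g ≤
          ind (W.Gd i (mx (i :: J) z t)) g * SL W J t (Lb W q (z q) (ind (U z t y))) g := by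
        refine (sl_mono W J t _ _ h2 g).trans (le_of_eq ?_)
        refine congrFun (sl_mulH W J t _ _ (fun j hj κ hκ g => ?_)) g
        have hij : i ≠ j := fun h => hiJ (h ▸ hj)
        have k1 : κ ∈ W.K j (mx (i :: J) z t j) := by
          rw [mx_in (List.mem_cons_of_mem _ hj)]
          exact hκ
        exact ind_congr (Gd_iff hW _ hij k1 g)
      refine h3.trans ?_
      have h4 := mul_le_mul_of_nonneg_left (hS z t y g) (ind_nonneg (W.Gd i (mx (i :: J) z t)) g)
      rwa [mul_one] at h4
    have hrec := ih (i :: J) hJ' hq' U' hU' hS'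
    -- one step
    have step : ∀ z t y, avT W (fun g => ind (U z t y) g * OD W (i :: l) z
        (wk W (i :: l) (mx J z t) t) (wk W (i :: l) (Function.update (mx J z t) q y) t) g) ≤
        avT W (fun g => ind (U z t y) g * FR W i (mx J z t)
          (Function.update (mx J z t) q y) g) +
        W.N i * avT W (fun g => ind (U' z t y) g * OD W l z (wk W l (mx (i :: J) z t) t)
          (wk W l (Function.update (mx (i :: J) z t) q y) t) g) := by
      intro z t y
      have hc : ∀ j ∈ i :: l, mx J z t j = z j ∧ Function.update (mx J z t) q y j = z j := by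
        intro j hj
        have h1 : j ∉ J := fun h => hdis j h j hj rfl
        have h2 : j ≠ q := fun h => hq (List.mem_append_right _ (h ▸ hj))
        rw [Function.update_of_ne h2, mx_out h1]
        exact ⟨rfl, rfl⟩
      have e1 : Function.update (mx J z t) i (t i) = mx (i :: J) z t := (mx_cons' hiJ z t).symm
      have e2 : Function.update (Function.update (mx J z t) q y) i (t i) =
          Function.update (mx (i :: J) z t) q y := by
        rw [Function.update_comm hqi, e1]
      have h1 : ∀ g, OD W (i :: l) z (wk W (i :: l) (mx J z t) t)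
          (wk W (i :: l) (Function.update (mx J z t) q y) t) g ≤
          FR W i (mx J z t) (Function.update (mx J z t) q y) g +
          Lb W i (z i) (fun g => ind (W.Gd i (mx J z t)) g * ind (W.Gd i (mx (i :: J) z t)) g *
            (ind (W.Gd i (Function.update (mx J z t) q y)) g *
              ind (W.Gd i (Function.update (mx (i :: J) z t) q y)) g) *
            OD W l z (wk W l (mx (i :: J) z t) t)
              (wk W l (Function.update (mx (i :: J) z t) q y) t) g) g := by
        intro g
        have h2 := pf_ODR ι p G W hW i l hnd z (mx J z t) (Function.update (mx J z t) q y) t t hc g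
        rw [e1, e2] at h2
        exact h2
      have hUi : ∀ g, ∀ κ ∈ W.K i (z i), ind (U z t y) (g + κ) = ind (U z t y) g := by
        intro g κ hκ
        exact ind_congr (mem_tr (hU z t y i List.mem_cons_self κ hκ)
          (hU z t y i List.mem_cons_self (-κ) (hW.Kn i _ κ hκ)) g)
      have h3 := ave_lbH W hW i (z i) (fun g => ind (W.Gd i (mx J z t)) g *
          ind (W.Gd i (mx (i :: J) z t)) g *
            (ind (W.Gd i (Function.update (mx J z t) q y)) g *
              ind (W.Gd i (Function.update (mx (i :: J) z t) q y)) g) *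
            OD W l z (wk W l (mx (i :: J) z t) t)
              (wk W l (Function.update (mx (i :: J) z t) q y) t) g) (ind (U z t y)) hUi
      calc avT W (fun g => ind (U z t y) g * OD W (i :: l) z
          (wk W (i :: l) (mx J z t) t) (wk W (i :: l) (Function.update (mx J z t) q y) t) g) ≤
          avT W (fun g => ind (U z t y) g * FR W i (mx J z t)
            (Function.update (mx J z t) q y) g + ind (U z t y) g *
            Lb W i (z i) (fun g => ind (W.Gd i (mx J z t)) g *
            ind (W.Gd i (mx (i :: J) z t)) g *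
            (ind (W.Gd i (Function.update (mx J z t) q y)) g *
              ind (W.Gd i (Function.update (mx (i :: J) z t) q y)) g) *
            OD W l z (wk W l (mx (i :: J) z t) t)
              (wk W l (Function.update (mx (i :: J) z t) q y) t) g) g) := by
            refine ave_mono W _ _ (fun g => ?_)
            rw [← mul_add]
            exact mul_le_mul_of_nonneg_left (h1 g) (ind_nonneg _ g)
        _ = _ := by
            rw [ave_add, h3]
            congr 2
            refine congrArg (avT W) (funext fun g => ?_)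
            have e3 : ind (U' z t y) g = ind (U z t y) g * ind (W.Gd i (mx (i :: J) z t)) g *
                ind (W.Gd i (mx J z t)) g * (ind (W.Gd i (Function.update (mx J z t) q y)) g *
              ind (W.Gd i (Function.update (mx (i :: J) z t) q y)) g) := by
              rw [← ind_inter, ← ind_inter, ← ind_inter, ← ind_inter]
            rw [e3]
            ring
    rw [List.map_cons, List.sum_cons]
    have hN1 := nl_nonneg hW J
    have hN2 := hW.hN q
    have hpq : (0 : ℝ) ≤ (p q : ℝ)⁻¹ := by positivity
    calc Nl W J * W.N q * (avP fun z => avP fun t => ((p q : ℝ)⁻¹ * ∑ y, avT W (fun g =>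
        ind (U z t y) g * OD W (i :: l) z (wk W (i :: l) (mx J z t) t)
        (wk W (i :: l) (Function.update (mx J z t) q y) t) g))) ≤
        Nl W J * W.N q * (avP fun z => avP fun t => ((p q : ℝ)⁻¹ * ∑ y, (
        avT W (fun g => ind (U z t y) g * FR W i (mx J z t)
          (Function.update (mx J z t) q y) g) +
        W.N i * avT W (fun g => ind (U' z t y) g * OD W l z (wk W l (mx (i :: J) z t) t)
          (wk W l (Function.update (mx (i :: J) z t) q y) t) g)))) := by
          refine mul_le_mul_of_nonneg_left ?_ (mul_nonneg hN1 hN2)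
          exact avP_mono _ _ (fun z => avP_mono _ _ (fun t => mul_le_mul_of_nonneg_left
            (Finset.sum_le_sum (fun y _ => step z t y)) hpq))
      _ = Nl W J * W.N q * (avP fun z => avP fun t => ((p q : ℝ)⁻¹ * ∑ y, avT W (fun g =>
          ind (U z t y) g * FR W i (mx J z t) (Function.update (mx J z t) q y) g))) +
          Nl W (i :: J) * W.N q * (avP fun z => avP fun t => ((p q : ℝ)⁻¹ * ∑ y, avT W (fun g =>
          ind (U' z t y) g * OD W l z (wk W l (mx (i :: J) z t) t)
          (wk W l (Function.update (mx (i :: J) z t) q y) t) g))) := by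
          have e1 : (avP fun z => avP fun t => ((p q : ℝ)⁻¹ * ∑ y, (
            avT W (fun g => ind (U z t y) g * FR W i (mx J z t)
              (Function.update (mx J z t) q y) g) +
            W.N i * avT W (fun g => ind (U' z t y) g * OD W l z (wk W l (mx (i :: J) z t) t)
              (wk W l (Function.update (mx (i :: J) z t) q y) t) g)))) =
            (avP fun z => avP fun t => ((p q : ℝ)⁻¹ * ∑ y, avT W (fun g =>
              ind (U z t y) g * FR W i (mx J z t) (Function.update (mx J z t) q y) g))) +
            W.N i * (avP fun z => avP fun t => ((p q : ℝ)⁻¹ * ∑ y, avT W (fun g =>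
              ind (U' z t y) g * OD W l z (wk W l (mx (i :: J) z t) t)
              (wk W l (Function.update (mx (i :: J) z t) q y) t) g))) := by
            rw [← avP_smul, ← avP_add]
            congr 1
            funext z
            rw [← avP_smul, ← avP_add]
            congr 1
            funext t
            rw [Finset.sum_add_distrib, ← Finset.mul_sum]
            ring
          rw [e1, nl_cons]
          ring
      _ ≤ W.kk * W.m / P * ee W i + (l.map fun i => W.kk * W.m / P * ee W i).sum :=
          add_le_add hfr hrec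

theorem pf_INC : T_INC := by
  intro ι _ _ p G _ W hW P hP hPp q l J hJ hq U hU hS
  exact inc hW pf_TAB P hP hPp q l J hJ hq U hU hS

end Pool.Agent.H26.EW
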