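import Pool.Agent.H26.EWR.ST2

/-!
# Finite worlds of lines: the ladder lemma
-/

set_option autoImplicit false
set_option linter.unusedSectionVars false

open Finset

namespace Pool.Agent.H26.EW

variable {ι : Type} [Fintype ι] [DecidableEq ι] {p : ι → ℕ} {G : Type} [AddCommGroup G]

lemma od_congr (W : WD ι p G) (l : List ι) (x x' : Pos p) (F H : G → ℝ)
    (h : ∀ i ∈ l, x i = x' i) (g : G) : OD W l x F H g = OD W l x' F H g := by
  unfold OD
  rw [sl_congr W l x x' F h, sl_congr W l x x' H h, sl_congr W l x x' (fun g => F g * H g) h]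

lemma for_L {W : WD ι p G} (hW : W.Ok) (q : ι) (x : Pos p) {i : ι} {κ : G} (hκ : κ ∈ W.L i)
    (g : G) : g + κ ∈ For W q x ↔ g ∈ For W q x := by
  have h1 : ∀ a : G, ∀ b ∈ W.L i, a ∈ For W q x → a + b ∈ For W q x := by
    rintro a b hb ⟨c, c1, c2, c3⟩
    refine ⟨c, c1, c2, ?_⟩
    have e : a + b + c = a + c + b := by abel
    rw [e]
    exact (GdL_iff hW x hb (a + c)).2 c3
  refine ⟨fun h => ?_, h1 g κ hκ⟩
  have := h1 (g + κ) (-κ) (hW.Ln i κ hκ) h
  simpa using this

lemma od_mul {W : WD ι p G} (l : List ι) (x : Pos p) (a b F H : G → ℝ)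
    (ha : ∀ i ∈ l, ∀ κ ∈ W.K i (x i), ∀ g, a (g + κ) = a g)
    (hb : ∀ i ∈ l, ∀ κ ∈ W.K i (x i), ∀ g, b (g + κ) = b g) (g : G) :
    OD W l x (fun g => a g * F g) (fun g => b g * H g) g = a g * b g * OD W l x F H g := by
  have f1 := congrFun (sl_mulH W l x F a ha) g
  have f2 := congrFun (sl_mulH W l x H b hb) g
  have f3 := congrFun (sl_mulH W l x (fun g => F g * H g) (fun g => a g * b g)
    (fun i hi κ hκ g => by rw [ha i hi κ hκ g, hb i hi κ hκ g])) g
  have e : (fun g => (a g * F g) * (b g * H g)) = fun g => (a g * b g) * (F g * H g) := by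
    funext g
    ring
  unfold OD
  rw [e, f1, f2, f3]
  ring

theorem lad {W : WD ι p G} (hW : W.Ok) (P v : ℝ) (hP : 0 < P) (hv : 0 < v)
    (hPp : ∀ i, P ≤ p i) (q : ι) (l : List ι) (hl : l.Nodup) (hq : q ∉ l) :
    Nl W l * W.N q * (avP fun z => avP fun t => avP fun s => avT W (fun g =>
      wk W l z t g * ind (W.Gd q z) g * ind (For W q (mx l z s)) g)) ≤
      (W.kk * W.m / P + v) * ee W q + 1 / v * (l.map fun i => W.kk * W.m / P * ee W i).sum := by
  classical
  have hpq : (0 : ℝ) < p q := by exact_mod_cast hW.hp q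
  have hkm : 0 ≤ W.kk * W.m := mul_nonneg hW.hk (le_trans zero_le_one hW.hm)
  have hne : ∀ i ∈ l, i ≠ q := fun i hi h => hq (h ▸ hi)
  have hN := hW.hN q
  have hNl := nl_nonneg hW l
  set c : ℝ := (p q : ℝ)⁻¹ with hc
  have hc0 : 0 < c := by rw [hc]; positivity
  let C : Pos p → Pos p → Fin (p q) → G → ℝ := fun z t y g =>
    ind (W.Gd q (Function.update z q y)) g * wk W l (Function.update z q y) t g
  let f : Pos p → Pos p → Pos p → Fin (p q) → G → ℝ := fun z t s y g =>
    C z t y g * ind (For W q (Function.update (mx l z s) q y)) g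
  have hC0 : ∀ z t y g, 0 ≤ C z t y g := fun z t y g =>
    mul_nonneg (ind_nonneg _ g) (ind_nonneg _ g)
  have hC1 : ∀ z t y g, C z t y g ≤ 1 := fun z t y g => by
    have h1 := mul_le_mul (ind_le_one (W.Gd q (Function.update z q y)) g)
      (ind_le_one {g | Wk W l (Function.update z q y) t g} g) (ind_nonneg _ g) zero_le_one
    rw [mul_one] at h1
    exact h1
  have hf0 : ∀ z t s y g, 0 ≤ f z t s y g ∧ f z t s y g ≤ C z t y g := fun z t s y g =>
    ⟨mul_nonneg (hC0 z t y g) (ind_nonneg _ g), by
      have h1 := mul_le_mul_of_nonneg_left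
        (ind_le_one (For W q (Function.update (mx l z s) q y)) g) (hC0 z t y g)
      rwa [mul_one] at h1⟩
  have hLi : ∀ z t s y, ∀ i ∈ l, ∀ κ ∈ W.L i, ∀ g,
      C z t y (g + κ) = C z t y g ∧ f z t s y (g + κ) = f z t s y g := by
    intro z t s y i hi κ hκ g
    have h1 : C z t y (g + κ) = C z t y g := by
      change ind _ (g + κ) * ind _ (g + κ) = ind _ g * ind _ g
      rw [ind_congr (GdL_iff hW _ hκ g), ind_congr (A := {g | Wk W l (Function.update z q y) t g})
        (B := {g | Wk W l (Function.update z q y) t g}) (wk_Liff hW hκ l _ t g hl)]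
    refine ⟨h1, ?_⟩
    change C z t y (g + κ) * ind _ (g + κ) = C z t y g * ind _ g
    rw [h1, ind_congr (for_L hW q _ hκ g)]
  have hθ : ∀ z t s g, c * ∑ y, f z t s y g ≤ W.kk * W.m / P := by
    intro z t s g
    have h1 : ∑ y, f z t s y g ≤ W.kk * W.m := by
      have h2 : ∑ y, f z t s y g ≤ ∑ y, ind (For W q (Function.update (mx l z s) q y)) g := by
        refine Finset.sum_le_sum (fun y _ => ?_)
        have h3 := mul_le_mul_of_nonneg_right (hC1 z t y g)
          (ind_nonneg (For W q (Function.update (mx l z s) q y)) g)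
        rwa [one_mul] at h3
      have h4 : ∑ y, ind (For W q (Function.update (mx l z s) q y)) g =
          ((Finset.univ.filter (fun y => g ∈ For W q (Function.update (mx l z s) q y))).card : ℝ) := by
        rw [Finset.card_filter, Nat.cast_sum]
        refine Finset.sum_congr rfl (fun y _ => ?_)
        by_cases h : g ∈ For W q (Function.update (mx l z s) q y)
        · rw [ind_pos h, if_pos h, Nat.cast_one]
        · rw [ind_neg h, if_neg h, Nat.cast_zero]
      rw [h4] at h2
      exact h2.trans (st2 hW q (mx l z s) g _ (fun y hy => (Finset.mem_filter.1 hy).2))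
    calc c * ∑ y, f z t s y g ≤ c * (W.kk * W.m) := mul_le_mul_of_nonneg_left h1 hc0.le
      _ = W.kk * W.m / p q := by rw [hc]; ring
      _ ≤ W.kk * W.m / P := div_le_div_of_nonneg_left hkm hP (hPp q)
  have hzi : ∀ (z : Pos p) y, ∀ i ∈ l, Function.update z q y i = z i := fun z y i hi => by
    rw [Function.update_of_ne (hne i hi)]
  have hgd : ∀ (z : Pos p) y, ∀ i ∈ l, ∀ κ ∈ W.K i (z i), ∀ g,
      ind (W.Gd q (Function.update z q y)) (g + κ) = ind (W.Gd q (Function.update z q y)) g := by
    intro z y i hi κ hκ g
    have k : κ ∈ W.K i (Function.update z q y i) := by rw [hzi z y i hi]; exact hκ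
    exact ind_congr (Gd_iff hW _ (hne i hi).symm k g)
  have hA : ∀ z t y g, SL W l z (C z t y) g ≤ ind (W.Ge q z) g := by
    intro z t y g
    have h1 := congrFun (sl_mulH W l z (wk W l (Function.update z q y) t)
      (ind (W.Gd q (Function.update z q y))) (hgd z y)) g
    change SL W l z (fun g => ind (W.Gd q (Function.update z q y)) g *
      wk W l (Function.update z q y) t g) g ≤ _
    rw [h1, sl_congr W l z (Function.update z q y) _ (fun i hi => (hzi z y i hi).symm)]
    have h2 := (sl_wk hW l (Function.update z q y) t g hl).2.trans (ind_le_one _ g)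
    have h3 := mul_le_mul_of_nonneg_left h2 (ind_nonneg (W.Gd q (Function.update z q y)) g)
    rw [mul_one] at h3
    refine h3.trans (ind_mono (fun h => ?_))
    have h4 := hW.GdGe q _ h
    rwa [hW.Gepos q z y] at h4
  have hstc : ∀ z t s, Nl W l * avT W (fun g => c * ∑ y, f z t s y g) ≤
      (W.kk * W.m / P + v) * avT W (ind (W.Ge q z)) +
      1 / v * (c * (c * ∑ y, ∑ y', avT W (OD W l z (C z t y) (C z t y')))) := by
    intro z t s
    rw [← ave_sl W hW l z]
    have h1 := fun g => pf_STC ι p G W hW q l hl z (C z t) (f z t s) v (W.kk * W.m / P) hv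
      (div_nonneg hkm hP.le) (hf0 z t s) (hLi z t s) (hθ z t s) (W.Ge q z) (hA z t) g
    refine (ave_mono W _ _ h1).trans (le_of_eq ?_)
    rw [ave_add, ave_smul, ave_smul, ave_smul, ave_smul, ave_sum]
    congr 4
    refine Finset.sum_congr rfl (fun y _ => ?_)
    rw [ave_sum]
  -- the left side
  have hleft : Nl W l * W.N q * (avP fun z => avP fun t => avP fun s => avT W (fun g =>
      wk W l z t g * ind (W.Gd q z) g * ind (For W q (mx l z s)) g)) =
      W.N q * (avP fun z => avP fun t => avP fun s => (Nl W l *
        avT W (fun g => c * ∑ y, f z t s y g))) := by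
    rw [ave_upd W hW q (fun z => avP fun t => avP fun s => avT W (fun g =>
      wk W l z t g * ind (W.Gd q z) g * ind (For W q (mx l z s)) g))]
    have h1 : ∀ z : Pos p, c * ∑ y, (avP fun t => avP fun s => avT W (fun g =>
        wk W l (Function.update z q y) t g * ind (W.Gd q (Function.update z q y)) g *
        ind (For W q (mx l (Function.update z q y) s)) g)) =
        avP fun t => avP fun s => avT W (fun g => c * ∑ y, f z t s y g) := by
      intro z
      rw [← avP_sum, ← avP_smul]
      congr 1
      funext t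
      rw [← avP_sum, ← avP_smul]
      congr 1
      funext s
      rw [ave_smul, ave_sum]
      congr 1
      refine Finset.sum_congr rfl (fun y _ => ?_)
      congr 1
      funext g
      rw [mx_upd_out hq]
      change _ = ind _ g * wk W l _ t g * ind _ g
      ring
    have h2 : (avP fun z : Pos p => c * ∑ y, (avP fun t => avP fun s => avT W (fun g =>
        wk W l (Function.update z q y) t g * ind (W.Gd q (Function.update z q y)) g *
        ind (For W q (mx l (Function.update z q y) s)) g))) =
        avP fun z => avP fun t => avP fun s => avT W (fun g => c * ∑ y, f z t s y g) := by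
      congr 1
      funext z
      exact h1 z
    rw [h2]
    have h3 : (avP fun z => avP fun t => avP fun s => (Nl W l *
        avT W (fun g => c * ∑ y, f z t s y g))) = Nl W l * avP fun z => avP fun t => avP fun s =>
        avT W (fun g => c * ∑ y, f z t s y g) := by
      rw [← avP_smul]
      congr 1
      funext z
      rw [← avP_smul]
      congr 1
      funext t
      rw [← avP_smul]
    rw [h3]
    ring
  -- the incidence lemma
  have hincl : W.N q * (avP fun z => avP fun t => c * (c * ∑ y, ∑ y',
      avT W (OD W l z (C z t y) (C z t y')))) ≤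
      (l.map fun i => W.kk * W.m / P * ee W i).sum := by
    have h1 := pf_INC ι p G W hW P hP hPp q l [] (by simpa using hl) (by simpa using hq)
      (fun z _ y => W.Gd q z ∩ W.Gd q (Function.update z q y)) ?_ ?_
    · refine le_trans (le_of_eq ?_) h1
      have e1 : Nl W ([] : List ι) = 1 := by simp [Nl]
      rw [e1, one_mul, ave_upd W hW q (fun z => avP fun t => ((p q : ℝ)⁻¹ * ∑ y, avT W (fun g =>
        ind (W.Gd q z ∩ W.Gd q (Function.update z q y)) g * OD W l z (wk W l (mx [] z t) t)
        (wk W l (Function.update (mx [] z t) q y) t) g)))]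
      congr 2
      funext z
      rw [← hc, ← avP_sum, ← avP_smul]
      congr 1
      funext t
      rw [← Finset.mul_sum]
      congr 2
      refine Finset.sum_congr rfl (fun y _ => Finset.sum_congr rfl (fun y' _ => ?_))
      congr 1
      funext g
      rw [mx_nil, Function.update_idem, ind_inter]
      rw [od_congr W l (Function.update z q y) z _ _ (hzi z y)]
      exact od_mul l z _ _ _ _ (hgd z y) (hgd z y') g
    · intro z t y j hj κ hκ g hg
      have hjq := hne j hj
      refine ⟨(Gd_iff hW z hjq.symm hκ g).2 hg.1, ?_⟩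
      have k : κ ∈ W.K j (Function.update z q y j) := by rw [hzi z y j hj]; exact hκ
      exact (Gd_iff hW _ hjq.symm k g).2 hg.2
    · intro z t y g
      exact lb_le_ind hW q z _ (fun g => ind_mono (fun h => h.1)) g
  rw [hleft]
  calc W.N q * (avP fun z => avP fun t => avP fun s => (Nl W l *
        avT W (fun g => c * ∑ y, f z t s y g))) ≤
      W.N q * (avP fun z => avP fun t => avP fun _s : Pos p =>
        ((W.kk * W.m / P + v) * avT W (ind (W.Ge q z)) +
      1 / v * (c * (c * ∑ y, ∑ y', avT W (OD W l z (C z t y) (C z t y')))))) := by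
        refine mul_le_mul_of_nonneg_left ?_ hN
        exact avP_mono _ _ (fun z => avP_mono _ _ (fun t => avP_mono _ _ (fun s => hstc z t s)))
    _ = (W.kk * W.m / P + v) * ee W q + 1 / v * (W.N q * (avP fun z => avP fun t =>
        c * (c * ∑ y, ∑ y', avT W (OD W l z (C z t y) (C z t y'))))) := by
        have e1 : (avP fun z => avP fun t => avP fun _s : Pos p =>
          ((W.kk * W.m / P + v) * avT W (ind (W.Ge q z)) +
          1 / v * (c * (c * ∑ y, ∑ y', avT W (OD W l z (C z t y) (C z t y')))))) =
          (W.kk * W.m / P + v) * (avP fun z => avT W (ind (W.Ge q z))) +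
          1 / v * (avP fun z => avP fun t =>
          c * (c * ∑ y, ∑ y', avT W (OD W l z (C z t y) (C z t y')))) := by
          rw [← avP_smul, ← avP_smul, ← avP_add]
          congr 1
          funext z
          have e2 : (fun t => avP fun _s : Pos p =>
            ((W.kk * W.m / P + v) * avT W (ind (W.Ge q z)) +
            1 / v * (c * (c * ∑ y, ∑ y', avT W (OD W l z (C z t y) (C z t y')))))) =
            fun t => (W.kk * W.m / P + v) * avT W (ind (W.Ge q z)) +
            1 / v * (c * (c * ∑ y, ∑ y', avT W (OD W l z (C z t y) (C z t y')))) := by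
            funext t
            exact avP_const W hW _
          rw [e2, avP_add, avP_const W hW, avP_smul]
        rw [e1]
        unfold ee
        ring
    _ ≤ _ := by
        refine add_le_add (le_refl _) ?_
        exact mul_le_mul_of_nonneg_left hincl (by positivity)

theorem pf_LAD : T_LAD := by
  intro ι _ _ p G _ W hW P v hP hv hPp q l hl hq
  exact lad hW P v hP hv hPp q l hl hq

end Pool.Agent.H26.EW
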