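import Pool.Agent.H26.EWR.DRP

/-!
# Finite worlds of lines: the part with different labels
-/

set_option autoImplicit false
set_option linter.unusedSectionVars false

open Finset

namespace Pool.Agent.H26.EW

variable {ι : Type} [Fintype ι] [DecidableEq ι] {p : ι → ℕ} {G : Type} [AddCommGroup G]

open Classical in
/-- pairs with different labels -/
noncomputable def OP (W : WD ι p G) (i : ι) (r : Fin (p i)) (A B : G → ℝ) (g : G) : ℝ :=
  (((W.L i).card : ℝ)⁻¹) ^ 2 * ∑ κ ∈ W.K i r, ∑ κ' ∈ W.K i r,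
    if κ' - κ ∈ W.L i then 0 else A (g + κ) * B (g + κ')

lemma fr_eq (W : WD ι p G) (i : ι) (c₁ c₂ : Pos p) (g : G) :
    FR W i c₁ c₂ g = OP W i (c₁ i) (ind (W.Gd i c₁)) (ind (W.Gd i c₂)) g := rfl

lemma op_mono (W : WD ι p G) (i : ι) (r : Fin (p i)) (A A' B B' : G → ℝ)
    (hA : ∀ g, 0 ≤ A g ∧ A g ≤ A' g) (hB : ∀ g, 0 ≤ B g ∧ B g ≤ B' g) (g : G) :
    0 ≤ OP W i r A B g ∧ OP W i r A B g ≤ OP W i r A' B' g := by
  classical
  unfold OP
  refine ⟨?_, ?_⟩
  · refine mul_nonneg (by positivity) (Finset.sum_nonneg (fun κ _ => Finset.sum_nonneg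
      (fun κ' _ => ?_)))
    split_ifs
    · exact le_refl _
    · exact mul_nonneg (hA _).1 (hB _).1
  · refine mul_le_mul_of_nonneg_left (Finset.sum_le_sum (fun κ _ => Finset.sum_le_sum
      (fun κ' _ => ?_))) (by positivity)
    split_ifs
    · exact le_refl _
    · exact mul_le_mul (hA _).2 (hB _).2 (hB _).1 ((hA _).1.trans (hA _).2)

lemma op_eq {W : WD ι p G} (hW : W.Ok) (i : ι) (r : Fin (p i)) (A B : G → ℝ)
    (hB : ∀ g, ∀ κ ∈ W.L i, B (g + κ) = B g) (g : G) :
    Lb W i r A g * Lb W i r B g = Lb W i r (fun g => A g * B g) g + OP W i r A B g := by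
  classical
  have h0 := L_pos W hW i
  have key : ∀ κ ∈ W.K i r, ∑ κ' ∈ W.K i r, (if κ' - κ ∈ W.L i then A (g + κ) * B (g + κ') else 0) =
      ((W.L i).card : ℝ) * (A (g + κ) * B (g + κ)) := by
    intro κ hκ
    rw [← Finset.sum_filter]
    have h1 : ∀ κ' ∈ (W.K i r).filter (fun κ' => κ' - κ ∈ W.L i), A (g + κ) * B (g + κ') =
        A (g + κ) * B (g + κ) := by
      intro κ' hκ'
      rw [Finset.mem_filter] at hκ'
      have e : g + κ' = (g + κ) + (κ' - κ) := by abel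
      rw [e, hB (g + κ) _ hκ'.2]
    rw [Finset.sum_congr rfl h1, Finset.sum_const, nsmul_eq_mul]
    congr 1
    have h2 : ((W.K i r).filter (fun κ' => κ' - κ ∈ W.L i)).card = (W.L i).card := by
      refine Finset.card_bij' (fun κ' _ => κ' - κ) (fun a _ => κ + a) ?_ ?_ ?_ ?_
      · intro κ' hκ'
        rw [Finset.mem_filter] at hκ'
        exact hκ'.2
      · intro a ha
        rw [Finset.mem_filter]
        refine ⟨hW.Ka i r κ hκ a (hW.LK i r ha), ?_⟩
        rwa [add_sub_cancel_left]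
      · intro κ' _
        abel
      · intro a _
        abel
    rw [h2]
  have e1 : Lb W i r A g * Lb W i r B g =
      (((W.L i).card : ℝ)⁻¹) ^ 2 * ∑ κ ∈ W.K i r, ∑ κ' ∈ W.K i r, A (g + κ) * B (g + κ') := by
    unfold Lb
    rw [← Finset.sum_mul_sum]
    ring
  have e2 : ∑ κ ∈ W.K i r, ∑ κ' ∈ W.K i r, A (g + κ) * B (g + κ') =
      (∑ κ ∈ W.K i r, ∑ κ' ∈ W.K i r, (if κ' - κ ∈ W.L i then A (g + κ) * B (g + κ') else 0)) +
      ∑ κ ∈ W.K i r, ∑ κ' ∈ W.K i r, (if κ' - κ ∈ W.L i then 0 else A (g + κ) * B (g + κ')) := by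
    rw [← Finset.sum_add_distrib]
    refine Finset.sum_congr rfl (fun κ _ => ?_)
    rw [← Finset.sum_add_distrib]
    refine Finset.sum_congr rfl (fun κ' _ => ?_)
    split_ifs <;> ring
  rw [e1, e2, Finset.sum_congr rfl key, ← Finset.mul_sum]
  unfold Lb OP
  rw [mul_add]
  congr 1
  field_simp

lemma sl_L (W : WD ι p G) (l : List ι) (x : Pos p) (H : G → ℝ) (a : G)
    (hH : ∀ g, H (g + a) = H g) (g : G) : SL W l x H (g + a) = SL W l x H g := by
  have h1 := congrFun (sl_tr W l x H a) g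
  have h2 : (fun g => H (g + a)) = H := funext hH
  rw [h2] at h1
  exact h1.symm

lemma od_cons {W : WD ι p G} (hW : W.Ok) (i : ι) (l : List ι) (x : Pos p) (F H : G → ℝ)
    (hH : ∀ κ ∈ W.L i, ∀ g, H (g + κ) = H g) (g : G) :
    OD W (i :: l) x F H g = OP W i (x i) (SL W l x F) (SL W l x H) g +
      Lb W i (x i) (OD W l x F H) g := by
  have h1 := op_eq hW i (x i) (SL W l x F) (SL W l x H)
    (fun g κ hκ => sl_L W l x H κ (hH κ hκ) g) g
  have h2 : Lb W i (x i) (OD W l x F H) g =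
      Lb W i (x i) (fun g => SL W l x F g * SL W l x H g) g -
      Lb W i (x i) (SL W l x (fun g => F g * H g)) g := by
    have e : OD W l x F H = fun g => (fun g => SL W l x F g * SL W l x H g) g +
        (fun g => (-1) * SL W l x (fun g => F g * H g) g) g := by
      funext g
      unfold OD
      ring
    rw [e, lb_add, lb_smul]
    ring
  have h3 : OD W (i :: l) x F H g = Lb W i (x i) (SL W l x F) g * Lb W i (x i) (SL W l x H) g -
      Lb W i (x i) (SL W l x (fun g => F g * H g)) g := rfl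
  rw [h3, h1, h2]
  ring

lemma od_mono {W : WD ι p G} (hW : W.Ok) (x : Pos p) (F F' H H' : G → ℝ)
    (hF : ∀ g, 0 ≤ F g ∧ F g ≤ F' g) (hHH : ∀ g, 0 ≤ H g ∧ H g ≤ H' g) (l : List ι) :
    (∀ i ∈ l, ∀ κ ∈ W.L i, ∀ g, H (g + κ) = H g ∧ H' (g + κ) = H' g) →
    ∀ g, 0 ≤ OD W l x F H g ∧ OD W l x F H g ≤ OD W l x F' H' g := by
  induction l with
  | nil =>
    intro _ g
    unfold OD SL
    simp
  | cons i l ih =>
    intro h g
    have h1 := ih (fun j hj => h j (List.mem_cons_of_mem _ hj))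
    have h2 := h i List.mem_cons_self
    rw [od_cons hW i l x F H (fun κ hκ g => (h2 κ hκ g).1),
      od_cons hW i l x F' H' (fun κ hκ g => (h2 κ hκ g).2)]
    have h3 := op_mono W i (x i) (SL W l x F) (SL W l x F') (SL W l x H) (SL W l x H')
      (fun g => ⟨sl_nonneg W l x F (fun g => (hF g).1) g, sl_mono W l x F F' (fun g => (hF g).2) g⟩)
      (fun g => ⟨sl_nonneg W l x H (fun g => (hHH g).1) g,
        sl_mono W l x H H' (fun g => (hHH g).2) g⟩) g
    have h4 := lb_nonneg W i (x i) (OD W l x F H) (fun g => (h1 g).1) g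
    have h5 := lb_mono W i (x i) (OD W l x F H) (OD W l x F' H') (fun g => (h1 g).2) g
    exact ⟨add_nonneg h3.1 h4, add_le_add h3.2 h5⟩

theorem pf_ODM : T_ODM := by
  intro ι _ _ p G _ W hW l _ x F F' H H' hF hH h g
  exact od_mono hW x F F' H H' hF hH l (fun i hi κ hκ g => ⟨(h i hi κ hκ g).2.2.1,
    (h i hi κ hκ g).2.2.2⟩) g

end Pool.Agent.H26.EW
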