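import Pool.Agent.H26.EWR.ODM

/-!
# Finite worlds of lines: one step of two walks
-/

set_option autoImplicit false
set_option linter.unusedSectionVars false

open Finset

namespace Pool.Agent.H26.EW

variable {ι : Type} [Fintype ι] [DecidableEq ι] {p : ι → ℕ} {G : Type} [AddCommGroup G]

lemma lb_congr (W : WD ι p G) (i : ι) (r : Fin (p i)) {F H : G → ℝ} (h : ∀ g, F g = H g) (g : G) :
    Lb W i r F g = Lb W i r H g := by
  rw [funext h]

/-- the two steps are invariant under the labels of the other primes -/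
lemma gd2_inv {W : WD ι p G} (hW : W.Ok) (i : ι) (l : List ι) (hl : (i :: l).Nodup)
    (x c t : Pos p) (hc : ∀ j ∈ i :: l, c j = x j) (j : ι) (hj : j ∈ l) (κ : G)
    (hκ : κ ∈ W.K j (x j)) (g : G) :
    ind (W.Gd i c) (g + κ) * ind (W.Gd i (Function.update c i (t i))) (g + κ) =
      ind (W.Gd i c) g * ind (W.Gd i (Function.update c i (t i))) g := by
  have hl' := List.nodup_cons.1 hl
  have hij : i ≠ j := fun h => hl'.1 (h ▸ hj)
  have h1 : κ ∈ W.K j (c j) := by rw [hc j (List.mem_cons_of_mem _ hj)]; exact hκ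
  have h2 : κ ∈ W.K j (Function.update c i (t i) j) := by
    rw [Function.update_of_ne hij.symm]
    exact h1
  rw [ind_congr (Gd_iff hW c hij h1 g), ind_congr (Gd_iff hW _ hij h2 g)]

lemma od_step {W : WD ι p G} (hW : W.Ok) (i : ι) (l : List ι) (hl : (i :: l).Nodup)
    (x c₁ c₂ t₁ t₂ : Pos p) (hc : ∀ j ∈ i :: l, c₁ j = x j ∧ c₂ j = x j) (g : G) :
    OD W l x (wk W (i :: l) c₁ t₁) (wk W (i :: l) c₂ t₂) g =
      ind (W.Gd i c₁) g * ind (W.Gd i (Function.update c₁ i (t₁ i))) g *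
        (ind (W.Gd i c₂) g * ind (W.Gd i (Function.update c₂ i (t₂ i))) g) *
        OD W l x (wk W l (Function.update c₁ i (t₁ i)) t₁)
          (wk W l (Function.update c₂ i (t₂ i)) t₂) g := by
  have hA := fun j hj κ hκ g => gd2_inv hW i l hl x c₁ t₁ (fun j hj => (hc j hj).1) j hj κ hκ g
  have hB := fun j hj κ hκ g => gd2_inv hW i l hl x c₂ t₂ (fun j hj => (hc j hj).2) j hj κ hκ g
  have e1 : wk W (i :: l) c₁ t₁ = fun g => (ind (W.Gd i c₁) g *
      ind (W.Gd i (Function.update c₁ i (t₁ i))) g) * wk W l (Function.update c₁ i (t₁ i)) t₁ g := by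
    rw [wk_cons]
    funext g
    ring
  have e2 : wk W (i :: l) c₂ t₂ = fun g => (ind (W.Gd i c₂) g *
      ind (W.Gd i (Function.update c₂ i (t₂ i))) g) * wk W l (Function.update c₂ i (t₂ i)) t₂ g := by
    rw [wk_cons]
    funext g
    ring
  have e3 : (fun g => wk W (i :: l) c₁ t₁ g * wk W (i :: l) c₂ t₂ g) = fun g =>
      ((ind (W.Gd i c₁) g * ind (W.Gd i (Function.update c₁ i (t₁ i))) g) *
      (ind (W.Gd i c₂) g * ind (W.Gd i (Function.update c₂ i (t₂ i))) g)) *
      (wk W l (Function.update c₁ i (t₁ i)) t₁ g * wk W l (Function.update c₂ i (t₂ i)) t₂ g) := by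
    rw [e1, e2]
    funext g
    ring
  have f1 := congrFun (sl_mulH W l x (wk W l (Function.update c₁ i (t₁ i)) t₁) (fun g =>
    ind (W.Gd i c₁) g * ind (W.Gd i (Function.update c₁ i (t₁ i))) g) hA) g
  have f2 := congrFun (sl_mulH W l x (wk W l (Function.update c₂ i (t₂ i)) t₂) (fun g =>
    ind (W.Gd i c₂) g * ind (W.Gd i (Function.update c₂ i (t₂ i))) g) hB) g
  have f3 := congrFun (sl_mulH W l x (fun g => wk W l (Function.update c₁ i (t₁ i)) t₁ g *
    wk W l (Function.update c₂ i (t₂ i)) t₂ g) (fun g => (ind (W.Gd i c₁) g *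
      ind (W.Gd i (Function.update c₁ i (t₁ i))) g) * (ind (W.Gd i c₂) g *
      ind (W.Gd i (Function.update c₂ i (t₂ i))) g)) (fun j hj κ hκ g => by
        change (ind (W.Gd i c₁) (g + κ) * ind (W.Gd i (Function.update c₁ i (t₁ i))) (g + κ)) *
          (ind (W.Gd i c₂) (g + κ) * ind (W.Gd i (Function.update c₂ i (t₂ i))) (g + κ)) = _
        rw [hA j hj κ hκ g, hB j hj κ hκ g])) g
  unfold OD
  rw [e3, f3, e1, e2, f1, f2]
  ring

theorem pf_ODR : T_ODR := by
  intro ι _ _ p G _ W hW i l hl x c₁ c₂ t₁ t₂ hc g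
  have hl' := List.nodup_cons.1 hl
  have hL : ∀ κ ∈ W.L i, ∀ g, wk W (i :: l) c₂ t₂ (g + κ) = wk W (i :: l) c₂ t₂ g := by
    intro κ hκ g
    exact ind_congr (wk_Liff hW hκ (i :: l) c₂ t₂ g hl)
  rw [od_cons hW i l x _ _ hL]
  have hb : ∀ (c t : Pos p), (∀ j ∈ i :: l, c j = x j) → ∀ g,
      0 ≤ SL W l x (wk W (i :: l) c t) g ∧
      SL W l x (wk W (i :: l) c t) g ≤ ind (W.Gd i c) g := by
    intro c t hct g
    refine ⟨sl_nonneg W l x _ (fun g => ind_nonneg _ g) g, ?_⟩
    rw [sl_congr W l x c _ (fun j hj => (hct j (List.mem_cons_of_mem _ hj)).symm),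
      sl_wk_cons hW i l hl c t]
    have h1 := sl_wk hW l (Function.update c i (t i)) t g hl'.2
    have h2 := h1.2.trans (ind_le_one _ g)
    have h3 := ind_nonneg (W.Gd i c) g
    have h5 := ind_le_one (W.Gd i (Function.update c i (t i))) g
    calc ind (W.Gd i c) g * (ind (W.Gd i (Function.update c i (t i))) g *
        SL W l (Function.update c i (t i)) (wk W l (Function.update c i (t i)) t) g) ≤
        ind (W.Gd i c) g * (1 * 1) := by
          refine mul_le_mul_of_nonneg_left ?_ h3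
          exact mul_le_mul h5 h2 h1.1 zero_le_one
      _ = ind (W.Gd i c) g := by ring
  refine add_le_add ?_ (le_of_eq ?_)
  · rw [fr_eq, (hc i List.mem_cons_self).1]
    exact (op_mono W i (x i) _ _ _ _ (hb c₁ t₁ (fun j hj => (hc j hj).1))
      (hb c₂ t₂ (fun j hj => (hc j hj).2)) g).2
  · exact lb_congr W i (x i) (fun g => od_step hW i l hl x c₁ c₂ t₁ t₂ hc g) g

end Pool.Agent.H26.EW
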