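import Pool.Agent.H26.EWR.VPR

/-!
# Finite worlds of lines: the operator of one step
-/

set_option autoImplicit false
set_option linter.unusedSectionVars false

open Finset

namespace Pool.Agent.H26.EW

variable {ι : Type} [Fintype ι] [DecidableEq ι] {p : ι → ℕ} {G : Type} [AddCommGroup G]

lemma lb_K {W : WD ι p G} (hW : W.Ok) (i : ι) (r : Fin (p i)) (F : G → ℝ) (κ : G)
    (hκ : κ ∈ W.K i r) (g : G) : Lb W i r F (g + κ) = Lb W i r F g := by
  unfold Lb
  congr 1
  refine Finset.sum_nbij' (fun a => κ + a) (fun a => a - κ) ?_ ?_ ?_ ?_ ?_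
  · intro a ha
    exact hW.Ka i r κ hκ a ha
  · intro a ha
    rw [sub_eq_add_neg]
    exact hW.Ka i r a ha _ (hW.Kn i r κ hκ)
  · intro a _
    abel
  · intro a _
    abel
  · intro a _
    rw [add_assoc]

lemma tt_st {W : WD ι p G} (hW : W.Ok) (i : ι) (F : Pos p → G → ℝ) (hF : St W F) :
    St W (TT W i F) := by
  intro x j κ hκ g
  by_cases hij : j = i
  · subst hij
    exact lb_K hW j (x j) _ κ hκ g
  · unfold TT
    have h1 := congrFun (lb_tr W i (x i) (fun g => ind (W.Gd i x) g * ((p i : ℝ)⁻¹ *
      ∑ r : Fin (p i), ind (W.Gd i (Function.update x i r)) g *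
      F (Function.update x i r) g)) κ) g
    rw [← h1]
    refine lb_congr W i (x i) (fun g => ?_) g
    rw [ind_congr (Gd_iff hW x (Ne.symm hij) hκ g)]
    congr 2
    refine Finset.sum_congr rfl (fun r _ => ?_)
    have k : κ ∈ W.K j (Function.update x i r j) := by
      rw [Function.update_of_ne hij]
      exact hκ
    rw [ind_congr (Gd_iff hW _ (Ne.symm hij) k g), hF _ j κ k g]

/-- symmetric reindexing of the steps -/
lemma avP_swap (i : ι) (Φ : Pos p → Pos p → ℝ) :
    (avP fun x => ∑ r : Fin (p i), Φ x (Function.update x i r)) =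
    avP fun x => ∑ r : Fin (p i), Φ (Function.update x i r) x := by
  unfold avP
  congr 1
  rw [← Finset.sum_product', ← Finset.sum_product', Finset.univ_product_univ]
  let e : (Pos p × Fin (p i)) ≃ (Pos p × Fin (p i)) :=
    { toFun := fun a => (Function.update a.1 i a.2, a.1 i)
      invFun := fun a => (Function.update a.1 i a.2, a.1 i)
      left_inv := by
        intro a
        ext1
        · simp
        · simp
      right_inv := by
        intro a
        ext1
        · simp
        · simp }
  refine Fintype.sum_equiv e _ (fun a => Φ (Function.update a.1 i a.2) a.1) (fun a => ?_)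
  change _ = Φ (Function.update (Function.update a.1 i a.2) i (a.1 i)) (Function.update a.1 i a.2)
  rw [Function.update_idem, Function.update_eq_self]

lemma ip_tt {W : WD ι p G} (hW : W.Ok) (i : ι) (F H : Pos p → G → ℝ) (hH : St W H) :
    ip W H (TT W i F) = W.N i * ((p i : ℝ)⁻¹ * avP fun x => ∑ r : Fin (p i), avT W (fun g =>
      H x g * ind (W.Gd i x) g * (ind (W.Gd i (Function.update x i r)) g *
        F (Function.update x i r) g))) := by
  unfold ip
  rw [← avP_smul, ← avP_smul]
  congr 1
  funext x
  have h1 := ave_lbH W hW i (x i) (fun g => ind (W.Gd i x) g * ((p i : ℝ)⁻¹ *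
      ∑ r : Fin (p i), ind (W.Gd i (Function.update x i r)) g *
      F (Function.update x i r) g)) (H x) (fun g κ hκ => hH x i κ hκ g)
  have h2 : avT W (fun g => H x g * TT W i F x g) = avT W (fun g => H x g *
      Lb W i (x i) (fun g => ind (W.Gd i x) g * ((p i : ℝ)⁻¹ *
      ∑ r : Fin (p i), ind (W.Gd i (Function.update x i r)) g *
      F (Function.update x i r) g)) g) := rfl
  rw [h2, h1]
  congr 1
  rw [← ave_sum, ← ave_smul]
  congr 1
  funext g
  rw [← Finset.mul_sum]
  ring

lemma ip_sym {W : WD ι p G} (hW : W.Ok) (i : ι) (F H : Pos p → G → ℝ) (hF : St W F)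
    (hH : St W H) : ip W H (TT W i F) = ip W (TT W i H) F := by
  have h0 : ip W (TT W i H) F = ip W F (TT W i H) := by
    unfold ip
    congr 1
    funext x
    congr 1
    funext g
    ring
  rw [h0, ip_tt hW i F H hH, ip_tt hW i H F hF]
  congr 2
  rw [avP_swap i (fun x x' => avT W (fun g => H x g * ind (W.Gd i x) g *
    (ind (W.Gd i x') g * F x' g)))]
  congr 1
  funext x
  refine Finset.sum_congr rfl (fun r _ => ?_)
  congr 1
  funext g
  ring

lemma tt_le {W : WD ι p G} (hW : W.Ok) (i : ι) (F : Pos p → G → ℝ)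
    (hF : ∀ x g, 0 ≤ F x g ∧ F x g ≤ ind (W.V x) g) (x : Pos p) (g : G) :
    0 ≤ TT W i F x g ∧ TT W i F x g ≤ ind (W.V x) g := by
  have hp : (0 : ℝ) < p i := by exact_mod_cast hW.hp i
  have h0 : ∀ x g, 0 ≤ (p i : ℝ)⁻¹ * ∑ r : Fin (p i), ind (W.Gd i (Function.update x i r)) g *
      F (Function.update x i r) g := fun x g =>
    mul_nonneg (by positivity) (Finset.sum_nonneg (fun r _ =>
      mul_nonneg (ind_nonneg _ g) (hF _ g).1))
  have h1 : ∀ x g, (p i : ℝ)⁻¹ * ∑ r : Fin (p i), ind (W.Gd i (Function.update x i r)) g *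
      F (Function.update x i r) g ≤ 1 := by
    intro x g
    rw [inv_mul_le_iff₀ hp, mul_one]
    calc ∑ r : Fin (p i), ind (W.Gd i (Function.update x i r)) g *
        F (Function.update x i r) g ≤ ∑ _r : Fin (p i), (1 : ℝ) := by
          refine Finset.sum_le_sum (fun r _ => ?_)
          have h2 := mul_le_mul (ind_le_one (W.Gd i (Function.update x i r)) g)
            ((hF (Function.update x i r) g).2.trans (ind_le_one _ g)) (hF _ g).1 zero_le_one
          rwa [mul_one] at h2
      _ = (p i : ℝ) := by
          rw [Finset.sum_const, Finset.card_univ, Fintype.card_fin, nsmul_eq_mul, mul_one]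
  refine ⟨?_, ?_⟩
  · unfold TT
    exact lb_nonneg W i (x i) _ (fun g => mul_nonneg (ind_nonneg _ g) (h0 x g)) g
  · unfold TT
    refine (lb_mono W i (x i) _ (ind (W.Gd i x)) (fun g => ?_) g).trans (lb_gd_V hW i x g)
    have h2 := mul_le_mul_of_nonneg_left (h1 x g) (ind_nonneg (W.Gd i x) g)
    rwa [mul_one] at h2

lemma tt_lin (W : WD ι p G) (i : ι) (F H : Pos p → G → ℝ) (c : ℝ) :
    TT W i (fun x g => F x g + c * H x g) = fun x g => TT W i F x g + c * TT W i H x g := by
  funext x g
  unfold TT
  rw [← lb_smul, ← lb_add]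
  refine lb_congr W i (x i) (fun g => ?_) g
  have h1 : ∑ r : Fin (p i), ind (W.Gd i (Function.update x i r)) g *
      (F (Function.update x i r) g + c * H (Function.update x i r) g) =
      (∑ r : Fin (p i), ind (W.Gd i (Function.update x i r)) g * F (Function.update x i r) g) +
      c * ∑ r : Fin (p i), ind (W.Gd i (Function.update x i r)) g *
        H (Function.update x i r) g := by
    rw [Finset.mul_sum, ← Finset.sum_add_distrib]
    refine Finset.sum_congr rfl (fun r _ => ?_)
    ring
  rw [h1]
  ring

theorem pf_OPR : T_OPR := by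
  intro ι _ _ p G _ W hW
  exact ⟨fun i F hF => tt_st hW i F hF, fun i F H hF hH => ip_sym hW i F H hF hH,
    fun i F hF x g => tt_le hW i F hF x g, fun i F H c => tt_lin W i F H c⟩

lemma st_V {W : WD ι p G} (hW : W.Ok) : St W (fun x => ind (W.V x)) := by
  intro x i κ hκ g
  exact ind_congr (V_iff hW x i hκ g)

lemma tl_cons (W : WD ι p G) (i : ι) (l : List ι) : TL W (i :: l) = TT W i (TL W l) := rfl

lemma tl_st {W : WD ι p G} (hW : W.Ok) (l : List ι) : St W (TL W l) := by
  induction l with
  | nil => exact st_V hW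
  | cons i l ih =>
    rw [tl_cons]
    exact tt_st hW i _ ih

lemma tl_le {W : WD ι p G} (hW : W.Ok) (l : List ι) :
    ∀ x g, 0 ≤ TL W l x g ∧ TL W l x g ≤ ind (W.V x) g := by
  induction l with
  | nil => exact fun x g => ⟨ind_nonneg _ g, le_refl _⟩
  | cons i l ih =>
    intro x g
    rw [tl_cons]
    exact tt_le hW i _ ih x g

lemma tl_wk {W : WD ι p G} (hW : W.Ok) (l : List ι) : l.Nodup →
    ∀ x g, TL W l x g = avP fun s => SL W l x (wk W l x s) g := by
  induction l with
  | nil =>
    intro _ x g
    have h : (fun s => SL W [] x (wk W [] x s) g) = fun _ : Pos p => ind (W.V x) g := rfl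
    rw [h, avP_const W hW]
    rfl
  | cons i l ih =>
    intro hl x g
    have hl' := List.nodup_cons.1 hl
    have hne : ∀ j ∈ l, j ≠ i := fun j hj h => hl'.1 (h ▸ hj)
    rw [tl_cons]
    -- the right side
    have h1 : (avP fun s => SL W (i :: l) x (wk W (i :: l) x s) g) =
        Lb W i (x i) (fun g => avP fun s => SL W l x (wk W (i :: l) x s) g) g := by
      unfold Lb avP
      rw [Finset.mul_sum, Finset.mul_sum]
      have h2 : ∀ s : Pos p, SL W (i :: l) x (wk W (i :: l) x s) g =
          ((W.L i).card : ℝ)⁻¹ * ∑ κ ∈ W.K i (x i), SL W l x (wk W (i :: l) x s) (g + κ) :=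
        fun s => rfl
      simp only [h2, Finset.mul_sum]
      rw [Finset.sum_comm]
      refine Finset.sum_congr rfl (fun κ _ => Finset.sum_congr rfl (fun s _ => ?_))
      ring
    rw [h1]
    unfold TT
    refine lb_congr W i (x i) (fun g => ?_) g
    have h3 : ∀ s, SL W l x (wk W (i :: l) x s) g = ind (W.Gd i x) g *
        (ind (W.Gd i (Function.update x i (s i))) g *
        SL W l (Function.update x i (s i)) (wk W l (Function.update x i (s i)) s) g) :=
      fun s => congrFun (sl_wk_cons hW i l hl x s) g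
    simp only [h3]
    rw [avP_smul, ave_upd W hW i (fun s => ind (W.Gd i (Function.update x i (s i))) g *
        SL W l (Function.update x i (s i)) (wk W l (Function.update x i (s i)) s) g)]
    congr 1
    rw [avP_smul, avP_sum]
    congr 1
    refine Finset.sum_congr rfl (fun r _ => ?_)
    rw [ih hl'.2 (Function.update x i r) g, ← avP_smul]
    congr 1
    funext s
    rw [Function.update_self]
    congr 2
    refine funext (fun g => ?_)
    exact ind_congr (wk_t l _ s _ g (fun j hj => by rw [Function.update_of_ne (hne j hj)]))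

theorem pf_TLW : T_TLW := by
  intro ι _ _ p G _ W hW
  have hle := fun l => tl_le hW l
  refine ⟨fun l => ⟨tl_st hW l, hle l, ?_, ?_⟩, fun l hl => ⟨fun x g => tl_wk hW l hl x g, ?_⟩⟩
  · unfold ip
    exact avP_nonneg _ (fun x => ave_nonneg W _ (fun g => mul_nonneg (ind_nonneg _ g) (hle l x g).1))
  · unfold ip vv
    refine avP_mono _ _ (fun x => ave_mono W _ _ (fun g => ?_))
    have h1 := mul_le_mul_of_nonneg_left (hle l x g).2 (ind_nonneg (W.V x) g)
    rwa [ind_sq] at h1
  · unfold ip MM
    rw [← avP_smul]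
    congr 1
    funext x
    have h1 : ∀ g, ind (W.V x) g * TL W l x g = avP fun s => SL W l x (wk W l x s) g := by
      intro g
      rw [← tl_wk hW l hl x g]
      by_cases hg : g ∈ W.V x
      · rw [ind_pos hg, one_mul]
      · have h2 := hle l x g
        rw [ind_neg hg] at h2 ⊢
        rw [zero_mul]
        exact (le_antisymm h2.2 h2.1).symm
    rw [funext h1]
    have h3 : avT W (fun g => avP fun s => SL W l x (wk W l x s) g) =
        avP fun s => avT W (SL W l x (wk W l x s)) := by
      unfold avP
      rw [ave_smul, ave_sum]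
    rw [h3, ← avP_smul]
    congr 1
    funext s
    exact ave_sl W hW l x _

end Pool.Agent.H26.EW
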