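import Pool.Agent.H26.EWR.OPR

/-!
# Finite worlds of lines: the power inequality
-/

set_option autoImplicit false
set_option linter.unusedSectionVars false

open Finset

namespace Pool.Agent.H26.EW

variable {ι : Type} [Fintype ι] [DecidableEq ι] {p : ι → ℕ} {G : Type} [AddCommGroup G]

lemma tt_csum (W : WD ι p G) (i : ι) {β : Type} (s : Finset β) (c : ℝ) (F : β → Pos p → G → ℝ)
    (x : Pos p) (g : G) :
    TT W i (fun x g => c * ∑ b ∈ s, F b x g) x g = c * ∑ b ∈ s, TT W i (F b) x g := by
  classical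
  have h0 : ∀ x g, TT W i (fun _ _ => (0 : ℝ)) x g = 0 := by
    intro x g
    unfold TT Lb
    simp
  have h1 : ∀ x g, TT W i (fun x g => ∑ b ∈ s, F b x g) x g = ∑ b ∈ s, TT W i (F b) x g := by
    induction s using Finset.induction_on with
    | empty =>
      intro x g
      simp only [Finset.sum_empty]
      exact h0 x g
    | insert b s hb ih =>
      intro x g
      rw [Finset.sum_insert hb, ← ih x g]
      have h2 := congrFun (congrFun (tt_lin W i (F b) (fun x g => ∑ b ∈ s, F b x g) 1) x) g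
      rw [one_mul] at h2
      rw [← h2]
      congr 1
      funext x g
      rw [Finset.sum_insert hb, one_mul]
  have h3 := congrFun (congrFun (tt_lin W i (fun _ _ => (0 : ℝ))
    (fun x g => ∑ b ∈ s, F b x g) c) x) g
  rw [h0 x g, zero_add, h1 x g] at h3
  rw [← h3]
  congr 1
  funext x g
  rw [zero_add]

/-- the average of the operators -/
noncomputable def AA (W : WD ι p G) (F : Pos p → G → ℝ) : Pos p → G → ℝ := fun x g =>
  (Fintype.card ι : ℝ)⁻¹ * ∑ i, TT W i F x g

/-- its powers -/
noncomputable def AN (W : WD ι p G) (n : ℕ) : Pos p → G → ℝ := (AA W)^[n] fun x => ind (W.V x)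

lemma an_succ (W : WD ι p G) (n : ℕ) : AN W (n + 1) = AA W (AN W n) := by
  unfold AN
  rw [Function.iterate_succ_apply']

lemma aa_st {W : WD ι p G} (hW : W.Ok) (F : Pos p → G → ℝ) (hF : St W F) : St W (AA W F) := by
  intro x i κ hκ g
  unfold AA
  congr 1
  exact Finset.sum_congr rfl (fun j _ => tt_st hW j F hF x i κ hκ g)

lemma an_st {W : WD ι p G} (hW : W.Ok) (n : ℕ) : St W (AN W n) := by
  induction n with
  | zero => exact st_V hW
  | succ n ih =>
    rw [an_succ]
    exact aa_st hW _ ih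

lemma ip_csum (W : WD ι p G) {β : Type} (s : Finset β) (c : ℝ) (H : Pos p → G → ℝ)
    (F : β → Pos p → G → ℝ) :
    ip W H (fun x g => c * ∑ b ∈ s, F b x g) = c * ∑ b ∈ s, ip W H (F b) := by
  unfold ip
  rw [← avP_sum, ← avP_smul]
  congr 1
  funext x
  rw [← ave_sum, ← ave_smul]
  congr 1
  funext g
  rw [← Finset.mul_sum]
  ring

lemma ip_comm (W : WD ι p G) (F H : Pos p → G → ℝ) : ip W F H = ip W H F := by
  unfold ip
  congr 1
  funext x
  congr 1
  funext g
  ring

lemma aa_sym {W : WD ι p G} (hW : W.Ok) (F H : Pos p → G → ℝ) (hF : St W F) (hH : St W H) :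
    ip W H (AA W F) = ip W (AA W H) F := by
  rw [ip_comm W (AA W H) F]
  unfold AA
  rw [ip_csum, ip_csum]
  congr 1
  refine Finset.sum_congr rfl (fun i _ => ?_)
  rw [ip_sym hW i F H hF hH, ip_comm]

lemma an_ip {W : WD ι p G} (hW : W.Ok) (j : ℕ) : ∀ k : ℕ,
    ip W (AN W j) (AN W k) = ip W (fun x => ind (W.V x)) (AN W (k + j)) := by
  induction j with
  | zero => exact fun k => rfl
  | succ j ih =>
    intro k
    rw [an_succ, ← aa_sym hW _ _ (an_st hW k) (an_st hW j), ← an_succ, ih (k + 1)]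
    congr 2
    omega

lemma ip_vv (W : WD ι p G) : ip W (fun x => ind (W.V x)) (fun x => ind (W.V x)) = vv W := by
  unfold ip vv
  congr 1
  funext x
  congr 1
  funext g
  exact ind_sq _ g

lemma ip_quad (W : WD ι p G) (F : Pos p → G → ℝ) (d : ℝ) :
    2 * d * ip W (fun x => ind (W.V x)) F - d ^ 2 * vv W ≤ ip W F F := by
  rw [← ip_vv]
  have h1 : 0 ≤ avP fun x => avT W fun g => (F x g + (-d) * ind (W.V x) g) ^ 2 :=
    avP_nonneg _ (fun x => ave_nonneg W _ (fun g => sq_nonneg _))
  have h2 : (avP fun x => avT W fun g => (F x g + (-d) * ind (W.V x) g) ^ 2) =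
      ip W F F + (-(2 * d)) * ip W (fun x => ind (W.V x)) F +
      d ^ 2 * ip W (fun x => ind (W.V x)) (fun x => ind (W.V x)) := by
    unfold ip
    rw [← avP_smul, ← avP_smul, ← avP_add, ← avP_add]
    congr 1
    funext x
    rw [← ave_smul, ← ave_smul, ← ave_add, ← ave_add]
    congr 1
    funext g
    ring
  rw [h2] at h1
  linarith

lemma an_dbl {W : WD ι p G} (hW : W.Ok) (j : ℕ) (d : ℝ) :
    2 * d * ip W (fun x => ind (W.V x)) (AN W j) - d ^ 2 * vv W ≤
      ip W (fun x => ind (W.V x)) (AN W (j + j)) := by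
  rw [← an_ip hW j j]
  exact ip_quad W _ d

lemma an_pow {W : WD ι p G} (hW : W.Ok) (c : ℝ) (hc : 0 ≤ c) (r : ℕ) :
    ((2 ^ r : ℕ) : ℝ) * c ^ (2 ^ r - 1) * ip W (fun x => ind (W.V x)) (AN W 1) -
      (((2 ^ r : ℕ) : ℝ) - 1) * c ^ (2 ^ r) * vv W ≤
      ip W (fun x => ind (W.V x)) (AN W (2 ^ r)) := by
  induction r with
  | zero => simp
  | succ r ih =>
    have h1 := an_dbl hW (2 ^ r) (c ^ (2 ^ r))
    have e1 : 2 ^ r + 2 ^ r = 2 ^ (r + 1) := by ring
    rw [e1] at h1
    have hn : 1 ≤ 2 ^ r := Nat.one_le_two_pow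
    have e2 : c ^ (2 ^ (r + 1) - 1) = c ^ (2 ^ r - 1) * c ^ (2 ^ r) := by
      rw [← pow_add]
      congr 1
      omega
    have e3 : c ^ (2 ^ (r + 1)) = c ^ (2 ^ r) * c ^ (2 ^ r) := by
      rw [← pow_add, e1]
    have e4 : (((2 ^ (r + 1) : ℕ)) : ℝ) = 2 * ((2 ^ r : ℕ) : ℝ) := by
      push_cast
      ring
    have h2 := mul_le_mul_of_nonneg_left ih (mul_nonneg zero_le_two (pow_nonneg hc (2 ^ r)))
    rw [e2, e3, e4]
    set D := c ^ (2 ^ r)
    set E := c ^ (2 ^ r - 1)
    set a := ip W (fun x => ind (W.V x)) (AN W 1)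
    set m := (((2 ^ r : ℕ)) : ℝ)
    have e5 : 2 * D * (m * E * a - (m - 1) * D * vv W) =
        2 * m * (E * D) * a - (2 * m - 2) * (D * D) * vv W := by ring
    rw [e5] at h2
    have e6 : (2 * m - 1) * (D * D) * vv W = (2 * m - 2) * (D * D) * vv W + D ^ 2 * vv W := by
      ring
    rw [e6]
    linarith

lemma an_eq (W : WD ι p G) (n : ℕ) : ∀ x g, AN W n x g =
    ((Fintype.card ι : ℝ) ^ n)⁻¹ * ∑ s : Fin n → ι, TL W (List.ofFn s) x g := by
  induction n with
  | zero =>
    intro x g
    simp [AN, TL]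
  | succ n ih =>
    intro x g
    rw [an_succ]
    have h1 : AN W n = fun x g => ((Fintype.card ι : ℝ) ^ n)⁻¹ *
        ∑ s ∈ (Finset.univ : Finset (Fin n → ι)), TL W (List.ofFn s) x g := by
      funext x g
      exact ih x g
    rw [h1]
    unfold AA
    have h2 : ∀ i, TT W i (fun x g => ((Fintype.card ι : ℝ) ^ n)⁻¹ *
        ∑ s ∈ (Finset.univ : Finset (Fin n → ι)), TL W (List.ofFn s) x g) x g =
        ((Fintype.card ι : ℝ) ^ n)⁻¹ * ∑ s : Fin n → ι, TL W (i :: List.ofFn s) x g := by
      intro i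
      rw [tt_csum]
      rfl
    rw [Finset.sum_congr rfl (fun i _ => h2 i), ← Finset.mul_sum]
    have h3 : ∑ s : Fin (n + 1) → ι, TL W (List.ofFn s) x g =
        ∑ i : ι, ∑ s : Fin n → ι, TL W (i :: List.ofFn s) x g := by
      rw [← (Fin.consEquiv (fun _ : Fin (n + 1) => ι)).sum_comp (fun s => TL W (List.ofFn s) x g),
        Fintype.sum_prod_type]
      refine Finset.sum_congr rfl (fun i _ => Finset.sum_congr rfl (fun s _ => ?_))
      have e : List.ofFn ((Fin.consEquiv (fun _ : Fin (n + 1) => ι)) (i, s)) =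
          i :: List.ofFn s := by
        change List.ofFn (Fin.cons i s : Fin (n + 1) → ι) = _
        rw [List.ofFn_cons]
      rw [e]
    rw [h3, pow_succ, mul_inv]
    ring

lemma ip_an (W : WD ι p G) (n : ℕ) : ip W (fun x => ind (W.V x)) (AN W n) =
    ((Fintype.card ι : ℝ) ^ n)⁻¹ * ∑ s : Fin n → ι,
      ip W (fun x => ind (W.V x)) (TL W (List.ofFn s)) := by
  have h1 : AN W n = fun x g => ((Fintype.card ι : ℝ) ^ n)⁻¹ *
      ∑ s ∈ (Finset.univ : Finset (Fin n → ι)), TL W (List.ofFn s) x g := by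
    funext x g
    exact an_eq W n x g
  rw [h1, ip_csum]

lemma ip_an1 (W : WD ι p G) : ip W (fun x => ind (W.V x)) (AN W 1) =
    (Fintype.card ι : ℝ)⁻¹ * ∑ i, ip W (fun x => ind (W.V x)) (TL W [i]) := by
  have h1 : AN W 1 = fun x g => (Fintype.card ι : ℝ)⁻¹ *
      ∑ i ∈ (Finset.univ : Finset ι), TL W [i] x g := rfl
  rw [h1, ip_csum]

theorem pwa {W : WD ι p G} (hW : W.Ok) (r n : ℕ) (c : ℝ) (hn : n = 2 ^ r) (hc : 0 ≤ c) :
    (n : ℝ) * c ^ (n - 1) *
        ((Fintype.card ι : ℝ)⁻¹ * ∑ i, ip W (fun x => ind (W.V x)) (TL W [i])) -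
      (n - 1) * c ^ n * vv W ≤
      ((Fintype.card ι : ℝ) ^ n)⁻¹ * ∑ s : Fin n → ι,
        ip W (fun x => ind (W.V x)) (TL W (List.ofFn s)) := by
  subst hn
  rw [← ip_an, ← ip_an1]
  exact an_pow hW c hc r

theorem pf_PWA : T_PWA := by
  intro ι _ _ p G _ W hW r n c hn hc _
  exact pwa hW r n c hn hc

/-- the functions with a given coincidence -/
lemma coinc (n : ℕ) (a b : Fin n) (hab : a ≠ b) :
    ((Finset.univ : Finset (Fin n → ι)).filter (fun s => s a = s b)).card ≤
      Fintype.card ι ^ (n - 1) := by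
  classical
  have h1 : Fintype.card ({x : Fin n // x ≠ b} → ι) = Fintype.card ι ^ (n - 1) := by
    rw [Fintype.card_fun]
    congr 1
    have := Fintype.card_subtype_compl (fun x : Fin n => x = b)
    simp only [Fintype.card_fin, Fintype.card_subtype_eq] at this
    exact this
  rw [← h1, ← Finset.card_univ]
  refine Finset.card_le_card_of_injOn (fun s x => s x.1) (fun s _ => Finset.mem_univ _) ?_
  intro s hs t ht hst
  rw [Finset.mem_coe, Finset.mem_filter] at hs ht
  funext x
  by_cases hx : x = b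
  · rw [hx, ← hs.2, ← ht.2]
    exact congrFun hst ⟨a, hab⟩
  · exact congrFun hst ⟨x, hx⟩

open Classical in
theorem pwr {W : WD ι p G} (hW : W.Ok) (r n : ℕ) (c : ℝ) (hn : n = 2 ^ r) (hc : 0 ≤ c)
    (hI : 0 < Fintype.card ι) :
    (n : ℝ) * c ^ (n - 1) * ((Fintype.card ι : ℝ)⁻¹ * ∑ i, MM W [i]) - (n - 1) * c ^ n * vv W ≤
      ((Fintype.card ι : ℝ) ^ n)⁻¹ * (∑ s ∈ (univ : Finset (Fin n → ι)).filter
        (fun s => Function.Injective s), MM W (List.ofFn s)) +
      (n : ℝ) ^ 2 / Fintype.card ι * vv W := by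
  have hI' : (0 : ℝ) < Fintype.card ι := by exact_mod_cast hI
  have htl := pf_TLW ι p G W hW
  have h1 := pwa hW r n c hn hc
  have hn1 : 1 ≤ n := by rw [hn]; exact Nat.one_le_two_pow
  have e1 : ∀ i : ι, ip W (fun x => ind (W.V x)) (TL W [i]) = MM W [i] :=
    fun i => (htl.2 [i] (List.nodup_singleton i)).2
  rw [Finset.sum_congr rfl (fun i _ => e1 i)] at h1
  refine h1.trans ?_
  have hvv : 0 ≤ vv W := (htl.1 []).2.2.1.trans (htl.1 []).2.2.2
  rw [← Finset.sum_filter_add_sum_filter_not (univ : Finset (Fin n → ι))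
    (fun s => Function.Injective s), mul_add]
  refine add_le_add (le_of_eq ?_) ?_
  · congr 1
    refine Finset.sum_congr rfl (fun s hs => ?_)
    exact (htl.2 _ (List.nodup_ofFn.2 (Finset.mem_filter.1 hs).2)).2
  · have h2 : ∑ s ∈ (univ : Finset (Fin n → ι)).filter (fun s => ¬ Function.Injective s),
        ip W (fun x => ind (W.V x)) (TL W (List.ofFn s)) ≤
        (((univ : Finset (Fin n → ι)).filter (fun s => ¬ Function.Injective s)).card : ℝ) *
          vv W := by
      rw [← nsmul_eq_mul, ← Finset.sum_const]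
      exact Finset.sum_le_sum (fun s _ => (htl.1 _).2.2.2)
    have h3 : ((univ : Finset (Fin n → ι)).filter (fun s => ¬ Function.Injective s)).card ≤
        n * (n * Fintype.card ι ^ (n - 1)) := by
      have hsub : (univ : Finset (Fin n → ι)).filter (fun s => ¬ Function.Injective s) ⊆
          (univ : Finset (Fin n)).biUnion (fun a => ((univ : Finset (Fin n)).filter
            (fun b => a ≠ b)).biUnion (fun b => (univ : Finset (Fin n → ι)).filter
              (fun s => s a = s b))) := by
        intro s hs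
        have hs' := (Finset.mem_filter.1 hs).2
        unfold Function.Injective at hs'
        push Not at hs'
        obtain ⟨a, b, hab, hne⟩ := hs'
        rw [Finset.mem_biUnion]
        refine ⟨a, Finset.mem_univ _, ?_⟩
        rw [Finset.mem_biUnion]
        exact ⟨b, Finset.mem_filter.2 ⟨Finset.mem_univ _, hne⟩,
          Finset.mem_filter.2 ⟨Finset.mem_univ _, hab⟩⟩
      refine (Finset.card_le_card hsub).trans (Finset.card_biUnion_le.trans ?_)
      have h4 : ∀ a ∈ (univ : Finset (Fin n)), (((univ : Finset (Fin n)).filter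
            (fun b => a ≠ b)).biUnion (fun b => (univ : Finset (Fin n → ι)).filter
              (fun s => s a = s b))).card ≤ n * Fintype.card ι ^ (n - 1) := by
        intro a _
        refine Finset.card_biUnion_le.trans ?_
        refine (Finset.sum_le_card_nsmul _ _ _ (fun b hb =>
          coinc n a b (Finset.mem_filter.1 hb).2)).trans ?_
        rw [smul_eq_mul]
        refine Nat.mul_le_mul_right _ ?_
        exact (Finset.card_le_univ _).trans (by rw [Fintype.card_fin])
      refine (Finset.sum_le_card_nsmul _ _ _ h4).trans ?_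
      rw [smul_eq_mul, Finset.card_univ, Fintype.card_fin]
    have h5 : (((univ : Finset (Fin n → ι)).filter
        (fun s => ¬ Function.Injective s)).card : ℝ) ≤
        (n : ℝ) * (n * (Fintype.card ι : ℝ) ^ (n - 1)) := by exact_mod_cast h3
    have hpow : (Fintype.card ι : ℝ) ^ n = (Fintype.card ι : ℝ) ^ (n - 1) * Fintype.card ι := by
      rw [← pow_succ]
      congr 1
      omega
    have hpp : (0 : ℝ) < (Fintype.card ι : ℝ) ^ (n - 1) := pow_pos hI' _
    calc ((Fintype.card ι : ℝ) ^ n)⁻¹ * ∑ s ∈ (univ : Finset (Fin n → ι)).filter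
          (fun s => ¬ Function.Injective s), ip W (fun x => ind (W.V x)) (TL W (List.ofFn s)) ≤
        ((Fintype.card ι : ℝ) ^ n)⁻¹ * (((n : ℝ) * (n * (Fintype.card ι : ℝ) ^ (n - 1))) *
          vv W) := by
          refine mul_le_mul_of_nonneg_left (h2.trans (mul_le_mul_of_nonneg_right h5 hvv))
            (by positivity)
      _ = (n : ℝ) ^ 2 / Fintype.card ι * vv W := by
          rw [hpow]
          field_simp

theorem pf_PWR : T_PWR := by
  intro ι _ _ p G _ W hW r n c hn hc hI
  exact pwr hW r n c hn hc hI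

theorem coh {W : WD ι p G} (hW : W.Ok) (P v d : ℝ) (hP : 0 < P) (hv : 0 < v)
    (hPp : ∀ i, P ≤ p i) (l : List ι) (hl : l.Nodup) :
    2 * d * MM W l - d ^ 2 * vv W -
      (W.kk * W.m / P + v + l.length * (W.kk * W.m / (P * v))) * (l.map (ee W)).sum ≤ Co W l := by
  have htl := pf_TLW ι p G W hW
  have h1 := ip_quad W (TL W l) d
  rw [(htl.2 l hl).2] at h1
  have hvpr := pf_VPR ι p G W hW P v hP hv hPp l hl
  have h2 : ip W (TL W l) (TL W l) = (avP fun x => avP fun s => avP fun r =>
      avT W (OD W l x (wk W l x s) (wk W l x r))) + Co W l := by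
    have e1 : ip W (TL W l) (TL W l) = avP fun x => avP fun s => avP fun r =>
        avT W (fun g => SL W l x (wk W l x s) g * SL W l x (wk W l x r) g) := by
      unfold ip
      congr 1
      funext x
      have e2 : ∀ g, TL W l x g * TL W l x g = avP fun s => avP fun r =>
          SL W l x (wk W l x s) g * SL W l x (wk W l x r) g := by
        intro g
        rw [tl_wk hW l hl x g]
        have e3 : (fun s => avP fun r => SL W l x (wk W l x s) g * SL W l x (wk W l x r) g) =
            fun s => (avP fun r => SL W l x (wk W l x r) g) * SL W l x (wk W l x s) g := by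
          funext s
          rw [avP_smul]
          ring
        rw [e3, avP_smul]
      rw [funext e2]
      unfold avP
      rw [ave_smul, ave_sum]
      congr 1
      refine Finset.sum_congr rfl (fun s _ => ?_)
      rw [ave_smul, ave_sum]
    have e4 : Co W l = avP fun x => avP fun s => avP fun r =>
        avT W (SL W l x (fun g => wk W l x s g * wk W l x r g)) := by
      unfold Co
      rw [← avP_smul]
      congr 1
      funext x
      rw [← avP_smul]
      congr 1
      funext s
      rw [← avP_smul]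
      congr 1
      funext r
      rw [ave_sl W hW l x]
    rw [e1, e4, ← avP_add]
    congr 1
    funext x
    rw [← avP_add]
    congr 1
    funext s
    rw [← avP_add]
    congr 1
    funext r
    rw [← ave_add]
    congr 1
    funext g
    unfold OD
    ring
  rw [h2] at h1
  linarith

theorem pf_COH : T_COH := by
  intro ι _ _ p G _ W hW P v d hP hv hPp l hl
  exact coh hW P v d hP hv hPp l hl

end Pool.Agent.H26.EW
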