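import Pool.Agent.H26.EWR.AVE

/-!
# Finite worlds of lines: sums over labels
-/

set_option autoImplicit false
set_option linter.unusedSectionVars false

open Finset

namespace Pool.Agent.H26.EW

variable {ι : Type} [Fintype ι] [DecidableEq ι] {p : ι → ℕ} {G : Type} [AddCommGroup G]

lemma slc (W : WD ι p G) (i : ι) (l : List ι) (x : Pos p) (F : G → ℝ) :
    SL W (i :: l) x F = Lb W i (x i) (SL W l x F) := rfl

lemma lb_mono (W : WD ι p G) (i : ι) (r : Fin (p i)) (F H : G → ℝ) (h : ∀ g, F g ≤ H g) (g : G) :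
    Lb W i r F g ≤ Lb W i r H g := by
  unfold Lb
  exact mul_le_mul_of_nonneg_left (Finset.sum_le_sum (fun κ _ => h _)) (by positivity)

lemma lb_add (W : WD ι p G) (i : ι) (r : Fin (p i)) (F H : G → ℝ) (g : G) :
    Lb W i r (fun g => F g + H g) g = Lb W i r F g + Lb W i r H g := by
  unfold Lb
  rw [Finset.sum_add_distrib, mul_add]

lemma lb_smul (W : WD ι p G) (i : ι) (r : Fin (p i)) (c : ℝ) (F : G → ℝ) (g : G) :
    Lb W i r (fun g => c * F g) g = c * Lb W i r F g := by
  unfold Lb
  rw [← Finset.mul_sum]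
  ring

lemma lb_mulH (W : WD ι p G) (i : ι) (r : Fin (p i)) (F H : G → ℝ)
    (hH : ∀ κ ∈ W.K i r, ∀ g, H (g + κ) = H g) (g : G) :
    Lb W i r (fun g => H g * F g) g = H g * Lb W i r F g := by
  have h1 : ∀ κ ∈ W.K i r, H (g + κ) * F (g + κ) = H g * F (g + κ) := by
    intro κ hκ
    rw [hH κ hκ g]
  unfold Lb
  rw [Finset.sum_congr rfl h1, ← Finset.mul_sum]
  ring

lemma lb_tr (W : WD ι p G) (i : ι) (r : Fin (p i)) (F : G → ℝ) (a : G) :
    Lb W i r (fun g => F (g + a)) = fun g => Lb W i r F (g + a) := by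
  funext g
  unfold Lb
  congr 1
  refine Finset.sum_congr rfl (fun κ _ => ?_)
  rw [add_right_comm]

lemma lb_comm (W : WD ι p G) (i j : ι) (r : Fin (p i)) (s : Fin (p j)) (F : G → ℝ) :
    Lb W i r (Lb W j s F) = Lb W j s (Lb W i r F) := by
  funext g
  unfold Lb
  simp only [Finset.mul_sum]
  rw [Finset.sum_comm]
  refine Finset.sum_congr rfl (fun κ _ => Finset.sum_congr rfl (fun κ' _ => ?_))
  rw [add_right_comm]
  ring

lemma lb_nonneg (W : WD ι p G) (i : ι) (r : Fin (p i)) (F : G → ℝ) (h : ∀ g, 0 ≤ F g) (g : G) :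
    0 ≤ Lb W i r F g := by
  unfold Lb
  exact mul_nonneg (by positivity) (Finset.sum_nonneg (fun κ _ => h _))

lemma lb_zero (W : WD ι p G) (i : ι) (r : Fin (p i)) (g : G) :
    Lb W i r (fun _ => 0) g = 0 := by
  unfold Lb
  simp

lemma sl_congr (W : WD ι p G) (l : List ι) (x x' : Pos p) (F : G → ℝ)
    (h : ∀ i ∈ l, x i = x' i) : SL W l x F = SL W l x' F := by
  induction l with
  | nil => rfl
  | cons i l ih =>
    rw [slc, slc, ih (fun j hj => h j (List.mem_cons_of_mem _ hj)), h i List.mem_cons_self]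

lemma sl_mono (W : WD ι p G) (l : List ι) (x : Pos p) (F H : G → ℝ) (h : ∀ g, F g ≤ H g) :
    ∀ g, SL W l x F g ≤ SL W l x H g := by
  induction l with
  | nil => exact h
  | cons i l ih =>
    intro g
    rw [slc, slc]
    exact lb_mono W i (x i) _ _ ih g

lemma sl_add (W : WD ι p G) (l : List ι) (x : Pos p) (F H : G → ℝ) :
    SL W l x (fun g => F g + H g) = fun g => SL W l x F g + SL W l x H g := by
  induction l with
  | nil => rfl
  | cons i l ih =>
    funext g
    rw [slc, slc, slc, ih]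
    exact lb_add W i (x i) _ _ g

lemma sl_smul (W : WD ι p G) (l : List ι) (x : Pos p) (c : ℝ) (F : G → ℝ) :
    SL W l x (fun g => c * F g) = fun g => c * SL W l x F g := by
  induction l with
  | nil => rfl
  | cons i l ih =>
    funext g
    rw [slc, slc, ih]
    exact lb_smul W i (x i) c _ g

lemma sl_mulH (W : WD ι p G) (l : List ι) (x : Pos p) (F H : G → ℝ)
    (hH : ∀ i ∈ l, ∀ κ ∈ W.K i (x i), ∀ g, H (g + κ) = H g) :
    SL W l x (fun g => H g * F g) = fun g => H g * SL W l x F g := by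
  induction l with
  | nil => rfl
  | cons i l ih =>
    funext g
    rw [slc, slc, ih (fun j hj => hH j (List.mem_cons_of_mem _ hj))]
    exact lb_mulH W i (x i) _ H (hH i List.mem_cons_self) g

lemma sl_tr (W : WD ι p G) (l : List ι) (x : Pos p) (F : G → ℝ) (a : G) :
    SL W l x (fun g => F (g + a)) = fun g => SL W l x F (g + a) := by
  induction l with
  | nil => rfl
  | cons i l ih =>
    rw [slc, slc, ih]
    exact lb_tr W i (x i) _ a

lemma sl_lb (W : WD ι p G) (l : List ι) (x : Pos p) (i : ι) (r : Fin (p i)) (F : G → ℝ) :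
    SL W l x (Lb W i r F) = Lb W i r (SL W l x F) := by
  induction l with
  | nil => rfl
  | cons j l ih =>
    rw [slc, slc, ih, lb_comm]

lemma sl_nonneg (W : WD ι p G) (l : List ι) (x : Pos p) (F : G → ℝ) (h : ∀ g, 0 ≤ F g) :
    ∀ g, 0 ≤ SL W l x F g := by
  induction l with
  | nil => exact h
  | cons i l ih =>
    intro g
    rw [slc]
    exact lb_nonneg W i (x i) _ ih g

lemma sl_app (W : WD ι p G) (l l' : List ι) (x : Pos p) (F : G → ℝ) :
    SL W (l ++ l') x F = SL W l x (SL W l' x F) := by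
  induction l with
  | nil => rfl
  | cons i l ih =>
    rw [List.cons_append, slc, slc, ih]

theorem pf_SLB : T_SLB := by
  intro ι _ _ p G _ W hW
  exact ⟨fun l x x' F h => sl_congr W l x x' F h, fun l x F H h => sl_mono W l x F H h,
    fun l x F H g => congrFun (sl_add W l x F H) g, fun l x c F g => congrFun (sl_smul W l x c F) g,
    fun l x F H hH g => congrFun (sl_mulH W l x F H hH) g, fun l x F a => sl_tr W l x F a,
    fun l x i r F => sl_lb W l x i r F⟩

end Pool.Agent.H26.EW
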