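import Pool.Agent.H26.EWR.INC

/-!
# Finite worlds of lines: one line
-/

set_option autoImplicit false
set_option linter.unusedSectionVars false

open Finset

namespace Pool.Agent.H26.EW

variable {ι : Type} [Fintype ι] [DecidableEq ι] {p : ι → ℕ} {G : Type} [AddCommGroup G]

theorem st2 {W : WD ι p G} (hW : W.Ok) (q : ι) (x : Pos p) (g : G) (B : Finset (Fin (p q)))
    (hB : ∀ y ∈ B, g ∈ For W q (Function.update x q y)) : (B.card : ℝ) ≤ W.kk * W.m := by
  classical
  have h1 : ∀ y, ∃ κ : G, y ∈ B → κ ∈ W.K q y ∧ κ ∉ W.L q ∧ g + κ ∈ W.Ge q x := by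
    intro y
    by_cases hy : y ∈ B
    · obtain ⟨κ, k1, k2, k3⟩ := hB y hy
      rw [Function.update_self] at k1
      refine ⟨κ, fun _ => ⟨k1, k2, ?_⟩⟩
      have k4 := hW.GdGe q _ k3
      rwa [hW.Gepos q x y] at k4
    · exact ⟨0, fun h => absurd h hy⟩
  choose κ hκ using h1
  let R : G → G → Prop := fun u v => ∃ a ∈ W.L q, v = u + a
  have hRr : ∀ u, R u u := fun u => ⟨0, hW.L0 q, by simp⟩
  have hRs : ∀ u v, R u v → R v u := by
    rintro u v ⟨a, ha, e⟩
    exact ⟨-a, hW.Ln q a ha, by rw [e]; abel⟩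
  obtain ⟨Y, hYA, hY1, hY2⟩ := reps R hRr hRs (B.image (fun y => g + κ y))
  have hYm : (Y.card : ℝ) ≤ W.m := by
    refine hW.list1 q x g Y ?_ ?_
    · intro v hv
      obtain ⟨y, hy, e⟩ := Finset.mem_image.1 (hYA hv)
      have h2 := hκ y hy
      exact ⟨e ▸ h2.2.2, κ y, hW.KΓ q y _ h2.1, e.symm⟩
    · intro u hu v hv hR
      exact hY1 u hu v hv hR
  have hcov : B ⊆ Y.biUnion (fun u => B.filter (fun y => R u (g + κ y))) := by
    intro y hy
    obtain ⟨u, hu, hR⟩ := hY2 (g + κ y) (Finset.mem_image_of_mem _ hy)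
    rw [Finset.mem_biUnion]
    exact ⟨u, hu, Finset.mem_filter.2 ⟨hy, hR⟩⟩
  have hone : ∀ u ∈ Y, ((B.filter (fun y => R u (g + κ y))).card : ℝ) ≤ W.kk := by
    intro u hu
    obtain ⟨y0, hy0, e0⟩ := Finset.mem_image.1 (hYA hu)
    have h0 := hκ y0 hy0
    refine hW.sep q (κ y0) (hW.KΓ q y0 _ h0.1) h0.2.1 _ ?_
    intro y hy
    rw [Finset.mem_filter] at hy
    obtain ⟨a, ha, e⟩ := hy.2
    have h2 := hκ y hy.1
    have e1 : κ y0 = κ y + -a := by
      rw [← e0] at e
      have e2 : κ y = κ y0 + a := by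
        have := congrArg (fun v => v - g) e
        calc κ y = g + κ y - g := by abel
          _ = g + κ y0 + a - g := this
          _ = κ y0 + a := by abel
      rw [e2]
      abel
    rw [e1]
    exact hW.Ka q y _ h2.1 _ (hW.Kn q y _ (hW.LK q y ha))
  calc (B.card : ℝ) ≤ ((Y.biUnion (fun u => B.filter (fun y => R u (g + κ y)))).card : ℝ) := by
        exact_mod_cast Finset.card_le_card hcov
    _ ≤ ((∑ u ∈ Y, (B.filter (fun y => R u (g + κ y))).card : ℕ) : ℝ) := by
        exact_mod_cast Finset.card_biUnion_le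
    _ = ∑ u ∈ Y, ((B.filter (fun y => R u (g + κ y))).card : ℝ) := by push_cast; rfl
    _ ≤ ∑ _u ∈ Y, W.kk := Finset.sum_le_sum hone
    _ = (Y.card : ℝ) * W.kk := by rw [Finset.sum_const, nsmul_eq_mul]
    _ ≤ W.m * W.kk := mul_le_mul_of_nonneg_right hYm hW.hk
    _ = W.kk * W.m := mul_comm _ _

theorem pf_ST2 : T_ST2 := by
  intro ι _ _ p G _ W hW q x g B hB
  exact st2 hW q x g B hB

lemma sl_sum (W : WD ι p G) (l : List ι) (x : Pos p) {β : Type} (s : Finset β) (F : β → G → ℝ)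
    (g : G) : SL W l x (fun g => ∑ b ∈ s, F b g) g = ∑ b ∈ s, SL W l x (F b) g := by
  classical
  induction s using Finset.induction_on with
  | empty =>
    simp only [Finset.sum_empty]
    have h := congrFun (sl_smul W l x 0 (fun _ => (0 : ℝ))) g
    simpa using h
  | insert b s hb ih =>
    rw [Finset.sum_insert hb, ← ih]
    have h := congrFun (sl_add W l x (F b) (fun g => ∑ b ∈ s, F b g)) g
    rw [← h]
    congr 1
    funext g
    rw [Finset.sum_insert hb]

lemma od_sum (W : WD ι p G) (l : List ι) (x : Pos p) {β : Type} [Fintype β] (c : ℝ)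
    (F : β → G → ℝ) (g : G) :
    OD W l x (fun g => c * ∑ y, F y g) (fun g => c * ∑ y, F y g) g =
      c * (c * ∑ y, ∑ y', OD W l x (F y) (F y') g) := by
  have h1 : SL W l x (fun g => c * ∑ y, F y g) g = c * ∑ y, SL W l x (F y) g := by
    have h := congrFun (sl_smul W l x c (fun g => ∑ y, F y g)) g
    rw [h, sl_sum]
  have h2 : SL W l x (fun g => (c * ∑ y, F y g) * (c * ∑ y, F y g)) g =
      c * (c * ∑ y, ∑ y', SL W l x (fun g => F y g * F y' g) g) := by
    have e : (fun g => (c * ∑ y, F y g) * (c * ∑ y, F y g)) = fun g =>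
        (c * c) * ∑ y, ∑ y', F y g * F y' g := by
      funext g
      rw [← Finset.sum_mul_sum]
      ring
    rw [e]
    have h := congrFun (sl_smul W l x (c * c) (fun g => ∑ y, ∑ y', F y g * F y' g)) g
    rw [h, sl_sum]
    have h3 : ∀ y, SL W l x (fun g => ∑ y', F y g * F y' g) g =
        ∑ y', SL W l x (fun g => F y g * F y' g) g := fun y => sl_sum W l x _ _ g
    rw [Finset.sum_congr rfl (fun y _ => h3 y)]
    ring
  have h4 : OD W l x (fun g => c * ∑ y, F y g) (fun g => c * ∑ y, F y g) g =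
      SL W l x (fun g => c * ∑ y, F y g) g * SL W l x (fun g => c * ∑ y, F y g) g -
      SL W l x (fun g => (c * ∑ y, F y g) * (c * ∑ y, F y g)) g := rfl
  rw [h4, h1, h2]
  have h5 : ∑ y, ∑ y', OD W l x (F y) (F y') g = (∑ y, SL W l x (F y) g) *
      (∑ y, SL W l x (F y) g) - ∑ y, ∑ y', SL W l x (fun g => F y g * F y' g) g := by
    rw [Finset.sum_mul_sum, ← Finset.sum_sub_distrib]
    refine Finset.sum_congr rfl (fun y _ => ?_)
    rw [← Finset.sum_sub_distrib]
    rfl
  rw [h5]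
  ring

theorem pf_STC : T_STC := by
  intro ι _ _ p G _ W hW q l _ x C f v θ hv hθ hfC hL hf A hA g
  have hpq : (0 : ℝ) < p q := by exact_mod_cast hW.hp q
  set c : ℝ := (p q : ℝ)⁻¹ with hc
  have hc0 : 0 < c := by rw [hc]; positivity
  let Fb : G → ℝ := fun g => c * ∑ y, f y g
  let Cb : G → ℝ := fun g => c * ∑ y, C y g
  have hFC : ∀ g, 0 ≤ Fb g ∧ Fb g ≤ Cb g := fun g =>
    ⟨mul_nonneg hc0.le (Finset.sum_nonneg (fun y _ => (hfC y g).1)),
      mul_le_mul_of_nonneg_left (Finset.sum_le_sum (fun y _ => (hfC y g).2)) hc0.le⟩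
  have hC0 : ∀ g, 0 ≤ Cb g := fun g => (hFC g).1.trans (hFC g).2
  have hw : SL W l x Cb g ≤ ind A g := by
    have h := congrFun (sl_smul W l x c (fun g => ∑ y, C y g)) g
    have h1 : SL W l x Cb g = c * ∑ y, SL W l x (C y) g := by
      change SL W l x (fun g => c * ∑ y, C y g) g = _
      rw [h, sl_sum]
    rw [h1]
    calc c * ∑ y, SL W l x (C y) g ≤ c * ∑ _y : Fin (p q), ind A g :=
          mul_le_mul_of_nonneg_left (Finset.sum_le_sum (fun y _ => hA y g)) hc0.le
      _ = ind A g := by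
          rw [Finset.sum_const, Finset.card_univ, Fintype.card_fin, nsmul_eq_mul, hc, ← mul_assoc,
            inv_mul_cancel₀ hpq.ne', one_mul]
  have hw0 : 0 ≤ SL W l x Cb g := sl_nonneg W l x Cb hC0 g
  have hphi : SL W l x Fb g ≤ SL W l x Cb g := sl_mono W l x _ _ (fun g => (hFC g).2) g
  have hLC : ∀ i ∈ l, ∀ κ ∈ W.L i, ∀ g, Cb (g + κ) = Cb g ∧ Cb (g + κ) = Cb g := by
    intro i hi κ hκ g
    have h1 : Cb (g + κ) = Cb g := by
      change c * ∑ y, C y (g + κ) = c * ∑ y, C y g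
      congr 1
      exact Finset.sum_congr rfl (fun y _ => (hL y i hi κ hκ g).1)
    exact ⟨h1, h1⟩
  have hO := od_mono hW x Fb Cb Cb Cb hFC (fun g => ⟨hC0 g, le_refl _⟩) l hLC g
  have hO0 := (od_mono hW x Cb Cb Cb Cb (fun g => ⟨hC0 g, le_refl _⟩)
    (fun g => ⟨hC0 g, le_refl _⟩) l hLC g).1
  have hmul : SL W l x Fb g * SL W l x Cb g ≤ θ * SL W l x Cb g + OD W l x Cb Cb g := by
    have h1 : SL W l x Fb g * SL W l x Cb g = SL W l x (fun g => Fb g * Cb g) g +
        OD W l x Fb Cb g := by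
      have : OD W l x Fb Cb g = SL W l x Fb g * SL W l x Cb g -
        SL W l x (fun g => Fb g * Cb g) g := rfl
      rw [this]
      ring
    have h2 : SL W l x (fun g => Fb g * Cb g) g ≤ θ * SL W l x Cb g := by
      have h3 := congrFun (sl_smul W l x θ Cb) g
      have h4 := sl_mono W l x (fun g => Fb g * Cb g) (fun g => θ * Cb g)
        (fun g => mul_le_mul_of_nonneg_right (hf g) (hC0 g)) g
      rw [h3] at h4
      exact h4
    rw [h1]
    linarith [hO.2]
  have hsum := od_sum W l x c C g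
  change SL W l x Fb g ≤ _
  rw [← hsum]
  change SL W l x Fb g ≤ (θ + v) * ind A g + 1 / v * OD W l x Cb Cb g
  have hOv : 0 ≤ 1 / v * OD W l x Cb Cb g := mul_nonneg (by positivity) hO0
  by_cases hg : g ∈ A
  · rw [ind_pos hg, mul_one]
    by_cases hvw : v ≤ SL W l x Cb g
    · have hwp : 0 < SL W l x Cb g := lt_of_lt_of_le hv hvw
      have h1 : SL W l x Fb g ≤ θ + OD W l x Cb Cb g / SL W l x Cb g := by
        have h2 : SL W l x Fb g ≤ (θ * SL W l x Cb g + OD W l x Cb Cb g) / SL W l x Cb g := by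
          rw [le_div_iff₀ hwp]
          exact hmul
        refine h2.trans (le_of_eq ?_)
        field_simp
      have h3 : OD W l x Cb Cb g / SL W l x Cb g ≤ OD W l x Cb Cb g / v :=
        div_le_div_of_nonneg_left hO0 hv hvw
      have h4 : OD W l x Cb Cb g / v = 1 / v * OD W l x Cb Cb g := by ring
      rw [h4] at h3
      linarith
    · push Not at hvw
      linarith
  · rw [ind_neg hg] at hw ⊢
    rw [mul_zero, zero_add]
    linarith

end Pool.Agent.H26.EW
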