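import Pool.Agent.H26.EWR.ODR

/-!
# Finite worlds of lines: lines which cross the same line
-/

set_option autoImplicit false
set_option linter.unusedSectionVars false

open Finset

namespace Pool.Agent.H26.EW

variable {ι : Type} [Fintype ι] [DecidableEq ι] {p : ι → ℕ} {G : Type} [AddCommGroup G]

lemma ave_mono (W : WD ι p G) (F H : G → ℝ) (h : ∀ g, F g ≤ H g) : avT W F ≤ avT W H := by
  unfold avT
  exact mul_le_mul_of_nonneg_left (Finset.sum_le_sum (fun g _ => h g)) (by positivity)

lemma ave_nonneg (W : WD ι p G) (F : G → ℝ) (h : ∀ g, 0 ≤ F g) : 0 ≤ avT W F := by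
  unfold avT
  exact mul_nonneg (by positivity) (Finset.sum_nonneg (fun g _ => h g))

/-- representatives -/
lemma reps {α : Type} [DecidableEq α] (R : α → α → Prop) (hr : ∀ a, R a a)
    (hs : ∀ a b, R a b → R b a) (A : Finset α) :
    ∃ Y ⊆ A, (∀ y ∈ Y, ∀ y' ∈ Y, R y y' → y = y') ∧ ∀ a ∈ A, ∃ y ∈ Y, R y a := by
  classical
  induction A using Finset.induction_on with
  | empty => exact ⟨∅, Finset.Subset.refl _, by simp, by simp⟩
  | insert a A ha ih =>
    obtain ⟨Y, h1, h2, h3⟩ := ih
    by_cases h : ∃ y ∈ Y, R y a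
    · refine ⟨Y, h1.trans (Finset.subset_insert _ _), h2, fun b hb => ?_⟩
      rcases Finset.mem_insert.1 hb with hb | hb
      · rw [hb]
        exact h
      · exact h3 b hb
    · refine ⟨insert a Y, Finset.insert_subset_insert _ h1, fun y hy y' hy' hR => ?_,
        fun b hb => ?_⟩
      · rcases Finset.mem_insert.1 hy with hy | hy
        · rcases Finset.mem_insert.1 hy' with hy' | hy'
          · rw [hy, hy']
          · exact absurd ⟨y', hy', hs _ _ (hy ▸ hR)⟩ h
        · rcases Finset.mem_insert.1 hy' with hy' | hy'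
          · exact absurd ⟨y, hy, hy' ▸ hR⟩ h
          · exact h2 y hy y' hy' hR
      · rcases Finset.mem_insert.1 hb with hb | hb
        · exact ⟨a, Finset.mem_insert_self _ _, hb ▸ hr a⟩
        · obtain ⟨y, hy, hR⟩ := h3 b hb
          exact ⟨y, Finset.mem_insert_of_mem hy, hR⟩

lemma kl_mem {W : WD ι p G} {i : ι} {r : Fin (p i)} {κ : G} :
    κ ∈ KL W i r ↔ κ ∈ W.K i r ∧ κ ∉ W.L i := by
  classical
  unfold KL
  rw [Finset.mem_filter]

lemma upd_swap {i j : ι} (hij : i ≠ j) (x : Pos p) (z : Fin (p i)) (y : Fin (p j)) :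
    Function.update (Function.update x i z) j y = Function.update (Function.update x j y) i z :=
  Function.update_comm hij z y x

/-- the pointwise bound -/
lemma tab_pt {W : WD ι p G} (hW : W.Ok) {i j : ι} (hij : i ≠ j) (x : Pos p) (y : Fin (p j))
    (h : Fin (p i) → G → ℝ) (h0 : ∀ z g, 0 ≤ h z g)
    (h1 : ∀ z g, Lb W j (x j) (h z) g ≤ 1) (g : G) :
    ∑ z, ∑ b ∈ W.K j (x j), h z (g + b) * (∑ κ ∈ KL W i z,
      ind (W.Gd i (Function.update (Function.update x i z) j y)) (g + b + κ)) ≤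
      W.kk * W.m * ((W.L i).card * (W.L j).card) := by
  classical
  have hLi := L_pos W hW i
  have hLj := L_pos W hW j
  let A : Finset G := (((W.K j (x j)) ×ˢ (Finset.univ.biUnion (fun z => KL W i z))).image
    (fun q => g + q.1 + q.2)).filter (fun v => v ∈ W.Ge i (Function.update x j y))
  let R : G → G → Prop := fun u v => ∃ a ∈ W.L i, ∃ b ∈ W.K j y, v = u + a + b
  have hRr : ∀ u, R u u := fun u => ⟨0, hW.L0 i, 0, hW.K0 j y, by simp⟩
  have hRs : ∀ u v, R u v → R v u := by
    rintro u v ⟨a, ha, b, hb, e⟩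
    exact ⟨-a, hW.Ln i a ha, -b, hW.Kn j y b hb, by rw [e]; abel⟩
  obtain ⟨Y, hYA, hY1, hY2⟩ := reps R hRr hRs A
  have hA : ∀ v ∈ A, v ∈ W.Ge i (Function.update x j y) ∧ ∃ b ∈ W.K j (x j), ∃ κ, ∃ z,
      κ ∈ KL W i z ∧ v = g + b + κ := by
    intro v hv
    rw [Finset.mem_filter, Finset.mem_image] at hv
    obtain ⟨⟨q, hq, e⟩, hGe⟩ := hv
    rw [Finset.mem_product, Finset.mem_biUnion] at hq
    obtain ⟨hb, z, _, hκ⟩ := hq
    exact ⟨hGe, q.1, hb, q.2, z, hκ, e.symm⟩
  have hYm : (Y.card : ℝ) ≤ W.m := by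
    refine hW.list2 i j (Function.update x j y) g hij Y ?_ ?_
    · intro v hv
      obtain ⟨hGe, b, hb, κ, z, hκ, e⟩ := hA v (hYA hv)
      refine ⟨hGe, κ, hW.KΓ i z κ (kl_mem.1 hκ).1, b, hW.KΓ j _ b hb, ?_⟩
      rw [e]
      abel
    · intro u hu v hv hR
      rw [Function.update_self] at hR
      exact hY1 u hu v hv hR
  -- the sum over the representatives
  have st1 : ∑ z, ∑ b ∈ W.K j (x j), h z (g + b) * (∑ κ ∈ KL W i z,
      ind (W.Gd i (Function.update (Function.update x i z) j y)) (g + b + κ)) ≤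
      ∑ z, ∑ b ∈ W.K j (x j), h z (g + b) * (∑ κ ∈ KL W i z, ∑ u ∈ Y,
        if R u (g + b + κ) then (1 : ℝ) else 0) := by
    refine Finset.sum_le_sum (fun z _ => Finset.sum_le_sum (fun b hb =>
      mul_le_mul_of_nonneg_left (Finset.sum_le_sum (fun κ hκ => ?_)) (h0 _ _)))
    by_cases hc : g + b + κ ∈ W.Gd i (Function.update (Function.update x i z) j y)
    · rw [ind_pos hc]
      have hc1 : g + b + κ ∈ W.Ge i (Function.update x j y) := by
        have e := hW.Gepos i (Function.update x j y) z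
        rw [← upd_swap hij] at e
        rw [← e]
        exact hW.GdGe i _ hc
      have hc2 : g + b + κ ∈ A := by
        rw [Finset.mem_filter, Finset.mem_image]
        refine ⟨⟨(b, κ), ?_, rfl⟩, hc1⟩
        rw [Finset.mem_product, Finset.mem_biUnion]
        exact ⟨hb, z, Finset.mem_univ _, hκ⟩
      obtain ⟨u, hu, hR⟩ := hY2 _ hc2
      have h2 : (1 : ℝ) = if R u (g + b + κ) then (1 : ℝ) else 0 := by rw [if_pos hR]
      have h3 := Finset.single_le_sum (f := fun u => if R u (g + b + κ) then (1 : ℝ) else 0)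
        (s := Y) (fun u _ => by
          change (0 : ℝ) ≤ if R u (g + b + κ) then (1 : ℝ) else 0
          split_ifs <;> norm_num) hu
      exact le_trans (le_of_eq h2) h3
    · rw [ind_neg hc]
      refine Finset.sum_nonneg (fun u _ => ?_)
      split_ifs <;> norm_num
  have st2 : ∑ z, ∑ b ∈ W.K j (x j), h z (g + b) * (∑ κ ∈ KL W i z, ∑ u ∈ Y,
        if R u (g + b + κ) then (1 : ℝ) else 0) =
      ∑ u ∈ Y, ∑ z, ∑ b ∈ W.K j (x j), h z (g + b) * (∑ κ ∈ KL W i z,
        if R u (g + b + κ) then (1 : ℝ) else 0) := by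
    have e1 : ∀ z, ∀ b, h z (g + b) * (∑ κ ∈ KL W i z, ∑ u ∈ Y,
        if R u (g + b + κ) then (1 : ℝ) else 0) = ∑ u ∈ Y, h z (g + b) * (∑ κ ∈ KL W i z,
        if R u (g + b + κ) then (1 : ℝ) else 0) := by
      intro z b
      rw [Finset.sum_comm, Finset.mul_sum]
    calc ∑ z, ∑ b ∈ W.K j (x j), h z (g + b) * (∑ κ ∈ KL W i z, ∑ u ∈ Y,
        if R u (g + b + κ) then (1 : ℝ) else 0) =
        ∑ z, ∑ b ∈ W.K j (x j), ∑ u ∈ Y, h z (g + b) * (∑ κ ∈ KL W i z,
        if R u (g + b + κ) then (1 : ℝ) else 0) :=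
          Finset.sum_congr rfl (fun z _ => Finset.sum_congr rfl (fun b _ => e1 z b))
      _ = ∑ z, ∑ u ∈ Y, ∑ b ∈ W.K j (x j), h z (g + b) * (∑ κ ∈ KL W i z,
        if R u (g + b + κ) then (1 : ℝ) else 0) :=
          Finset.sum_congr rfl (fun z _ => Finset.sum_comm)
      _ = _ := Finset.sum_comm
  have st3 : ∀ u ∈ Y, ∑ z, ∑ b ∈ W.K j (x j), h z (g + b) * (∑ κ ∈ KL W i z,
        if R u (g + b + κ) then (1 : ℝ) else 0) ≤ W.kk * ((W.L i).card * (W.L j).card) := by
    intro u hu
    obtain ⟨_, b0, hb0, κ0, z0, hκ0, e0⟩ := hA u (hYA hu)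
    have hκ0' := kl_mem.1 hκ0
    have hR0 : ∀ b ∈ W.K j (x j), ∀ z, ∀ κ ∈ KL W i z, R u (g + b + κ) → κ - κ0 ∈ W.L i := by
      intro b hb z κ hκ hR
      obtain ⟨a, ha, b', hb', e⟩ := hR
      have h1 : κ - κ0 - a = b0 - b + b' := by
        rw [e0] at e
        have e' : κ = b0 + κ0 + a + b' - b := by
          have := congrArg (fun v => v - g - b) e
          calc κ = g + b + κ - g - b := by abel
            _ = g + b0 + κ0 + a + b' - g - b := this
            _ = b0 + κ0 + a + b' - b := by abel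
        rw [e']
        abel
      have h2 : κ - κ0 - a ∈ W.Γ i := by
        refine AddSubgroup.sub_mem _ (AddSubgroup.sub_mem _ (hW.KΓ i z κ (kl_mem.1 hκ).1)
          (hW.KΓ i z0 κ0 hκ0'.1)) (hW.KΓ i z a (hW.LK i z ha))
      have h3 : κ - κ0 - a ∈ W.Γ j := by
        rw [h1]
        exact AddSubgroup.add_mem _ (AddSubgroup.sub_mem _ (hW.KΓ j _ b0 hb0) (hW.KΓ j _ b hb))
          (hW.KΓ j _ b' hb')
      have h4 := hW.dis i j hij _ h2 h3
      have h5 : κ - κ0 = a := sub_eq_zero.1 h4
      rw [h5]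
      exact ha
    have c1 : ∀ z, ∀ b ∈ W.K j (x j), (∑ κ ∈ KL W i z, if R u (g + b + κ) then (1 : ℝ) else 0) ≤
        if κ0 ∈ W.K i z then ((W.L i).card : ℝ) else 0 := by
      intro z b hb
      rw [← Finset.sum_filter, Finset.sum_const, nsmul_eq_mul, mul_one]
      split_ifs with hz
      · have : ((KL W i z).filter (fun κ => R u (g + b + κ))).card ≤ (W.L i).card := by
          refine Finset.card_le_card_of_injOn (fun κ => κ - κ0) ?_ ?_
          · intro κ hκ
            rw [Finset.mem_coe, Finset.mem_filter] at hκ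
            exact hR0 b hb z κ hκ.1 hκ.2
          · intro a _ b _ hab
            exact sub_left_injective hab
        exact_mod_cast this
      · have : (KL W i z).filter (fun κ => R u (g + b + κ)) = ∅ := by
          rw [Finset.filter_eq_empty_iff]
          intro κ hκ hR
          apply hz
          have h6 := hR0 b hb z κ hκ hR
          have h7 := hW.Ka i z κ (kl_mem.1 hκ).1 _ (hW.Kn i z _ (hW.LK i z h6))
          have e : κ + -(κ - κ0) = κ0 := by abel
          rwa [e] at h7
        rw [this, Finset.card_empty, Nat.cast_zero]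
    have c2 : ∀ z, ∑ b ∈ W.K j (x j), h z (g + b) ≤ (W.L j).card := by
      intro z
      have := h1 z g
      unfold Lb at this
      rwa [inv_mul_le_iff₀ hLj, mul_one] at this
    have c3 : ∀ z, ∑ b ∈ W.K j (x j), h z (g + b) * (∑ κ ∈ KL W i z,
        if R u (g + b + κ) then (1 : ℝ) else 0) ≤
        if κ0 ∈ W.K i z then ((W.L i).card * (W.L j).card : ℝ) else 0 := by
      intro z
      calc ∑ b ∈ W.K j (x j), h z (g + b) * (∑ κ ∈ KL W i z,
          if R u (g + b + κ) then (1 : ℝ) else 0) ≤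
          ∑ b ∈ W.K j (x j), h z (g + b) * (if κ0 ∈ W.K i z then ((W.L i).card : ℝ) else 0) :=
            Finset.sum_le_sum (fun b hb => mul_le_mul_of_nonneg_left (c1 z b hb) (h0 _ _))
        _ = (∑ b ∈ W.K j (x j), h z (g + b)) * (if κ0 ∈ W.K i z then ((W.L i).card : ℝ) else 0) := by
            rw [Finset.sum_mul]
        _ ≤ (W.L j).card * (if κ0 ∈ W.K i z then ((W.L i).card : ℝ) else 0) := by
            refine mul_le_mul_of_nonneg_right (c2 z) ?_
            split_ifs <;> positivity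
        _ = if κ0 ∈ W.K i z then ((W.L i).card * (W.L j).card : ℝ) else 0 := by
            split_ifs <;> ring
    calc ∑ z, ∑ b ∈ W.K j (x j), h z (g + b) * (∑ κ ∈ KL W i z,
        if R u (g + b + κ) then (1 : ℝ) else 0) ≤
        ∑ z, if κ0 ∈ W.K i z then ((W.L i).card * (W.L j).card : ℝ) else 0 :=
          Finset.sum_le_sum (fun z _ => c3 z)
      _ = ((Finset.univ.filter (fun z => κ0 ∈ W.K i z)).card : ℝ) *
          ((W.L i).card * (W.L j).card) := by
          rw [← Finset.sum_filter, Finset.sum_const, nsmul_eq_mul]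
      _ ≤ W.kk * ((W.L i).card * (W.L j).card) := by
          refine mul_le_mul_of_nonneg_right ?_ (by positivity)
          exact hW.sep i κ0 (hW.KΓ i z0 κ0 hκ0'.1) hκ0'.2 _
            (fun r hr => (Finset.mem_filter.1 hr).2)
  refine st1.trans ?_
  rw [st2]
  calc ∑ u ∈ Y, ∑ z, ∑ b ∈ W.K j (x j), h z (g + b) * (∑ κ ∈ KL W i z,
        if R u (g + b + κ) then (1 : ℝ) else 0) ≤
      ∑ _u ∈ Y, W.kk * ((W.L i).card * (W.L j).card) := Finset.sum_le_sum st3
    _ = (Y.card : ℝ) * (W.kk * ((W.L i).card * (W.L j).card)) := by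
        rw [Finset.sum_const, nsmul_eq_mul]
    _ ≤ W.m * (W.kk * ((W.L i).card * (W.L j).card)) :=
        mul_le_mul_of_nonneg_right hYm (mul_nonneg hW.hk (by positivity))
    _ = W.kk * W.m * ((W.L i).card * (W.L j).card) := by ring

theorem pf_TAB : T_TAB := by
  classical
  intro ι _ _ p G _ W hW i j hij x y h h0 _ h1
  have hLi := L_pos W hW i
  have hLj := L_pos W hW j
  have hkm : 0 ≤ W.kk * W.m := mul_nonneg hW.hk (le_trans zero_le_one hW.hm)
  let a : Fin (p i) → G → ℝ := fun z g => h z g * ind (W.Gd i (Function.update x i z)) g *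
      (((W.L i).card : ℝ)⁻¹ * ∑ κ ∈ KL W i z,
        ind (W.Gd i (Function.update (Function.update x i z) j y)) (g + κ))
  have s1 : ∀ z, avT W (a z) * W.N j = avT W (Lb W j (x j) (a z)) := by
    intro z
    rw [ave_lb W hW]
    ring
  have s2 : ∑ z, avT W (a z) * W.N j = avT W (fun g => ∑ z, Lb W j (x j) (a z) g) := by
    rw [ave_sum]
    exact Finset.sum_congr rfl (fun z _ => s1 z)
  change ∑ z, avT W (a z) * W.N j ≤ _
  rw [s2, ← ave_smul]
  refine ave_mono W _ _ (fun g => ?_)
  by_cases hg : g ∈ W.Ge i x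
  · rw [ind_pos hg, mul_one]
    have h2 := tab_pt hW hij x y h h0 h1 g
    have h3 : ∑ z, Lb W j (x j) (a z) g ≤ ((W.L j).card : ℝ)⁻¹ * (((W.L i).card : ℝ)⁻¹ *
        ∑ z, ∑ b ∈ W.K j (x j), h z (g + b) * (∑ κ ∈ KL W i z,
        ind (W.Gd i (Function.update (Function.update x i z) j y)) (g + b + κ))) := by
      unfold Lb
      rw [← Finset.mul_sum]
      refine mul_le_mul_of_nonneg_left ?_ (by positivity)
      rw [Finset.mul_sum]
      refine Finset.sum_le_sum (fun z _ => ?_)
      rw [Finset.mul_sum]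
      refine Finset.sum_le_sum (fun b _ => ?_)
      have e1 := ind_le_one (W.Gd i (Function.update x i z)) (g + b)
      have e2 := ind_nonneg (W.Gd i (Function.update x i z)) (g + b)
      have e3 : 0 ≤ ∑ κ ∈ KL W i z,
        ind (W.Gd i (Function.update (Function.update x i z) j y)) (g + b + κ) :=
        Finset.sum_nonneg (fun κ _ => ind_nonneg _ _)
      calc a z (g + b) = ind (W.Gd i (Function.update x i z)) (g + b) *
          (((W.L i).card : ℝ)⁻¹ * (h z (g + b) * ∑ κ ∈ KL W i z,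
          ind (W.Gd i (Function.update (Function.update x i z) j y)) (g + b + κ))) := by
            change h z (g + b) * ind (W.Gd i (Function.update x i z)) (g + b) *
              (((W.L i).card : ℝ)⁻¹ * ∑ κ ∈ KL W i z,
              ind (W.Gd i (Function.update (Function.update x i z) j y)) (g + b + κ)) = _
            ring
        _ ≤ 1 * (((W.L i).card : ℝ)⁻¹ * (h z (g + b) * ∑ κ ∈ KL W i z,
          ind (W.Gd i (Function.update (Function.update x i z) j y)) (g + b + κ))) :=
            mul_le_mul_of_nonneg_right e1 (mul_nonneg (by positivity)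
              (mul_nonneg (h0 _ _) e3))
        _ = _ := one_mul _
    refine h3.trans ?_
    rw [inv_mul_le_iff₀ hLj, inv_mul_le_iff₀ hLi]
    refine h2.trans (le_of_eq ?_)
    ring
  · rw [ind_neg hg, mul_zero]
    refine le_of_eq (Finset.sum_eq_zero (fun z _ => ?_))
    unfold Lb
    have h4 : ∀ b ∈ W.K j (x j), a z (g + b) = 0 := by
      intro b hb
      have h5 : g + b ∉ W.Gd i (Function.update x i z) := by
        intro hc
        have h6 := hW.GdGe i _ hc
        rw [hW.Gepos i x z] at h6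
        exact hg ((Ge_iff hW x hij hb g).1 h6)
      change h z (g + b) * ind (W.Gd i (Function.update x i z)) (g + b) * _ = 0
      rw [ind_neg h5, mul_zero, zero_mul]
    rw [Finset.sum_eq_zero h4, mul_zero]

end Pool.Agent.H26.EW
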