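import Pool.Agent.H26.EWR.TAB

/-!
# Finite worlds of lines: pairs of lines with different labels
-/

set_option autoImplicit false
set_option linter.unusedSectionVars false

open Finset

namespace Pool.Agent.H26.EW

variable {ι : Type} [Fintype ι] [DecidableEq ι] {p : ι → ℕ} {G : Type} [AddCommGroup G]

lemma fr_ave {W : WD ι p G} (hW : W.Ok) (i : ι) (c₁ c₂ : Pos p) (H : G → ℝ)
    (hH : ∀ κ ∈ W.K i (c₁ i), ∀ g, H (g + κ) = H g) :
    avT W (fun g => H g * FR W i c₁ c₂ g) =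
      W.N i * avT W (fun g => H g * ind (W.Gd i c₁) g * (((W.L i).card : ℝ)⁻¹ *
        ∑ κ ∈ KL W i (c₁ i), ind (W.Gd i c₂) (g + κ))) := by
  classical
  have hL := L_pos W hW i
  set a : ℝ := ((W.L i).card : ℝ)⁻¹ with ha
  let B : G → ℝ := fun d => avT W (fun g => H g * ind (W.Gd i c₁) g * ind (W.Gd i c₂) (g + d))
  have e1 : avT W (fun g => H g * FR W i c₁ c₂ g) = a ^ 2 * ∑ κ ∈ W.K i (c₁ i),
      ∑ κ' ∈ W.K i (c₁ i), avT W (fun g => if κ' - κ ∈ W.L i then 0 else
        H g * (ind (W.Gd i c₁) (g + κ) * ind (W.Gd i c₂) (g + κ'))) := by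
    have h1 : (fun g => H g * FR W i c₁ c₂ g) = fun g => a ^ 2 * ∑ κ ∈ W.K i (c₁ i),
        ∑ κ' ∈ W.K i (c₁ i), (if κ' - κ ∈ W.L i then 0 else
          H g * (ind (W.Gd i c₁) (g + κ) * ind (W.Gd i c₂) (g + κ'))) := by
      funext g
      rw [fr_eq]
      unfold OP
      rw [← ha, Finset.mul_sum, Finset.mul_sum, Finset.mul_sum]
      refine Finset.sum_congr rfl (fun κ _ => ?_)
      rw [Finset.mul_sum, Finset.mul_sum, Finset.mul_sum]
      refine Finset.sum_congr rfl (fun κ' _ => ?_)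
      split_ifs <;> ring
    rw [h1, ave_smul, ave_sum]
    congr 1
    exact Finset.sum_congr rfl (fun κ _ => ave_sum W _ _)
  have e2 : ∀ κ ∈ W.K i (c₁ i), ∀ κ' ∈ W.K i (c₁ i), avT W (fun g => if κ' - κ ∈ W.L i then 0 else
        H g * (ind (W.Gd i c₁) (g + κ) * ind (W.Gd i c₂) (g + κ'))) =
      if κ' - κ ∈ W.L i then 0 else B (κ' - κ) := by
    intro κ hκ κ' _
    split_ifs with h
    · unfold avT
      simp
    · have h2 := ave_tr W hW i (-κ) ((W.Γ i).neg_mem (hW.KΓ i _ κ hκ)) (fun g =>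
        H g * (ind (W.Gd i c₁) (g + κ) * ind (W.Gd i c₂) (g + κ')))
      rw [← h2]
      change avT W _ = avT W _
      congr 1
      funext g
      rw [hH (-κ) (hW.Kn i _ κ hκ) g]
      have f1 : g + -κ + κ = g := by abel
      have f2 : g + -κ + κ' = g + (κ' - κ) := by abel
      rw [f1, f2, mul_assoc]
  have e3 : ∀ κ ∈ W.K i (c₁ i), ∑ κ' ∈ W.K i (c₁ i), (if κ' - κ ∈ W.L i then 0 else B (κ' - κ)) =
      ∑ d ∈ KL W i (c₁ i), B d := by
    intro κ hκ
    have h1 : ∑ κ' ∈ W.K i (c₁ i), (if κ' - κ ∈ W.L i then 0 else B (κ' - κ)) =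
        ∑ κ' ∈ (W.K i (c₁ i)).filter (fun κ' => κ' - κ ∉ W.L i), B (κ' - κ) := by
      rw [Finset.sum_filter]
      refine Finset.sum_congr rfl (fun κ' _ => ?_)
      split_ifs <;> rfl
    rw [h1]
    refine Finset.sum_nbij' (fun κ' => κ' - κ) (fun d => d + κ) ?_ ?_ ?_ ?_ ?_
    · intro κ' hκ'
      rw [Finset.mem_filter] at hκ'
      rw [kl_mem]
      refine ⟨?_, hκ'.2⟩
      rw [sub_eq_add_neg]
      exact hW.Ka i _ κ' hκ'.1 _ (hW.Kn i _ κ hκ)
    · intro d hd
      rw [kl_mem] at hd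
      rw [Finset.mem_filter, add_sub_cancel_right]
      exact ⟨hW.Ka i _ d hd.1 κ hκ, hd.2⟩
    · intro κ' _
      abel
    · intro d _
      abel
    · intro κ' _
      rfl
  rw [e1, Finset.sum_congr rfl (fun κ hκ => Finset.sum_congr rfl (fun κ' hκ' => e2 κ hκ κ' hκ')),
    Finset.sum_congr rfl e3, Finset.sum_const, nsmul_eq_mul, hW.card i (c₁ i)]
  have e4 : avT W (fun g => H g * ind (W.Gd i c₁) g * (a *
        ∑ κ ∈ KL W i (c₁ i), ind (W.Gd i c₂) (g + κ))) = a * ∑ d ∈ KL W i (c₁ i), B d := by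
    have h1 : (fun g => H g * ind (W.Gd i c₁) g * (a *
        ∑ κ ∈ KL W i (c₁ i), ind (W.Gd i c₂) (g + κ))) = fun g => a * ∑ κ ∈ KL W i (c₁ i),
          (H g * ind (W.Gd i c₁) g * ind (W.Gd i c₂) (g + κ)) := by
      funext g
      rw [← Finset.mul_sum]
      ring
    rw [h1, ave_smul, ave_sum]
  rw [e4, ha]
  field_simp

theorem tfr {W : WD ι p G} (hW : W.Ok) (hTAB : T_TAB) {i j : ι} (hij : i ≠ j) (x : Pos p)
    (y : Fin (p j)) (h : Fin (p i) → G → ℝ) (h0 : ∀ z g, 0 ≤ h z g)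
    (hK : ∀ z g, ∀ κ ∈ W.K i z, h z (g + κ) = h z g) (h1 : ∀ z g, Lb W j (x j) (h z) g ≤ 1) :
    W.N j * ((p i : ℝ)⁻¹ * ∑ z : Fin (p i), avT W (fun g => h z g *
      FR W i (Function.update x i z) (Function.update (Function.update x i z) j y) g)) ≤
      W.kk * W.m / p i * (W.N i * avT W (ind (W.Ge i x))) := by
  have h2 := hTAB ι p G W hW i j hij x y h h0 (fun z g κ hκ => hK z g κ (hW.LK i z hκ)) h1
  have e1 : ∀ z : Fin (p i), avT W (fun g => h z g *
      FR W i (Function.update x i z) (Function.update (Function.update x i z) j y) g) =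
      W.N i * avT W (fun g => h z g * ind (W.Gd i (Function.update x i z)) g *
      (((W.L i).card : ℝ)⁻¹ * ∑ κ ∈ KL W i z,
        ind (W.Gd i (Function.update (Function.update x i z) j y)) (g + κ))) := by
    intro z
    have h3 := fr_ave hW i (Function.update x i z)
      (Function.update (Function.update x i z) j y) (h z) (fun κ hκ g => by
        rw [Function.update_self] at hκ
        exact hK z g κ hκ)
    rw [Function.update_self] at h3
    exact h3
  rw [Finset.sum_congr rfl (fun z _ => e1 z), ← Finset.mul_sum]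
  rw [← Finset.sum_mul] at h2
  have hp : (0 : ℝ) ≤ (p i : ℝ)⁻¹ := by positivity
  have hN := hW.hN i
  calc W.N j * ((p i : ℝ)⁻¹ * (W.N i * ∑ z, avT W (fun g => h z g *
      ind (W.Gd i (Function.update x i z)) g * (((W.L i).card : ℝ)⁻¹ * ∑ κ ∈ KL W i z,
        ind (W.Gd i (Function.update (Function.update x i z) j y)) (g + κ))))) =
      ((p i : ℝ)⁻¹ * W.N i) * ((∑ z, avT W (fun g => h z g *
      ind (W.Gd i (Function.update x i z)) g * (((W.L i).card : ℝ)⁻¹ * ∑ κ ∈ KL W i z,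
        ind (W.Gd i (Function.update (Function.update x i z) j y)) (g + κ)))) * W.N j) := by ring
    _ ≤ ((p i : ℝ)⁻¹ * W.N i) * (W.kk * W.m * avT W (ind (W.Ge i x))) :=
        mul_le_mul_of_nonneg_left h2 (mul_nonneg hp hN)
    _ = _ := by
        rw [div_eq_mul_inv]
        ring

theorem pf_TFR : T_TFR := by
  intro ι _ _ p G _ W hW i j hij x y h h0 hK h1
  exact tfr hW pf_TAB hij x y h h0 hK h1

end Pool.Agent.H26.EW
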