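import Pool.Agent.H26.EWR.LAD

/-!
# Finite worlds of lines: pairs of walks with the same beginning
-/

set_option autoImplicit false
set_option linter.unusedSectionVars false

open Finset

namespace Pool.Agent.H26.EW

variable {ι : Type} [Fintype ι] [DecidableEq ι] {p : ι → ℕ} {G : Type} [AddCommGroup G]

lemma mx_snoc {i : ι} {J : List ι} (hi : i ∉ J) (z t : Pos p) :
    mx (J ++ [i]) z t = Function.update (mx J z t) i (t i) := by
  rw [← mx_cons' hi z t]
  funext j
  unfold mx
  have h : j ∈ J ++ [i] ↔ j ∈ i :: J := by
    simp only [List.mem_append, List.mem_cons, List.not_mem_nil, or_false]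
    tauto
  by_cases hj : j ∈ i :: J
  · rw [if_pos hj, if_pos (h.2 hj)]
  · rw [if_neg hj, if_neg (fun h' => hj (h.1 h'))]

lemma wk_snoc {W : WD ι p G} (hW : W.Ok) {i : ι} {J : List ι} (hJ : (J ++ [i]).Nodup)
    (x s : Pos p) (g : G) : wk W (J ++ [i]) x s g = wk W J x s g *
      (ind (W.Gd i (mx J x s)) g * ind (W.Gd i (Function.update (mx J x s) i (s i))) g) := by
  unfold wk
  rw [← ind_inter, ← ind_inter]
  refine ind_congr ?_
  have h1 := wk_app hW [i] J x s g hJ
  constructor
  · intro h
    obtain ⟨a, b, c, _⟩ := h1.1 h
    exact ⟨a, b, c⟩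
  · rintro ⟨a, b, c⟩
    exact h1.2 ⟨a, b, c, hW.GdV i _ c⟩

lemma nl_snoc (W : WD ι p G) (i : ι) (l : List ι) : Nl W (l ++ [i]) = Nl W l * W.N i := by
  unfold Nl
  rw [List.map_append, List.prod_append]
  simp

lemma nl_rev (W : WD ι p G) (l : List ι) : Nl W l.reverse = Nl W l := by
  unfold Nl
  rw [List.map_reverse, List.prod_reverse]

lemma fr_nonneg (W : WD ι p G) (i : ι) (c₁ c₂ : Pos p) (g : G) : 0 ≤ FR W i c₁ c₂ g := by
  rw [fr_eq]
  exact (op_mono W i (c₁ i) _ (ind (W.Gd i c₁)) _ (ind (W.Gd i c₂))
    (fun g => ⟨ind_nonneg _ g, le_refl _⟩) (fun g => ⟨ind_nonneg _ g, le_refl _⟩) g).1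

/-- the part of the foreign lines -/
lemma vpr_fr {W : WD ι p G} (hW : W.Ok) (P v : ℝ) (hP : 0 < P) (hv : 0 < v)
    (hPp : ∀ i, P ≤ p i) (pre : List ι) (i : ι) (hpre : pre.Nodup) (hi : i ∉ pre) :
    Nl W pre * (avP fun x => avP fun s => avP fun r => avT W (fun g =>
      wk W pre x s g * wk W pre x r g * FR W i (mx pre x s) (mx pre x r) g)) ≤
      (W.kk * W.m / P + v) * ee W i +
        1 / v * (pre.map fun i => W.kk * W.m / P * ee W i).sum := by
  have hN := hW.hN i
  have hNl := nl_nonneg hW pre
  have hone : ∀ x s r, avT W (fun g =>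
      wk W pre x s g * wk W pre x r g * FR W i (mx pre x s) (mx pre x r) g) ≤
      W.N i * avT W (fun g => wk W pre x s g * ind (W.Gd i (mx pre x s)) g *
        ind (For W i (mx pre x r)) g) := by
    intro x s r
    have h1 : avT W (fun g =>
        wk W pre x s g * wk W pre x r g * FR W i (mx pre x s) (mx pre x r) g) ≤
        avT W (fun g => wk W pre x s g * FR W i (mx pre x s) (mx pre x r) g) := by
      refine ave_mono W _ _ (fun g => ?_)
      have h2 : wk W pre x s g * wk W pre x r g ≤ wk W pre x s g := by
        have := mul_le_mul_of_nonneg_left (ind_le_one {g | Wk W pre x r g} g)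
          (ind_nonneg {g | Wk W pre x s g} g)
        rwa [mul_one] at this
      exact mul_le_mul_of_nonneg_right h2 (fr_nonneg W i _ _ g)
    have h3 := fr_ave hW i (mx pre x s) (mx pre x r) (wk W pre x s) (fun κ hκ g => by
      rw [mx_out hi] at hκ
      exact ind_congr (wk_Kiff hW pre x s g hi hκ))
    rw [h3] at h1
    refine h1.trans (mul_le_mul_of_nonneg_left (ave_mono W _ _ (fun g => ?_)) hN)
    refine mul_le_mul_of_nonneg_left ?_ (mul_nonneg (ind_nonneg _ g) (ind_nonneg _ g))
    have h4 := kl_for hW i (mx pre x r) g
    rw [mx_out hi] at h4 ⊢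
    exact h4
  have hlad := lad hW P v hP hv hPp i pre.reverse (List.nodup_reverse.2 hpre)
    (fun h => hi (List.mem_reverse.1 h))
  rw [nl_rev, List.map_reverse, List.sum_reverse] at hlad
  refine le_trans ?_ hlad
  have hsw := ave_swap (p := p) pre (fun z t => avP fun r => avT W (fun g =>
    wk W pre.reverse z t g * ind (W.Gd i z) g * ind (For W i (mx pre z r)) g)) ?_
  · have e1 : (avP fun z => avP fun t => avP fun s => avT W (fun g =>
        wk W pre.reverse z t g * ind (W.Gd i z) g * ind (For W i (mx pre.reverse z s)) g)) =
        avP fun x => avP fun s => avP fun r => avT W (fun g => wk W pre x s g *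
          ind (W.Gd i (mx pre x s)) g * ind (For W i (mx pre x r)) g) := by
      have e2 : (avP fun z => avP fun t => avP fun s => avT W (fun g =>
          wk W pre.reverse z t g * ind (W.Gd i z) g * ind (For W i (mx pre.reverse z s)) g)) =
          avP fun z => avP fun t => avP fun s => avT W (fun g =>
          wk W pre.reverse z t g * ind (W.Gd i z) g * ind (For W i (mx pre z s)) g) := by
        congr 1
        funext z
        congr 1
        funext t
        congr 1
        funext s
        rw [mx_rev]
      rw [e2, ← hsw]
      congr 1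
      funext x
      congr 1
      funext s
      congr 1
      funext r
      congr 1
      funext g
      have f1 : wk W pre.reverse (mx pre x s) x g = wk W pre x s g :=
        ind_congr (wk_rev hW pre x s g hpre).symm
      have f2 : mx pre (mx pre x s) r = mx pre x r := by
        funext j
        unfold mx
        by_cases hj : j ∈ pre
        · simp [hj]
        · simp [hj]
      rw [f1, f2]
    rw [e1]
    calc Nl W pre * (avP fun x => avP fun s => avP fun r => avT W (fun g =>
        wk W pre x s g * wk W pre x r g * FR W i (mx pre x s) (mx pre x r) g)) ≤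
        Nl W pre * (avP fun x => avP fun s => avP fun r => (W.N i * avT W (fun g =>
          wk W pre x s g * ind (W.Gd i (mx pre x s)) g * ind (For W i (mx pre x r)) g))) :=
          mul_le_mul_of_nonneg_left (avP_mono _ _ (fun x => avP_mono _ _ (fun s =>
            avP_mono _ _ (fun r => hone x s r)))) hNl
      _ = _ := by
          have e3 : (avP fun x => avP fun s => avP fun r => (W.N i * avT W (fun g =>
            wk W pre x s g * ind (W.Gd i (mx pre x s)) g * ind (For W i (mx pre x r)) g))) =
            W.N i * (avP fun x => avP fun s => avP fun r => avT W (fun g =>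
            wk W pre x s g * ind (W.Gd i (mx pre x s)) g * ind (For W i (mx pre x r)) g)) := by
            rw [← avP_smul]
            congr 1
            funext x
            rw [← avP_smul]
            congr 1
            funext s
            rw [← avP_smul]
          rw [e3]
          ring
  · intro z t t' h
    congr 1
    funext r
    congr 1
    funext g
    have f1 : wk W pre.reverse z t g = wk W pre.reverse z t' g :=
      ind_congr (wk_t pre.reverse z t t' g (fun j hj => h j (List.mem_reverse.1 hj)))
    rw [f1]

theorem vpr {W : WD ι p G} (hW : W.Ok) (P v : ℝ) (hP : 0 < P) (hv : 0 < v)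
    (hPp : ∀ i, P ≤ p i) (l : List ι) : ∀ pre : List ι, (pre ++ l).Nodup →
    Nl W pre * (avP fun x => avP fun s => avP fun r => avT W (fun g =>
      wk W pre x s g * wk W pre x r g * OD W l x (wk W l (mx pre x s) s)
        (wk W l (mx pre x r) r) g)) ≤
      (W.kk * W.m / P + v) * (l.map (ee W)).sum +
        l.length * (W.kk * W.m / (P * v)) * ((pre ++ l).map (ee W)).sum := by
  have hkm : 0 ≤ W.kk * W.m := mul_nonneg hW.hk (le_trans zero_le_one hW.hm)
  have hee : ∀ l : List ι, 0 ≤ (l.map (ee W)).sum := fun l => List.sum_nonneg (fun a ha => by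
    obtain ⟨i, _, e⟩ := List.mem_map.1 ha
    rw [← e]
    exact ee_nonneg hW i)
  induction l with
  | nil =>
    intro pre _
    have h1 : ∀ x s r, avT W (fun g =>
        wk W pre x s g * wk W pre x r g * OD W [] x (wk W [] (mx pre x s) s)
        (wk W [] (mx pre x r) r) g) = 0 := by
      intro x s r
      unfold OD SL avT
      simp
    simp only [h1]
    unfold avP
    simp
  | cons i l ih =>
    intro pre hpl
    have hpre : pre.Nodup := (List.nodup_append.1 hpl).1
    have hnd : (i :: l).Nodup := (List.nodup_append.1 hpl).2.1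
    have hdis : ∀ j ∈ pre, ∀ j' ∈ i :: l, j ≠ j' := (List.nodup_append.1 hpl).2.2
    have hi : i ∉ pre := fun h => hdis i h i List.mem_cons_self rfl
    have hpl' : ((pre ++ [i]) ++ l).Nodup := by
      rw [List.append_assoc]
      exact hpl
    have hpi : (pre ++ [i]).Nodup := (List.nodup_append.1 hpl').1
    have hrec := ih (pre ++ [i]) hpl'
    have hfr := vpr_fr hW P v hP hv hPp pre i hpre hi
    have hN := hW.hN i
    have hNl := nl_nonneg hW pre
    have step : ∀ x s r, avT W (fun g => wk W pre x s g * wk W pre x r g *
        OD W (i :: l) x (wk W (i :: l) (mx pre x s) s) (wk W (i :: l) (mx pre x r) r) g) ≤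
        avT W (fun g => wk W pre x s g * wk W pre x r g * FR W i (mx pre x s) (mx pre x r) g) +
        W.N i * avT W (fun g => wk W (pre ++ [i]) x s g * wk W (pre ++ [i]) x r g *
          OD W l x (wk W l (mx (pre ++ [i]) x s) s) (wk W l (mx (pre ++ [i]) x r) r) g) := by
      intro x s r
      have hc : ∀ j ∈ i :: l, mx pre x s j = x j ∧ mx pre x r j = x j := by
        intro j hj
        have h1 : j ∉ pre := fun h => hdis j h j hj rfl
        exact ⟨mx_out h1 x s, mx_out h1 x r⟩
      have h1 := pf_ODR ι p G W hW i l hnd x (mx pre x s) (mx pre x r) s r hc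
      have e1 : Function.update (mx pre x s) i (s i) = mx (pre ++ [i]) x s := (mx_snoc hi x s).symm
      have e2 : Function.update (mx pre x r) i (r i) = mx (pre ++ [i]) x r := (mx_snoc hi x r).symm
      have hA : ∀ g, ∀ κ ∈ W.K i (x i), (fun g => wk W pre x s g * wk W pre x r g) (g + κ) =
          (fun g => wk W pre x s g * wk W pre x r g) g := by
        intro g κ hκ
        have k1 : wk W pre x s (g + κ) = wk W pre x s g := ind_congr (wk_Kiff hW pre x s g hi hκ)
        have k2 : wk W pre x r (g + κ) = wk W pre x r g := ind_congr (wk_Kiff hW pre x r g hi hκ)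
        change wk W pre x s (g + κ) * wk W pre x r (g + κ) = _
        rw [k1, k2]
      have h3 := ave_lbH W hW i (x i) (fun g => ind (W.Gd i (mx pre x s)) g *
          ind (W.Gd i (Function.update (mx pre x s) i (s i))) g *
            (ind (W.Gd i (mx pre x r)) g *
              ind (W.Gd i (Function.update (mx pre x r) i (r i))) g) *
            OD W l x (wk W l (Function.update (mx pre x s) i (s i)) s)
              (wk W l (Function.update (mx pre x r) i (r i)) r) g)
          (fun g => wk W pre x s g * wk W pre x r g) hA
      calc avT W (fun g => wk W pre x s g * wk W pre x r g *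
          OD W (i :: l) x (wk W (i :: l) (mx pre x s) s) (wk W (i :: l) (mx pre x r) r) g) ≤
          avT W (fun g => wk W pre x s g * wk W pre x r g * FR W i (mx pre x s) (mx pre x r) g +
            (fun g => wk W pre x s g * wk W pre x r g) g *
            Lb W i (x i) (fun g => ind (W.Gd i (mx pre x s)) g *
          ind (W.Gd i (Function.update (mx pre x s) i (s i))) g *
            (ind (W.Gd i (mx pre x r)) g *
              ind (W.Gd i (Function.update (mx pre x r) i (r i))) g) *
            OD W l x (wk W l (Function.update (mx pre x s) i (s i)) s)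
              (wk W l (Function.update (mx pre x r) i (r i)) r) g) g) := by
            refine ave_mono W _ _ (fun g => ?_)
            have h4 : 0 ≤ wk W pre x s g * wk W pre x r g :=
              mul_nonneg (ind_nonneg _ g) (ind_nonneg _ g)
            have h5 := mul_le_mul_of_nonneg_left (h1 g) h4
            rw [mul_add] at h5
            exact h5
        _ = _ := by
            rw [ave_add, h3]
            congr 2
            refine congrArg (avT W) (funext fun g => ?_)
            rw [wk_snoc hW hpi x s g, wk_snoc hW hpi x r g, e1, e2]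
            ring
    have hsum : Nl W pre * (avP fun x => avP fun s => avP fun r => avT W (fun g =>
        wk W pre x s g * wk W pre x r g * OD W (i :: l) x (wk W (i :: l) (mx pre x s) s)
        (wk W (i :: l) (mx pre x r) r) g)) ≤
        Nl W pre * (avP fun x => avP fun s => avP fun r => avT W (fun g =>
          wk W pre x s g * wk W pre x r g * FR W i (mx pre x s) (mx pre x r) g)) +
        Nl W (pre ++ [i]) * (avP fun x => avP fun s => avP fun r => avT W (fun g =>
          wk W (pre ++ [i]) x s g * wk W (pre ++ [i]) x r g *
          OD W l x (wk W l (mx (pre ++ [i]) x s) s) (wk W l (mx (pre ++ [i]) x r) r) g)) := by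
      refine le_trans (mul_le_mul_of_nonneg_left (avP_mono _ _ (fun x => avP_mono _ _ (fun s =>
        avP_mono _ _ (fun r => step x s r)))) hNl) (le_of_eq ?_)
      have e1 : (avP fun x => avP fun s => avP fun r => (
          avT W (fun g => wk W pre x s g * wk W pre x r g * FR W i (mx pre x s) (mx pre x r) g) +
          W.N i * avT W (fun g => wk W (pre ++ [i]) x s g * wk W (pre ++ [i]) x r g *
          OD W l x (wk W l (mx (pre ++ [i]) x s) s) (wk W l (mx (pre ++ [i]) x r) r) g))) =
          (avP fun x => avP fun s => avP fun r =>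
          avT W (fun g => wk W pre x s g * wk W pre x r g *
            FR W i (mx pre x s) (mx pre x r) g)) +
          W.N i * (avP fun x => avP fun s => avP fun r =>
          avT W (fun g => wk W (pre ++ [i]) x s g * wk W (pre ++ [i]) x r g *
          OD W l x (wk W l (mx (pre ++ [i]) x s) s) (wk W l (mx (pre ++ [i]) x r) r) g)) := by
        rw [← avP_smul, ← avP_add]
        congr 1
        funext x
        rw [← avP_smul, ← avP_add]
        congr 1
        funext s
        rw [← avP_smul, ← avP_add]
      rw [e1, nl_snoc]
      ring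
    refine hsum.trans ((add_le_add hfr hrec).trans ?_)
    have e2 : (pre.map fun i => W.kk * W.m / P * ee W i).sum =
        W.kk * W.m / P * (pre.map (ee W)).sum := by
      rw [List.sum_map_mul_left]
    have e3 : ((pre ++ [i] ++ l).map (ee W)).sum = ((pre ++ i :: l).map (ee W)).sum := by
      rw [List.append_assoc]
      rfl
    have e4 : ((pre ++ i :: l).map (ee W)).sum = (pre.map (ee W)).sum +
        ((i :: l).map (ee W)).sum := by
      rw [List.map_append, List.sum_append]
    have e5 : ((i :: l).map (ee W)).sum = ee W i + (l.map (ee W)).sum := by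
      rw [List.map_cons, List.sum_cons]
    have e6 : ((i :: l).length : ℝ) = l.length + 1 := by
      rw [List.length_cons]
      push_cast
      ring
    have e7 : 1 / v * (W.kk * W.m / P * (pre.map (ee W)).sum) =
        W.kk * W.m / (P * v) * (pre.map (ee W)).sum := by
      field_simp
    rw [e2, e3, e6, e5, e7]
    have h8 : W.kk * W.m / (P * v) * (pre.map (ee W)).sum ≤
        W.kk * W.m / (P * v) * ((pre ++ i :: l).map (ee W)).sum := by
      refine mul_le_mul_of_nonneg_left ?_ (by positivity)
      rw [e4]
      linarith [hee (i :: l)]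
    have h9 : ((l.length : ℝ) + 1) * (W.kk * W.m / (P * v)) * ((pre ++ i :: l).map (ee W)).sum =
        (l.length : ℝ) * (W.kk * W.m / (P * v)) * ((pre ++ i :: l).map (ee W)).sum +
        W.kk * W.m / (P * v) * ((pre ++ i :: l).map (ee W)).sum := by ring
    rw [h9]
    linarith

theorem pf_VPR : T_VPR := by
  intro ι _ _ p G _ W hW P v hP hv hPp l hl
  have h := vpr hW P v hP hv hPp l [] (by simpa using hl)
  have e1 : Nl W ([] : List ι) = 1 := by simp [Nl]
  have hsum : 0 ≤ (l.map (ee W)).sum := List.sum_nonneg (fun a ha => by
    obtain ⟨i, _, e⟩ := List.mem_map.1 ha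
    rw [← e]
    exact ee_nonneg hW i)
  have hv0 : ∀ (x s : Pos p) (g : G), OD W l x (wk W l x s) (wk W l x s) g = OD W l x (wk W l x s) (wk W l x s) g :=
    fun _ _ _ => rfl
  have hpt : ∀ x s r, avT W (OD W l x (wk W l x s) (wk W l x r)) =
      avT W (fun g => wk W [] x s g * wk W [] x r g * OD W l x (wk W l (mx [] x s) s)
        (wk W l (mx [] x r) r) g) := by
    intro x s r
    congr 1
    funext g
    rw [mx_nil, mx_nil]
    by_cases hg : g ∈ W.V x
    · have k1 : wk W [] x s g = 1 := ind_pos (A := {g | Wk W [] x s g}) hg
      have k2 : wk W [] x r g = 1 := ind_pos (A := {g | Wk W [] x r g}) hg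
      rw [k1, k2, one_mul, one_mul]
    · have k1 : wk W [] x s g = 0 := ind_neg (A := {g | Wk W [] x s g}) hg
      rw [k1, zero_mul, zero_mul]
      have h1 := sl_wk hW l x s g hl
      rw [ind_neg hg] at h1
      have h2 := (od_mono hW x (wk W l x s) (wk W l x s) (wk W l x r) (wk W l x r)
        (fun g => ⟨ind_nonneg _ g, le_refl _⟩) (fun g => ⟨ind_nonneg _ g, le_refl _⟩) l
        (fun i _ κ hκ g => ⟨ind_congr (wk_Liff hW hκ l x r g hl),
          ind_congr (wk_Liff hW hκ l x r g hl)⟩) g).1
      have h3 : OD W l x (wk W l x s) (wk W l x r) g = SL W l x (wk W l x s) g *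
        SL W l x (wk W l x r) g - SL W l x (fun g => wk W l x s g * wk W l x r g) g := rfl
      have h4 : 0 ≤ SL W l x (fun g => wk W l x s g * wk W l x r g) g :=
        sl_nonneg W l x _ (fun g => mul_nonneg (ind_nonneg _ g) (ind_nonneg _ g)) g
      have h5 : SL W l x (wk W l x s) g = 0 := le_antisymm h1.2 h1.1
      rw [h5, zero_mul] at h3
      linarith
  have e2 : (avP fun x => avP fun s => avP fun r => avT W (OD W l x (wk W l x s) (wk W l x r))) =
      avP fun x => avP fun s => avP fun r => avT W (fun g => wk W [] x s g * wk W [] x r g *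
        OD W l x (wk W l (mx [] x s) s) (wk W l (mx [] x r) r) g) := by
    congr 1
    funext x
    congr 1
    funext s
    congr 1
    funext r
    exact hpt x s r
  rw [e1, one_mul, List.nil_append] at h
  rw [e2]
  refine h.trans (le_of_eq ?_)
  ring

end Pool.Agent.H26.EW
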