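import Pool.Agent.H26.EWR.SLB

/-!
# Finite worlds of lines: walks
-/

set_option autoImplicit false
set_option linter.unusedSectionVars false

open Finset

namespace Pool.Agent.H26.EW

variable {ι : Type} [Fintype ι] [DecidableEq ι] {p : ι → ℕ} {G : Type} [AddCommGroup G]

lemma wk_K {W : WD ι p G} (hW : W.Ok) {i : ι} {κ : G} (l : List ι) :
    ∀ (x t : Pos p) (g : G), i ∉ l → κ ∈ W.K i (x i) → Wk W l x t g → Wk W l x t (g + κ) := by
  induction l with
  | nil =>
    intro x t g _ hκ h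
    exact hW.Vinv x i κ hκ g h
  | cons j l ih =>
    intro x t g hi hκ h
    obtain ⟨h1, h2, h3⟩ := h
    have hji : j ≠ i := fun h => hi (h ▸ List.mem_cons_self)
    have hil : i ∉ l := fun h => hi (List.mem_cons_of_mem _ h)
    have hκ' : κ ∈ W.K i (Function.update x j (t j) i) := by
      rwa [Function.update_of_ne hji.symm]
    exact ⟨hW.inv j i x hji κ hκ g h1, hW.inv j i _ hji κ hκ' g h2, ih _ t g hil hκ' h3⟩

lemma wk_Kiff {W : WD ι p G} (hW : W.Ok) {i : ι} {κ : G} (l : List ι)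
    (x t : Pos p) (g : G) (hi : i ∉ l) (hκ : κ ∈ W.K i (x i)) :
    Wk W l x t (g + κ) ↔ Wk W l x t g := by
  refine ⟨fun h => ?_, wk_K hW l x t g hi hκ⟩
  have h1 := wk_K hW l x t (g + κ) hi (hW.Kn i _ κ hκ) h
  simpa using h1

lemma wk_L {W : WD ι p G} (hW : W.Ok) {i : ι} {κ : G} (hκ : κ ∈ W.L i) (l : List ι) :
    ∀ (x t : Pos p) (g : G), l.Nodup → Wk W l x t g → Wk W l x t (g + κ) := by
  induction l with
  | nil =>
    intro x t g _ h
    exact hW.Vinv x i κ (hW.LK i _ hκ) g h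
  | cons j l ih =>
    intro x t g hl h
    obtain ⟨h1, h2, h3⟩ := h
    have hl' := List.nodup_cons.1 hl
    refine ⟨?_, ?_, ih _ t g hl'.2 h3⟩
    · by_cases hji : j = i
      · subst hji
        exact hW.invL j x κ hκ g h1
      · exact hW.inv j i x hji κ (hW.LK i _ hκ) g h1
    · by_cases hji : j = i
      · subst hji
        exact hW.invL j _ κ hκ g h2
      · exact hW.inv j i _ hji κ (hW.LK i _ hκ) g h2

lemma wk_Liff {W : WD ι p G} (hW : W.Ok) {i : ι} {κ : G} (hκ : κ ∈ W.L i) (l : List ι)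
    (x t : Pos p) (g : G) (hl : l.Nodup) : Wk W l x t (g + κ) ↔ Wk W l x t g := by
  refine ⟨fun h => ?_, wk_L hW hκ l x t g hl⟩
  have h1 := wk_L hW (hW.Ln i κ hκ) l x t (g + κ) hl h
  simpa using h1

lemma wk_t {W : WD ι p G} (l : List ι) : ∀ (x t t' : Pos p) (g : G), (∀ i ∈ l, t i = t' i) →
    (Wk W l x t g ↔ Wk W l x t' g) := by
  induction l with
  | nil =>
    intro x t t' g _
    exact Iff.rfl
  | cons j l ih =>
    intro x t t' g h
    have h1 := h j List.mem_cons_self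
    have h2 := ih (Function.update x j (t' j)) t t' g (fun i hi => h i (List.mem_cons_of_mem _ hi))
    unfold Wk
    rw [h1, h2]

lemma mx_cons (j : ι) (l : List ι) (x t : Pos p) (hj : j ∉ l) :
    mx (j :: l) x t = mx l (Function.update x j (t j)) t := by
  funext i
  unfold mx
  by_cases hi : i ∈ l
  · simp [hi]
  · by_cases hij : i = j
    · subst hij
      simp [hj]
    · simp [hi, hij, Function.update_of_ne hij]

lemma mx_nil (x t : Pos p) : mx [] x t = x := by
  funext i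
  unfold mx
  simp

lemma mx_congr (l : List ι) (x t t' : Pos p) (h : ∀ i ∈ l, t i = t' i) : mx l x t = mx l x t' := by
  funext i
  unfold mx
  by_cases hi : i ∈ l
  · simp [hi, h i hi]
  · simp [hi]

lemma wk_V {W : WD ι p G} (hW : W.Ok) (l : List ι) : ∀ (x t : Pos p) (g : G), l.Nodup →
    Wk W l x t g → g ∈ W.V x ∧ g ∈ W.V (mx l x t) := by
  induction l with
  | nil =>
    intro x t g _ h
    rw [mx_nil]
    exact ⟨h, h⟩
  | cons j l ih =>
    intro x t g hl h
    obtain ⟨h1, _, h3⟩ := h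
    have hl' := List.nodup_cons.1 hl
    refine ⟨hW.GdV j x h1, ?_⟩
    rw [mx_cons j l x t hl'.1]
    exact (ih _ t g hl'.2 h3).2

lemma wk_app {W : WD ι p G} (hW : W.Ok) (l' : List ι) (l : List ι) : ∀ (x t : Pos p) (g : G),
    (l ++ l').Nodup → (Wk W (l ++ l') x t g ↔ Wk W l x t g ∧ Wk W l' (mx l x t) t g) := by
  induction l with
  | nil =>
    intro x t g hl
    rw [mx_nil, List.nil_append]
    exact ⟨fun h => ⟨(wk_V hW l' x t g hl h).1, h⟩, fun h => h.2⟩
  | cons j l ih =>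
    intro x t g hl
    rw [List.cons_append] at hl ⊢
    have hl' := List.nodup_cons.1 hl
    have hj : j ∉ l := fun h => hl'.1 (List.mem_append_left _ h)
    have h1 := ih (Function.update x j (t j)) t g hl'.2
    rw [mx_cons j l x t hj]
    have e1 : Wk W (j :: (l ++ l')) x t g ↔ g ∈ W.Gd j x ∧ g ∈ W.Gd j (Function.update x j (t j)) ∧
      Wk W (l ++ l') (Function.update x j (t j)) t g := Iff.rfl
    have e2 : Wk W (j :: l) x t g ↔ g ∈ W.Gd j x ∧ g ∈ W.Gd j (Function.update x j (t j)) ∧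
      Wk W l (Function.update x j (t j)) t g := Iff.rfl
    rw [e1, e2, h1]
    tauto

lemma mx_rev (l : List ι) (x t : Pos p) : mx l.reverse x t = mx l x t := by
  funext i
  unfold mx
  simp

lemma wk_rev {W : WD ι p G} (hW : W.Ok) (l : List ι) : ∀ (x t : Pos p) (g : G), l.Nodup →
    (Wk W l x t g ↔ Wk W l.reverse (mx l x t) x g) := by
  induction l with
  | nil =>
    intro x t g _
    rw [mx_nil]
    exact Iff.rfl
  | cons j l ih =>
    intro x t g hl
    have hl' := List.nodup_cons.1 hl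
    have hx : ∀ i ∈ l, (Function.update x j (t j)) i = x i := by
      intro i hi
      have : i ≠ j := fun h => hl'.1 (h ▸ hi)
      rw [Function.update_of_ne this]
    have hnd : (l.reverse ++ [j]).Nodup := by
      have := List.nodup_reverse.2 hl
      rwa [List.reverse_cons] at this
    rw [List.reverse_cons, wk_app hW [j] l.reverse _ _ _ hnd, mx_cons j l x t hl'.1]
    have h1 := ih (Function.update x j (t j)) t g hl'.2
    have h2 : Wk W l.reverse (mx l (Function.update x j (t j)) t) (Function.update x j (t j)) g ↔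
        Wk W l.reverse (mx l (Function.update x j (t j)) t) x g :=
      wk_t l.reverse _ _ _ g (fun i hi => hx i (List.mem_reverse.1 hi))
    have h3 : mx l.reverse (mx l (Function.update x j (t j)) t) x = Function.update x j (t j) := by
      rw [mx_rev]
      funext i
      by_cases hi : i ∈ l
      · rw [hx i hi]
        unfold mx
        simp [hi]
      · unfold mx
        simp [hi]
    have h4 : Function.update (Function.update x j (t j)) j (x j) = x := by
      simp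
    have e1 : Wk W (j :: l) x t g ↔ g ∈ W.Gd j x ∧ g ∈ W.Gd j (Function.update x j (t j)) ∧
      Wk W l (Function.update x j (t j)) t g := Iff.rfl
    have e2 : Wk W [j] (Function.update x j (t j)) x g ↔ g ∈ W.Gd j (Function.update x j (t j)) ∧
      g ∈ W.Gd j (Function.update (Function.update x j (t j)) j (x j)) ∧
      g ∈ W.V (Function.update (Function.update x j (t j)) j (x j)) := Iff.rfl
    rw [h3, e1, e2, h4, h1, h2]
    constructor
    · rintro ⟨a, b, c⟩
      exact ⟨c, b, a, hW.GdV j x a⟩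
    · rintro ⟨c, b, a, _⟩
      exact ⟨a, b, c⟩

lemma ind_congr {A B : Set G} {g h : G} (e : g ∈ A ↔ h ∈ B) : ind A g = ind B h := by
  classical
  unfold ind
  by_cases h1 : g ∈ A
  · rw [if_pos h1, if_pos (e.1 h1)]
  · rw [if_neg h1, if_neg (fun h => h1 (e.2 h))]

lemma ind_nonneg (A : Set G) (g : G) : 0 ≤ ind A g := by
  classical
  unfold ind
  split_ifs <;> norm_num

lemma ind_le_one (A : Set G) (g : G) : ind A g ≤ 1 := by
  classical
  unfold ind
  split_ifs <;> norm_num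

lemma ind_pos {A : Set G} {g : G} (h : g ∈ A) : ind A g = 1 := by
  classical
  unfold ind
  rw [if_pos h]

lemma ind_neg {A : Set G} {g : G} (h : g ∉ A) : ind A g = 0 := by
  classical
  unfold ind
  rw [if_neg h]

lemma ind_sq (A : Set G) (g : G) : ind A g * ind A g = ind A g := by
  by_cases h : g ∈ A
  · rw [ind_pos h, one_mul]
  · rw [ind_neg h, zero_mul]

lemma ind_mono {A B : Set G} {g : G} (h : g ∈ A → g ∈ B) : ind A g ≤ ind B g := by
  by_cases h1 : g ∈ A
  · rw [ind_pos h1, ind_pos (h h1)]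
  · rw [ind_neg h1]
    exact ind_nonneg B g

lemma ind_inter (A B : Set G) (g : G) : ind (A ∩ B) g = ind A g * ind B g := by
  by_cases h1 : g ∈ A
  · by_cases h2 : g ∈ B
    · rw [ind_pos h1, ind_pos h2, ind_pos (A := A ∩ B) ⟨h1, h2⟩, one_mul]
    · rw [ind_neg h2, ind_neg (fun h : g ∈ A ∩ B => h2 h.2), mul_zero]
  · rw [ind_neg h1, ind_neg (fun h : g ∈ A ∩ B => h1 h.1), zero_mul]

lemma mem_tr {A : Set G} {κ : G} (h1 : ∀ g ∈ A, g + κ ∈ A) (h2 : ∀ g ∈ A, g + -κ ∈ A) (g : G) :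
    g + κ ∈ A ↔ g ∈ A := by
  refine ⟨fun h => ?_, h1 g⟩
  have := h2 _ h
  simpa using this

lemma V_iff {W : WD ι p G} (hW : W.Ok) (x : Pos p) (i : ι) {κ : G} (hκ : κ ∈ W.K i (x i)) (g : G) :
    g + κ ∈ W.V x ↔ g ∈ W.V x :=
  mem_tr (hW.Vinv x i κ hκ) (hW.Vinv x i (-κ) (hW.Kn i _ κ hκ)) g

lemma Gd_iff {W : WD ι p G} (hW : W.Ok) (x : Pos p) {i j : ι} (hij : i ≠ j) {κ : G}
    (hκ : κ ∈ W.K j (x j)) (g : G) : g + κ ∈ W.Gd i x ↔ g ∈ W.Gd i x :=
  mem_tr (hW.inv i j x hij κ hκ) (hW.inv i j x hij (-κ) (hW.Kn j _ κ hκ)) g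

lemma GdL_iff {W : WD ι p G} (hW : W.Ok) (x : Pos p) {i j : ι} {κ : G}
    (hκ : κ ∈ W.L j) (g : G) : g + κ ∈ W.Gd i x ↔ g ∈ W.Gd i x := by
  by_cases hij : i = j
  · subst hij
    exact mem_tr (hW.invL i x κ hκ) (hW.invL i x (-κ) (hW.Ln i κ hκ)) g
  · exact Gd_iff hW x hij (hW.LK j _ hκ) g

lemma Ge_iff {W : WD ι p G} (hW : W.Ok) (x : Pos p) {i j : ι} (hij : i ≠ j) {κ : G}
    (hκ : κ ∈ W.K j (x j)) (g : G) : g + κ ∈ W.Ge i x ↔ g ∈ W.Ge i x :=
  mem_tr (hW.Geinv i j x hij κ hκ) (hW.Geinv i j x hij (-κ) (hW.Kn j _ κ hκ)) g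

lemma GeL_iff {W : WD ι p G} (hW : W.Ok) (x : Pos p) {i : ι} {κ : G}
    (hκ : κ ∈ W.L i) (g : G) : g + κ ∈ W.Ge i x ↔ g ∈ W.Ge i x :=
  mem_tr (hW.GeL i x κ hκ) (hW.GeL i x (-κ) (hW.Ln i κ hκ)) g

theorem pf_WKB : T_WKB := by
  intro ι _ _ p G _ W hW l hl x t g
  refine ⟨fun i hi κ hκ => ?_, fun i _ κ hκ => ?_, fun t' h => ?_, wk_V hW l x t g hl,
    wk_rev hW l x t g hl⟩
  · exact ind_congr (wk_Kiff hW l x t g hi hκ)
  · exact ind_congr (wk_Liff hW hκ l x t g hl)
  · exact ind_congr (wk_t l x t t' g h)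

end Pool.Agent.H26.EW
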